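import Pool.Agent.MP_5d9b3c_ag.H69.Basic

/-!
Row DA: derivations acting on families.
-/

namespace Pool.Agent.MP_5d9b3c_ag.H69

open Finset

namespace DA

variable {K R : Type} [Field K] [CommRing R] [Algebra K R]

lemma mul_der_pow (V : Derivation K R R) (x : R) (n : ℕ) : x * V (x ^ n) = n * x ^ n * V x := by
  cases n with
  | zero => simp
  | succ n => simp only [Derivation.leibniz_pow, Nat.add_sub_cancel, smul_eq_mul, nsmul_eq_mul]; ring

lemma der_pow_succ (V : Derivation K R R) (x : R) (n : ℕ) :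
    V (x ^ (n + 1)) = (n + 1) * x ^ n * V x := by
  simp only [Derivation.leibniz_pow, Nat.add_sub_cancel, smul_eq_mul, nsmul_eq_mul]
  push_cast
  ring

lemma der_pow_zero {V : Derivation K R R} {x : R} (h : V x = 0) (n : ℕ) : V (x ^ n) = 0 := by
  simp [Derivation.leibniz_pow, h]

lemma der_mul_const {V : Derivation K R R} {x : R} (h : V x = 0) (y : R) : V (x * y) = x * V y := by
  simp [Derivation.leibniz, h]

/-- weighted binomial sums -/
noncomputable def Y (F u : R) (w : ℕ → ℕ → K) (m : ℕ) : R :=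
  ∑ j ∈ range (m + 2), (((m + 1).choose j : K) * w m j) • (F ^ j * u ^ (m + 1 - j))

lemma Y_one (F u : R) (m : ℕ) : Y F u (1 : ℕ → ℕ → K) m = (F + u) ^ (m + 1) := by
  rw [Y, add_pow]
  refine sum_congr rfl fun j _ => ?_
  simp [Algebra.smul_def, mul_comm]

/-- the multipliers -/
def mult (F u : R) (N : Submodule R (ℕ → R)) : Subalgebra K (ℕ → ℕ → K) where
  carrier := {a | ∀ w, Y F u w ∈ N → Y F u (a * w) ∈ N}
  mul_mem' := fun {a b} ha hb w hw => by rw [mul_assoc]; exact ha _ (hb w hw)
  add_mem' := fun {a b} ha hb w hw => by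
    convert N.add_mem (ha w hw) (hb w hw) using 1
    funext m
    simp only [Y, Pi.add_apply, Pi.mul_apply, ← sum_add_distrib, ← add_smul, add_mul, mul_add]
  algebraMap_mem' := fun c w hw => by
    convert ksmul_mem c hw using 1
    funext m
    simp only [Y, Pi.mul_apply, smul_sum, smul_smul, Pi.algebraMap_apply, Algebra.algebraMap_self,
      RingHom.id_apply, mul_left_comm c]

variable {F u : R} {N : Submodule R (ℕ → R)}

lemma fst_mem (hN : Closed (K := K) Set.univ N) : 
    (fun (m _ : ℕ) => (m : K)) ∈ mult (K := K) F u N := by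
  intro w hw
  convert hN.par _ hw using 1
  funext m
  simp only [Y, Pi.mul_apply, mul_sum, Algebra.smul_def, map_mul, map_natCast]
  exact sum_congr rfl fun j _ => by ring

lemma snd_mem (hN : Closed (K := K) Set.univ N) {E : Derivation K R R} (h1 : E u = u)
    (h2 : E F = 0) : (fun (_ j : ℕ) => (j : K)) ∈ mult (K := K) F u N := by
  intro w hw
  convert N.sub_mem (N.add_mem (hN.par _ hw) hw) (hN.der E trivial _ hw) using 1
  funext m
  simp only [Y, Pi.mul_apply, Pi.sub_apply, Pi.add_apply, map_sum, mul_sum, ← sum_add_distrib,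
    ← sum_sub_distrib, Derivation.map_smul, der_mul_const (der_pow_zero h2 _)]
  refine sum_congr rfl fun j hj => ?_
  have e1 : E (u ^ (m + 1 - j)) = ((m + 1 - j : ℕ) : R) * u ^ (m + 1 - j) := by
    cases m + 1 - j with
    | zero => simp
    | succ i => rw [der_pow_succ, h1]; push_cast; ring
  rw [e1, Nat.cast_sub (by simpa [Nat.lt_succ_iff] using hj)]
  simp only [Algebra.smul_def, map_mul, map_natCast]
  push_cast
  ring

lemma aeval_apply (x : ℕ → ℕ → K) (b : Polynomial K) (m j : ℕ) :
    Polynomial.aeval x b m j = b.eval (x m j) := by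
  have := Polynomial.aeval_algHom_apply
    ((Pi.evalAlgHom K (fun _ : ℕ => K) j).comp (Pi.evalAlgHom K (fun _ : ℕ => ℕ → K) m)) x b
  simpa [Polynomial.coe_aeval_eq_eval] using this.symm

lemma aeval_mem {𝒜 : Subalgebra K (ℕ → ℕ → K)} {x : ℕ → ℕ → K} (hx : x ∈ 𝒜) (b : Polynomial K) :
    Polynomial.aeval x b ∈ 𝒜 :=
  Algebra.adjoin_le (S := 𝒜) (Set.singleton_subset_iff.2 hx)
    (Polynomial.aeval_mem_adjoin_singleton K x)

lemma exists_quot {𝒜 : Subalgebra K (ℕ → ℕ → K)} {x y : ℕ → ℕ → K} (hx : x ∈ 𝒜) (hy : y ∈ 𝒜)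
    (b : Polynomial K) : ∃ w ∈ 𝒜, ∀ m j, b.eval (x m j) - b.eval (y m j) = (x m j - y m j) * w m j := by
  obtain ⟨w, hw⟩ := Polynomial.sub_dvd_eval_sub (⟨x, hx⟩ : 𝒜) ⟨y, hy⟩ (b.map (algebraMap K 𝒜))
  refine ⟨w, w.2, fun m j => ?_⟩
  rw [Polynomial.eval_map_algebraMap, Polynomial.eval_map_algebraMap] at hw
  have h := congrArg (fun z : 𝒜 => (z : ℕ → ℕ → K) m j) hw
  simpa [← Polynomial.aeval_subalgebra_coe, aeval_apply] using h

/-- the transfer map -/
noncomputable def T (u : R) (w : Polynomial K) (q : ℕ → R) (m : ℕ) : R :=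
  ∑ j ∈ range (m + 1), (((m + 1) * m.choose j : K) * w.eval (j : K)) • (u ^ (m - j) * q j)

/-- families whose transfers lie in `N` -/
def tr (K : Type) [Field K] [Algebra K R] (u : R) (N : Submodule R (ℕ → R)) :
    Submodule R (ℕ → R) where
  carrier := {q | ∀ w : Polynomial K, T u w q ∈ N}
  zero_mem' := fun w => by
    convert N.zero_mem using 1
    funext m
    simp [T]
  add_mem' := fun {a b} ha hb w => by
    convert N.add_mem (ha w) (hb w) using 1
    funext m
    simp only [T, Pi.add_apply, mul_add, smul_add, sum_add_distrib]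
  smul_mem' := fun c q hq w => by
    convert mul_mem c (hq w) using 1
    funext m
    simp only [T, Pi.smul_apply, smul_eq_mul, mul_sum, mul_smul_comm, mul_left_comm c]

lemma tr_closed (hN : Closed (K := K) Set.univ N) {𝒱 : Set (Derivation K R R)}
    (h : ∀ V ∈ 𝒱, V u = 0) : Closed 𝒱 (tr K u N) := by
  refine ⟨fun V hV q hq w => ?_, fun q hq w => ?_⟩
  · convert hN.der V trivial _ (hq w) using 1
    funext m
    simp only [T, map_sum, Derivation.map_smul, der_mul_const (der_pow_zero (h V hV) _)]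
  · convert hq (Polynomial.X * w) using 1
    funext m
    simp only [T, Polynomial.eval_mul, Polynomial.eval_X, Algebra.smul_def, map_mul, map_natCast]
    exact sum_congr rfl fun j _ => by ring

lemma T_pow (F u : R) (w : Polynomial K) : T u w (fun j => F ^ (j + 1)) =
    Y F u ((fun (_ j : ℕ) => (j : K)) *
      Polynomial.aeval ((fun (_ j : ℕ) => (j : K)) - 1 : ℕ → ℕ → K) w * 1) := by
  funext m
  rw [Y, sum_range_succ', T]
  simp only [mul_one, Pi.mul_apply, aeval_apply, Nat.cast_zero, zero_mul, mul_zero, zero_smul,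
    add_zero, Pi.sub_apply, Pi.one_apply, Nat.add_sub_add_right]
  refine sum_congr rfl fun j _ => ?_
  have e : ((m + 1) * m.choose j : K) = (m + 1).choose (j + 1) * (j + 1) := by
    exact_mod_cast congrArg (Nat.cast : ℕ → K) (Nat.add_one_mul_choose_eq m j)
  rw [e, mul_comm (u ^ (m - j))]
  push_cast
  rw [add_sub_cancel_right, mul_assoc]

lemma lap {ρ : Type} [Fintype ρ] {A B : ρ → Derivation K R R} {J : R} {r : K}
    (hA : ∀ j, A j F = 0) (hB : ∀ j, B j F = 0) (h1 : ∑ j, A j (B j u) = r • J)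
    (h2 : ∑ j, A j u * B j u = J * u) (k i : ℕ) :
    ∑ j, A j (B j (F ^ k * u ^ (i + 1))) = (((i + 1) * (i + r) : K)) • (J * (F ^ k * u ^ i)) := by
  have e : ∀ j, A j (B j (F ^ k * u ^ (i + 1))) =
      (i + 1) * F ^ k * (u ^ i * A j (B j u) + i * u ^ (i - 1) * (A j u * B j u)) := fun j => by
    rw [der_mul_const (der_pow_zero (hB j) _), der_mul_const (der_pow_zero (hA j) _),
      der_pow_succ, mul_assoc, der_mul_const (by simp)]
    simp only [Derivation.leibniz, Derivation.leibniz_pow, smul_eq_mul, nsmul_eq_mul]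
    ring
  simp only [e, ← mul_sum, sum_add_distrib, h1, h2, Algebra.smul_def, map_mul, map_add,
    map_natCast, map_one]
  cases i with
  | zero => simp; ring
  | succ i => simp only [Nat.add_sub_cancel]; ring

end DA

theorem pb : PBStmt := by
  intro K R0 R _ _ _ _ _ φ 𝒱0 𝒱 J τ hD f h b H
  let S : Submodule R0 (ℕ → R0) :=
    { carrier := {q | ∃ k, (fun j => (J * τ) ^ k * τ ^ (j + 1) * φ (q j)) ∈
        Cl 𝒱 (fun j => (τ * φ f) ^ (j + 1))}
      zero_mem' := ⟨0, by
        convert Submodule.zero_mem _ using 1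
        funext j
        simp⟩
      add_mem' := fun {a b} ⟨k, ha⟩ ⟨l, hb⟩ => ⟨k + l, by
        convert Submodule.add_mem _ (mul_mem ((J * τ) ^ l) ha) (mul_mem ((J * τ) ^ k) hb) using 1
        funext j
        simp only [Pi.add_apply, map_add]
        ring⟩
      smul_mem' := fun c q ⟨k, hq⟩ => ⟨k, by
        convert mul_mem (φ c) hq using 1
        funext j
        simp only [Pi.smul_apply, smul_eq_mul, map_mul]
        ring⟩ }
  have hS : Closed 𝒱0 S := by
    refine ⟨fun D hD' q ⟨k, hq⟩ => ⟨k + 2, ?_⟩, fun q ⟨k, hq⟩ => ⟨k, ?_⟩⟩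
    · obtain ⟨V, hV, e⟩ := hD D hD'
      convert Submodule.sub_mem _ (Submodule.sub_mem _
        (mul_mem (J * τ * τ) (Cl.closed.der V hV _ hq)) (mul_mem (k * τ * V (J * τ)) hq))
        (mul_mem (J * τ * V τ) (Submodule.add_mem _ (Cl.closed.par _ hq) hq)) using 1
      funext j
      have e1 := DA.mul_der_pow V (J * τ) k
      have e2 := DA.mul_der_pow V τ (j + 1)
      simp only [Pi.sub_apply, Pi.add_apply, Derivation.leibniz _ (_ * _) (φ _),
        Derivation.leibniz _ ((J * τ) ^ k), smul_eq_mul, e]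
      push_cast at e2
      linear_combination (-(τ * τ ^ (j + 1) * φ (q j))) * e1 -
        (J * τ * (J * τ) ^ k * φ (q j)) * e2
    · convert Cl.closed.par _ hq using 1
      funext j
      simp only [map_mul, map_natCast]
      ring
  obtain ⟨k, hk⟩ := Cl.le hS (g := fun j => f ^ (j + 1))
    ⟨0, by simpa [mul_pow] using Cl.self (𝒱 := 𝒱) (g := fun j => (τ * φ f) ^ (j + 1))⟩ H
  refine ⟨k, ?_⟩
  unfold LB
  convert hk using 1
  funext j
  simp only [map_smul, map_mul, map_pow, mul_smul_comm]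
  congr 1
  ring

theorem hypD : HypDStmt := by
  intro K R ρ _ _ _ _ 𝒱 F u h J r E A B hV hE1 hE2 hA hB h1 h2 b H
  unfold LB at H ⊢
  set N := Cl (K := K) Set.univ fun m => (F + u) ^ (m + 1) with hNdef
  have hN : Closed (K := K) Set.univ N := Cl.closed
  have y1 : DA.Y F u (1 : ℕ → ℕ → K) ∈ N := by
    rw [funext (DA.Y_one F u)]
    exact Cl.self
  have m1 := DA.fst_mem (F := F) (u := u) hN
  have m2 := DA.snd_mem hN hE1 hE2
  have t1 := Cl.le (DA.tr_closed hN hV) (g := fun j => F ^ (j + 1)) (fun w => by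
    rw [DA.T_pow]
    exact Subalgebra.mul_mem _ m2 (DA.aeval_mem (Subalgebra.sub_mem _ m2 (one_mem _)) w) _ y1) H 1
  obtain ⟨w, hw, e⟩ := DA.exists_quot
    (Subalgebra.add_mem _ m1 (Subalgebra.algebraMap_mem _ r)) m2 b
  have t2 := N.sum_mem (t := univ) fun j _ =>
    hN.der (A j) trivial _ (hN.der (B j) trivial _ (hw 1 y1))
  convert N.add_mem (mul_mem J t1) (mul_mem h t2) using 1
  funext m
  simp only [Pi.add_apply, Finset.sum_apply, mul_one, DA.Y, DA.T, map_sum, Derivation.map_smul]
  rw [sum_comm, sum_range_succ (n := m + 1), add_pow, mul_sum, smul_sum]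
  simp only [← smul_sum, Nat.sub_self, pow_zero, mul_one, DA.der_pow_zero (hB _), map_zero,
    sum_const_zero, smul_zero, add_zero]
  rw [mul_sum, mul_sum, smul_sum, ← sum_add_distrib]
  refine sum_congr rfl fun j hj => ?_
  have hj' : j ≤ m := by simpa [Nat.lt_succ_iff] using hj
  have e1 := e m j
  have e2 : ((m.choose j : K)) * (m + 1) = (m + 1).choose j * ((m - j : ℕ) + 1) := by
    have := Nat.choose_mul_succ_eq m j
    rw [show m + 1 - j = m - j + 1 by omega] at this
    exact_mod_cast congrArg (Nat.cast : ℕ → K) this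
  rw [show m + 1 - j = m - j + 1 by omega, DA.lap hA hB h1 h2]
  have e3 : ((m - j : ℕ) : K) = m - j := Nat.cast_sub hj'
  have e4 : (sh b r).eval (m : K) * m.choose j = (m + 1) * m.choose j * b.eval (j : K) +
      (m + 1).choose j * w m j * ((((m - j : ℕ) : K) + 1) * ((m - j : ℕ) + r)) := by
    simp only [sh, Polynomial.eval_mul, Polynomial.eval_add, Polynomial.eval_X, Polynomial.eval_one,
      Polynomial.eval_comp, Polynomial.eval_C]
    simp only [Pi.add_apply, Pi.algebraMap_apply, Algebra.algebraMap_self, RingHom.id_apply] at e1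
    rw [e3] at e2 ⊢
    linear_combination ((m + 1) * m.choose j : K) * e1 + (w m j * (m - j + r)) * e2
  have e5 := congrArg (algebraMap K R) e4
  simp only [Algebra.smul_def, map_mul, map_add, map_natCast, map_one, Polynomial.eval_one] at e5 ⊢
  linear_combination (h * J * F ^ j * u ^ (m - j)) * e5

end Pool.Agent.MP_5d9b3c_ag.H69
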