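import Pool.Agent.MP_5d9b3c_ag.H69.Basic

/-!
The functional equations of the pulled back model and of the localized polynomial.
-/

namespace Pool.Agent.MP_5d9b3c_ag.H69

open Finset MvPolynomial

namespace DB

/-- Compatibility of derivations can be checked on the variables. -/
lemma ext_der {K I R : Type} [Field K] [CommRing R] [Algebra K R] (φ : MvPolynomial I K →ₐ[K] R)
    (V : Derivation K R R) (D : Derivation K (MvPolynomial I K) (MvPolynomial I K)) (J : R)
    (h : ∀ i, V (φ (X i)) = J * φ (D (X i))) (g : MvPolynomial I K) :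
    V (φ g) = J * φ (D g) := by
  induction g using MvPolynomial.induction_on with
  | C a => simp
  | add a b ha hb => simp only [map_add, ha, hb, mul_add]
  | mul_X a j ha =>
    simp only [map_mul, Derivation.leibniz, smul_eq_mul, ha, h, map_add]
    ring

/-- A derivation killing the variables `x` kills the polynomials in `x`. -/
lemma kill {K I I' : Type} [Field K]
    (V : Derivation K (MvPolynomial (I ⊕ I') K) (MvPolynomial (I ⊕ I') K))
    (h : ∀ i, V (X (Sum.inl i)) = 0) (g : MvPolynomial I K) : V (rename Sum.inl g) = 0 := by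
  simpa using ext_der (rename Sum.inl) V 0 0 (fun i => by simpa using h i) g

lemma pd_inr {K I I' : Type} [Field K] (a : I') (g : MvPolynomial I K) :
    pderiv (Sum.inr a : I ⊕ I') (rename Sum.inl g) = 0 :=
  kill _ (fun _ => pderiv_X_of_ne (by simp)) g

/-- The equation for the model. -/
lemma model0 (h1 : PBStmt) (h2 : HypDStmt) (ι ρ κ : Type) [Fintype ρ] (f : MvPolynomial ι ℚ)
    (b : Polynomial ℚ) (hb : LB Set.univ f 1 b) :
    LB Set.univ (model ρ κ f) 1 (sh b (Fintype.card ρ : ℚ)) := by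
  classical
  set u : MvPolynomial (Idx ι ρ κ) ℚ := ∑ j : ρ, X (iμ j) * X (iy j) with hu
  obtain ⟨k, hk⟩ := h1 ℚ _ (MvPolynomial (Idx ι ρ κ) ℚ) (rename Sum.inl) Set.univ
    {V | V u = 0} 1 1 (fun D _ =>
      ⟨mkDerivation ℚ (Sum.elim (fun i => rename Sum.inl (D (X i))) fun _ => 0),
        by simp [hu, map_sum, Derivation.leibniz, mkDerivation_X],
        ext_der _ _ _ _ fun i => by simp [mkDerivation_X]⟩) f 1 b hb
  simp only [one_mul, one_pow, map_one] at hk
  have hA : ∀ j : ρ, pderiv (iμ j) u = X (iy j) := fun j => by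
    simp [hu, map_sum, Derivation.leibniz, pderiv_X, Pi.single_apply]
  have hB : ∀ j : ρ, pderiv (iy j) u = X (iμ j) := fun j => by
    simp [hu, map_sum, Derivation.leibniz, pderiv_X, Pi.single_apply]
  have := h2 ℚ _ ρ {V | V u = 0} (rename Sum.inl f) u 1 1 (Fintype.card ρ : ℚ)
    (mkDerivation ℚ (Sum.elim (fun _ => 0) (Sum.elim (fun j => X (iμ j)) fun _ => 0)))
    (fun j => pderiv (iμ j)) (fun j => pderiv (iy j)) (fun V hV => hV)
    (by simp [hu, map_sum, Derivation.leibniz, mkDerivation_X, mul_comm])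
    (kill _ (fun i => by simp [mkDerivation_X]) f) (fun j => pd_inr _ f) (fun j => pd_inr _ f)
    (by simp [hB, Nat.cast_smul_eq_nsmul])
    (by simp only [hA, hB, one_mul]; exact sum_congr rfl fun j _ => mul_comm _ _) b hk
  rw [one_mul] at this
  exact this

/-- Derivations lift along a polynomial map after multiplication by the Jacobian. -/
lemma lift_jac {I : Type} [Fintype I] [DecidableEq I] (Ψ : I → MvPolynomial I ℚ)
    (D : Derivation ℚ (MvPolynomial I ℚ) (MvPolynomial I ℚ)) :
    ∃ V : Derivation ℚ (MvPolynomial I ℚ) (MvPolynomial I ℚ),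
      ∀ g, V (aeval Ψ g) = (jacM Ψ).det * aeval Ψ (D g) := by
  refine ⟨mkDerivation ℚ fun a => ∑ i, (jacM Ψ).adjugate a i * aeval Ψ (D (X i)),
    ext_der _ _ _ _ fun j => ?_⟩
  rw [aeval_X, der_eq_sum]
  simp only [mkDerivation_X, sum_mul]
  rw [sum_comm]
  have h : ∀ i, ∑ a, (jacM Ψ).adjugate a i * aeval Ψ (D (X i)) * pderiv a (Ψ j) =
      (jacM Ψ * (jacM Ψ).adjugate) j i * aeval Ψ (D (X i)) := fun i => by
    rw [Matrix.mul_apply, sum_mul]
    exact sum_congr rfl fun a _ => by simp only [jacM, Matrix.of_apply]; ring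
  simp only [h, Matrix.mul_adjugate, Matrix.smul_apply, Matrix.one_apply, smul_eq_mul]
  rw [sum_eq_single j] <;> simp +contextual [eq_comm]

end DB

open DB in
theorem modelS (h1 : PBStmt) (h2 : HypDStmt) : ModelStmt := by
  intro ι ρ κ _ _ _ _ f b hb Ψ U
  obtain ⟨k, hk⟩ := h1 ℚ _ _ (aeval Ψ) Set.univ Set.univ (jacM Ψ).det U
    (fun D _ => (lift_jac Ψ D).imp fun V hV => ⟨Set.mem_univ _, hV⟩) _ 1 _
    (model0 h1 h2 ι ρ κ f b hb)
  exact ⟨k, by simpa only [map_one, mul_one] using hk⟩

open DB in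
theorem locS (h1 : PBStmt) (h2 : HypDStmt) : LocStmt := by
  intro I _ F k b hb
  classical
  set κ' : MvPolynomial (Idx I Unit Empty) ℚ := rename Sum.inl k with hκ
  set y : MvPolynomial (Idx I Unit Empty) ℚ := X (iy ()) with hy
  set u : MvPolynomial (Idx I Unit Empty) ℚ := X (iμ ()) * (y * κ' - 1) with hu
  obtain ⟨n, hn⟩ := h1 ℚ _ (MvPolynomial (Idx I Unit Empty) ℚ) (rename Sum.inl) Set.univ
    {V | V u = 0} κ' 1 (fun D _ => by
      obtain ⟨V, hV⟩ : ∃ V : Derivation ℚ (MvPolynomial (Idx I Unit Empty) ℚ) _,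
          V = mkDerivation ℚ (Sum.elim (fun a => κ' * rename Sum.inl (D (X a)))
            (Sum.elim (fun _ => 0) fun _ => -y * rename Sum.inl (D k))) := ⟨_, rfl⟩
      have e := ext_der (rename Sum.inl) V D κ' fun i => by simp [hV, mkDerivation_X]
      have e1 : V κ' = κ' * rename Sum.inl (D k) := e k
      have e2 : V y = -y * rename Sum.inl (D k) := by rw [hV, hy, mkDerivation_X]; rfl
      have e3 : V (X (iμ ())) = 0 := by rw [hV, mkDerivation_X]; rfl
      refine ⟨V, ?_, e⟩
      simp only [Set.mem_ofPred_eq, hu, Derivation.leibniz, map_sub, e1, e2, e3,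
        smul_eq_mul, Derivation.map_one_eq_zero]
      ring) F k b hb
  simp only [one_mul, mul_one] at hn
  have hA : pderiv (iμ ()) u = y * κ' - 1 := by
    simp [hu, hy, hκ, Derivation.leibniz, pderiv_X, pd_inr]
  have hB : pderiv (iy ()) u = X (iμ ()) * κ' := by
    simp [hu, hy, hκ, Derivation.leibniz, pderiv_X, pd_inr]
  have hE : ∀ g : MvPolynomial I ℚ, mkDerivation ℚ (Sum.elim (fun _ => 0)
      (Sum.elim (fun j => X (iμ j)) fun _ => 0) : Idx I Unit Empty →
        MvPolynomial (Idx I Unit Empty) ℚ) (rename Sum.inl g) = 0 :=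
    kill _ fun i => by simp [mkDerivation_X]
  have h3 := h2 ℚ _ Unit {V | V u = 0} (rename Sum.inl F) u _ κ' 1
    (mkDerivation ℚ (Sum.elim (fun _ => 0) (Sum.elim (fun j => X (iμ j)) fun _ => 0)))
    (fun j => pderiv (iμ j)) (fun j => pderiv (iy j)) (fun V hV => hV)
    (by simp [hu, hy, hκ, Derivation.leibniz, mkDerivation_X, hE, mul_comm])
    (hE F) (fun j => pd_inr _ F) (fun j => pd_inr _ F)
    (by simp [hB, hκ, Derivation.leibniz, pd_inr])
    (by rw [Fintype.sum_unique, hA, hB, hu]; ring) b hn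
  have hG : rename Sum.inl F + u = loc F k := rfl
  rw [hG, ← hκ, ← pow_succ, ← pow_succ] at h3
  have hD : pderiv (iμ ()) (loc F k) = y * κ' - 1 := by rw [← hG, map_add, pd_inr, zero_add, hA]
  obtain ⟨c, hc⟩ := sub_one_dvd_pow_sub_one (y * κ') (n + 1 + 1)
  have h4 := Cl.closed.poly (b.comp (Polynomial.X + Polynomial.C 1))
    (Cl.closed.der (pderiv (iμ ())) (Set.mem_univ _) _
      (Cl.self (K := ℚ) (𝒱 := Set.univ) (g := fun m => loc F k ^ (m + 1))))
  have h5 := Submodule.sub_mem _ (mul_mem (y ^ (n + 1 + 1)) h3) (mul_mem c h4)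
  unfold LB
  convert h5 using 1
  funext m
  have e : y ^ (n + 1 + 1) * κ' ^ (n + 1 + 1) = 1 + (y * κ' - 1) * c := by
    rw [← hc, mul_pow]; ring
  simp only [Pi.sub_apply, Derivation.leibniz_pow, hD, sh, Polynomial.eval_mul, Polynomial.eval_add,
    Polynomial.eval_X, Polynomial.eval_one, Algebra.smul_def, map_mul, map_add, map_natCast,
    map_one, Nat.add_sub_cancel, eq_natCast, Algebra.algebraMap_self, RingHom.id_apply]
  linear_combination (-((m : MvPolynomial (Idx I Unit Empty) ℚ) + 1) *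
    algebraMap ℚ _ ((b.comp (Polynomial.X + 1)).eval (m : ℚ)) * loc F k ^ m) * e

end Pool.Agent.MP_5d9b3c_ag.H69
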