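import Pool.Agent.MP_5d9b3c_ag.H69.Basic

/-!
The Weyl algebra and closed modules; rational and complex coefficients.
-/

namespace Pool.Agent.MP_5d9b3c_ag.H69

open Finset MvPolynomial

namespace DC

variable {ι : Type}

lemma ww_map [Fintype ι] {g : ℕ → MvPolynomial ι ℂ} {P : Module.End ℂ (MvPolynomial ι ℂ)}
    (hP : P ∈ H22.WW ι) : ∀ q ∈ Cl (K := ℂ) Set.univ g,
      (fun m => P (q m)) ∈ Cl (K := ℂ) Set.univ g := by
  induction hP using Algebra.adjoin_induction with
  | mem x hx =>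
    rcases hx with ⟨i, rfl⟩ | ⟨i, rfl⟩
    · exact fun q hq => mul_mem (X i) hq
    · exact fun q hq => Cl.closed.der (pderiv i) (Set.mem_univ _) q hq
  | algebraMap r => exact fun q hq => ksmul_mem r hq
  | add x y _ _ hx hy => exact fun q hq => Submodule.add_mem _ (hx q hq) (hy q hq)
  | mul x y _ _ hx hy => exact fun q hq => hx _ (hy q hq)

lemma lb_of_isB [Fintype ι] {g : MvPolynomial ι ℂ} {b : Polynomial ℂ} (h : IsB g b) :
    LB Set.univ g 1 b := by
  obtain ⟨d, P, h1, h2⟩ := h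
  have := (Cl (K := ℂ) Set.univ fun m => g ^ (m + 1)).sum_mem (t := range d) fun t _ =>
    Cl.closed.poly (Polynomial.X ^ t) (ww_map (h1 t) _ Cl.self)
  refine Eq.subst (motive := fun q => q ∈ Cl (K := ℂ) Set.univ fun m => g ^ (m + 1))
    (funext fun m => ?_) this
  rw [Finset.sum_apply, one_mul, ← h2]
  simp

lemma mulLeft_mem (r : MvPolynomial ι ℂ) : LinearMap.mulLeft ℂ r ∈ H22.WW ι := by
  induction r using MvPolynomial.induction_on with
  | C a =>
    have : LinearMap.mulLeft ℂ (C a : MvPolynomial ι ℂ) = algebraMap ℂ _ a :=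
      LinearMap.ext fun x => by simp [smul_eq_C_mul]
    rw [this]
    exact Subalgebra.algebraMap_mem _ a
  | add a b ha hb =>
    have : LinearMap.mulLeft ℂ (a + b) = LinearMap.mulLeft ℂ a + LinearMap.mulLeft ℂ b :=
      LinearMap.ext fun x => add_mul a b x
    rw [this]
    exact add_mem ha hb
  | mul_X a i ha =>
    rw [LinearMap.mulLeft_mul]
    exact Subalgebra.mul_mem _ ha (Algebra.subset_adjoin (Or.inl ⟨i, rfl⟩))

lemma pad {M : Type} [AddCommMonoid M] (F : ℕ → M) {d D : ℕ} (h : d ≤ D) :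
    ∑ t ∈ range d, F t = ∑ t ∈ range D, if t < d then F t else 0 := by
  rw [← sum_filter]
  refine sum_congr ?_ fun _ _ => rfl
  ext t
  simp only [mem_range, mem_filter]
  omega

/-- the families given by operators in the Weyl algebra -/
noncomputable def wS (g : ℕ → MvPolynomial ι ℂ) :
    Submodule (MvPolynomial ι ℂ) (ℕ → MvPolynomial ι ℂ) where
  carrier := {q | ∃ (d : ℕ) (P : ℕ → Module.End ℂ (MvPolynomial ι ℂ)), (∀ t, P t ∈ H22.WW ι) ∧
    ∀ m : ℕ, ∑ t ∈ range d, (m : ℂ) ^ t • P t (g m) = q m}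
  zero_mem' := ⟨0, 0, fun _ => zero_mem _, fun _ => rfl⟩
  add_mem' := by
    rintro q q' ⟨d, P, h1, h2⟩ ⟨d', P', h1', h2'⟩
    refine ⟨d + d', fun t => (if t < d then P t else 0) + if t < d' then P' t else 0,
      fun t => add_mem ?_ ?_, fun m => ?_⟩
    · split_ifs
      exacts [h1 t, zero_mem _]
    · split_ifs
      exacts [h1' t, zero_mem _]
    · rw [Pi.add_apply, ← h2, ← h2', pad _ (Nat.le_add_right d d'), pad _ (Nat.le_add_left d' d),
        ← sum_add_distrib]
      refine sum_congr rfl fun t _ => ?_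
      split_ifs <;> simp [*]
  smul_mem' := by
    rintro r q ⟨d, P, h1, h2⟩
    refine ⟨d, fun t => LinearMap.mulLeft ℂ r * P t,
      fun t => Subalgebra.mul_mem _ (mulLeft_mem r) (h1 t), fun m => ?_⟩
    rw [Pi.smul_apply, ← h2, smul_eq_mul, mul_sum]
    simp

lemma isB_of_lb [Fintype ι] {g : MvPolynomial ι ℂ} {b : Polynomial ℂ} (h : LB Set.univ g 1 b) :
    IsB g b := by
  have hc : Closed (K := ℂ) Set.univ (wS fun m => g ^ (m + 1)) := by
    refine closed_of_pderiv ?_ ?_
    · rintro i q ⟨d, P, h1, h2⟩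
      refine ⟨d, fun t => (pderiv i).toLinearMap * P t, fun t => Subalgebra.mul_mem _
        (Algebra.subset_adjoin (Or.inr ⟨i, rfl⟩)) (h1 t), fun m => ?_⟩
      simp [← h2]
    · rintro q ⟨d, P, h1, h2⟩
      refine ⟨d + 1, fun t => Nat.casesOn t 0 P, fun t => ?_, fun m => ?_⟩
      · cases t
        exacts [zero_mem _, h1 _]
      · beta_reduce
        rw [sum_range_succ', ← h2, ← nsmul_eq_mul, ← Nat.cast_smul_eq_nsmul ℂ, smul_sum]
        simp [smul_smul, pow_succ']
  obtain ⟨d, P, h1, h2⟩ := Cl.le hc ⟨1, fun _ => 1, fun _ => one_mem _, fun m => by simp⟩ h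
  exact ⟨d, P, h1, fun m => (h2 m).trans (congrArg _ (one_mul _))⟩

/-- a functional applied to the coefficients -/
noncomputable def pi (π : ℂ →ₗ[ℚ] ℚ) (g : MvPolynomial ι ℂ) : MvPolynomial ι ℚ :=
  ∑ m ∈ g.support, monomial m (π (coeff m g))

lemma coeff_pi (π : ℂ →ₗ[ℚ] ℚ) (g : MvPolynomial ι ℂ) (m : ι →₀ ℕ) :
    coeff m (pi π g) = π (coeff m g) := by
  classical
  simp only [pi, coeff_sum, coeff_monomial, sum_ite_eq', mem_support_iff]
  split_ifs with h
  · rfl
  · rw [not_not.1 h, map_zero]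

lemma pi_add (π : ℂ →ₗ[ℚ] ℚ) (g g' : MvPolynomial ι ℂ) : pi π (g + g') = pi π g + pi π g' := by
  ext m; simp [coeff_pi]

lemma pi_C (π : ℂ →ₗ[ℚ] ℚ) (z : ℂ) (g : MvPolynomial ι ℂ) :
    pi π (C z * g) = pi (π ∘ₗ LinearMap.mulLeft ℚ z) g := by
  ext m; simp [coeff_pi]

lemma pi_X (π : ℂ →ₗ[ℚ] ℚ) (i : ι) (g : MvPolynomial ι ℂ) : pi π (X i * g) = X i * pi π g := by
  classical
  ext m
  rw [coeff_pi, coeff_X_mul', coeff_X_mul', coeff_pi]
  split_ifs <;> simp

lemma map_nat (π : ℂ →ₗ[ℚ] ℚ) (z : ℂ) (n : ℕ) : π (z * n) = π z * n := by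
  rw [← nsmul_eq_mul', ← nsmul_eq_mul', map_nsmul]

lemma pi_pderiv (π : ℂ →ₗ[ℚ] ℚ) (i : ι) (g : MvPolynomial ι ℂ) :
    pi π (pderiv i g) = pderiv i (pi π g) := by
  ext m
  rw [coeff_pi, coeff_pderiv, coeff_pderiv, coeff_pi, ← Nat.cast_succ, ← Nat.cast_succ, map_nat]

lemma pi_nat (π : ℂ →ₗ[ℚ] ℚ) (n : ℕ) (g : MvPolynomial ι ℂ) :
    pi π ((n : MvPolynomial ι ℂ) * g) = (n : MvPolynomial ι ℚ) * pi π g := by
  ext m
  rw [coeff_pi, ← nsmul_eq_mul, ← nsmul_eq_mul, coeff_smul, coeff_smul, coeff_pi, map_nsmul]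

lemma pi_map (π : ℂ →ₗ[ℚ] ℚ) (z : ℂ) (h : MvPolynomial ι ℚ) :
    pi π (z • map (algebraMap ℚ ℂ) h) = π z • h := by
  ext m
  rw [coeff_pi, coeff_smul, coeff_smul, coeff_map, smul_eq_mul, mul_comm, ← Algebra.smul_def,
    map_smul, smul_eq_mul, smul_eq_mul, mul_comm]

/-- the families whose rational components lie in `N` -/
def rS (N : Submodule (MvPolynomial ι ℚ) (ℕ → MvPolynomial ι ℚ)) :
    Submodule (MvPolynomial ι ℂ) (ℕ → MvPolynomial ι ℂ) where
  carrier := {q | ∀ π, (fun m => pi π (q m)) ∈ N}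
  zero_mem' := fun π => N.zero_mem
  add_mem' := fun hq hq' π => by
    simp only [Pi.add_apply, pi_add]
    exact N.add_mem (hq π) (hq' π)
  smul_mem' := fun r => by
    induction r using MvPolynomial.induction_on with
    | C a =>
      intro q hq π
      simp only [Pi.smul_apply, smul_eq_mul, pi_C]
      exact hq _
    | add a b ha hb =>
      intro q hq π
      simp only [Pi.smul_apply, smul_eq_mul, add_mul, pi_add]
      exact N.add_mem (ha hq π) (hb hq π)
    | mul_X a i ha =>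
      intro q hq
      rw [mul_smul]
      refine ha fun π => ?_
      simp only [Pi.smul_apply, smul_eq_mul, pi_X]
      exact mul_mem _ (hq π)

/-- a functional applied to the coefficients of a polynomial in one variable -/
noncomputable def bp (π : ℂ →ₗ[ℚ] ℚ) (b : Polynomial ℂ) : Polynomial ℚ :=
  ∑ i ∈ range (b.natDegree + 1), Polynomial.monomial i (π (b.coeff i))

lemma bp_eval (π : ℂ →ₗ[ℚ] ℚ) (b : Polynomial ℂ) (m : ℕ) :
    (bp π b).eval (m : ℚ) = π (b.eval (m : ℂ)) := by
  rw [bp, Polynomial.eval_finsetSum, Polynomial.eval_eq_sum_range, map_sum]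
  refine sum_congr rfl fun i _ => ?_
  rw [Polynomial.eval_monomial, ← Nat.cast_pow, ← Nat.cast_pow, map_nat]

lemma exists_bp (b : Polynomial ℂ) (x : ℂ) (h : b.eval x ≠ 0) :
    ∃ π, Polynomial.aeval x (bp π b) ≠ 0 := by
  classical
  by_contra hc
  push Not at hc
  let e := Module.Basis.ofVectorSpace ℚ ℂ
  let s := (range (b.natDegree + 1)).biUnion fun i => (e.repr (b.coeff i)).support
  have h1 : ∀ i ∈ range (b.natDegree + 1),
      b.coeff i * x ^ i = ∑ β ∈ s, e β * (e.repr (b.coeff i) β • x ^ i) := fun i hi => by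
    conv_lhs => rw [← e.linearCombination_repr (b.coeff i), Finsupp.linearCombination_apply,
      Finsupp.sum_of_support_subset _
        (subset_biUnion_of_mem (fun i => (e.repr (b.coeff i)).support) hi) _ (by simp), sum_mul]
    exact sum_congr rfl fun β _ => by rw [smul_mul_assoc, mul_smul_comm]
  refine h ?_
  rw [Polynomial.eval_eq_sum_range, sum_congr rfl h1, sum_comm]
  refine sum_eq_zero fun β _ => ?_
  have h2 := hc (e.coord β)
  simp only [bp, map_sum, Polynomial.aeval_monomial, ← Algebra.smul_def] at h2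
  rw [← mul_sum]
  exact mul_eq_zero_of_right _ h2

end DC

open DC

theorem ratS : RatStmt := by
  intro ι _ f b x hB hx
  obtain ⟨π, hπ⟩ := exists_bp b x hx
  refine ⟨bp π b, hπ, ?_⟩
  have hc : Closed (K := ℂ) Set.univ (rS (Cl (K := ℚ) Set.univ fun m => f ^ (m + 1))) := by
    refine closed_of_pderiv (fun i q hq π => ?_) fun q hq π => ?_
    · simp only [pi_pderiv]
      exact Cl.closed.der (pderiv i) (Set.mem_univ _) _ (hq π)
    · simp only [pi_nat]
      exact Cl.closed.par _ (hq π)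
  have h := Cl.le hc (fun π => by
    have := ksmul_mem (π 1) (Cl.self (K := ℚ) (𝒱 := Set.univ) (g := fun m => f ^ (m + 1)))
    simpa only [← pi_map, one_smul, map_pow] using this) (lb_of_isB hB) π
  simpa only [LB, one_mul, ← map_pow, pi_map, bp_eval] using h

theorem upS : UpStmt := by
  intro ι _ G b h
  let S : Submodule (MvPolynomial ι ℚ) (ℕ → MvPolynomial ι ℚ) :=
    { carrier := {q | (fun m => map (algebraMap ℚ ℂ) (q m)) ∈
        Cl (K := ℂ) Set.univ fun m => map (algebraMap ℚ ℂ) G ^ (m + 1)}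
      zero_mem' := by
        simp only [Set.mem_ofPred_eq, Pi.zero_apply, map_zero]
        exact Submodule.zero_mem _
      add_mem' := fun ha hb => by
        simp only [Set.mem_ofPred_eq, Pi.add_apply, map_add]
        exact Submodule.add_mem _ ha hb
      smul_mem' := fun r q hq => by
        simp only [Set.mem_ofPred_eq, Pi.smul_apply, smul_eq_mul, map_mul]
        exact mul_mem _ hq }
  have hc : Closed (K := ℚ) Set.univ S := by
    refine closed_of_pderiv (fun i q hq => ?_) fun q hq => ?_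
    · have := Cl.closed.der (pderiv i) (Set.mem_univ _) _ hq
      simp only [pderiv_map] at this
      exact this
    · have := Cl.closed.par _ hq
      change (fun m : ℕ => map (algebraMap ℚ ℂ) ((m : MvPolynomial ι ℚ) * q m)) ∈ Cl _ _
      simpa only [map_mul, map_natCast] using this
  have h1 : (fun m : ℕ => map (algebraMap ℚ ℂ) (b.eval (m : ℚ) • (1 * G ^ m))) ∈ Cl _ _ :=
    Cl.le hc (by
      change (fun m : ℕ => map (algebraMap ℚ ℂ) (G ^ (m + 1))) ∈ Cl _ _
      simpa only [map_pow] using Cl.self) h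
  refine isB_of_lb ?_
  have e : ∀ m : ℕ, map (algebraMap ℚ ℂ) (b.eval (m : ℚ) • (1 * G ^ m)) =
      (b.map (algebraMap ℚ ℂ)).eval (m : ℂ) • (1 * map (algebraMap ℚ ℂ) G ^ m) := fun m => by
    rw [Polynomial.eval_natCast_map, smul_eq_C_mul, smul_eq_C_mul, map_mul, map_C, map_mul,
      map_one, map_pow]
  simpa only [LB, e] using h1

end Pool.Agent.MP_5d9b3c_ag.H69
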