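import Pool.Agent.MP_5d9b3c_ag.H69.Basic

/-!
Removing hyperbolic pairs from the `p`-adic count.
-/

namespace Pool.Agent.MP_5d9b3c_ag.H69

open Finset

variable {p : ℕ} [hp : Fact p.Prime]

namespace Hyp

lemma ind_add {m : ℕ} (t : ℚ_[p]) {u : ℚ_[p]} (hu : ‖u‖ ≤ (p : ℝ) ^ (-(m : ℤ))) :
    ind p m (t + u) = ind p m t := by
  refine if_congr ⟨fun h => ?_, fun h => (Padic.nonarchimedean _ _).trans (max_le h hu)⟩ rfl rfl
  have := (Padic.nonarchimedean (t + u) (-u)).trans (max_le h (by rwa [norm_neg]))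
  rwa [add_neg_cancel_right] at this

variable {σ : Type} [Fintype σ] [DecidableEq σ]

omit [Fintype σ] in
lemma lc_sh {Θ : (σ → ℤ_[p]) → ℂ} (h : IsLocallyConstant Θ) (b : σ) :
    IsLocallyConstant fun w : σ ⊕ Unit → ℤ_[p] =>
      Θ ((fun i => w (Sum.inl i)) + Pi.single b (w (Sum.inr ()))) :=
  h.comp_continuous ((continuous_pi fun _ => continuous_apply _).add
    ((continuous_single b).comp (continuous_apply _)))

/-- Averaging over translations in one coordinate. -/
lemma avg (hA : MA p) (hB : MB p) {Θ : (σ → ℤ_[p]) → ℂ} (h : IsLocallyConstant Θ) (b : σ) :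
    MP p Θ = MP p fun z : σ → ℤ_[p] => MP p fun y : Unit → ℤ_[p] => Θ (z + Pi.single b (y ())) := by
  have h1 := lc_sh h b
  refine Eq.trans ?_ (hB.prod σ Unit _ h1)
  refine Eq.trans ?_ (hA.reindex _ _ (Equiv.sumComm σ Unit) _ h1)
  refine Eq.trans ?_ (hB.prod Unit σ _
    (h1.comp_continuous (continuous_pi fun _ => continuous_apply _))).symm
  refine (MP_const (ι := Unit) _).symm.trans (congrArg _ (funext fun y => ?_))
  exact (hA.iso σ Θ (fun z => z + Pi.single b (y ())) h fun z z' => by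
    rw [add_sub_add_right_eq_sub]).symm

lemma pt (hA : MA p) (t : ℚ_[p]) (x y0 : ℤ_[p]) (e j : ℕ) :
    (p : ℂ) * MP p (fun y : Unit → ℤ_[p] =>
        ind p (j + 1 + e) (t + (p : ℚ_[p]) ^ e * ((x : ℚ_[p]) * ((y0 + y () : ℤ_[p]) : ℚ_[p])))) +
      (-1) * MP p (fun y : Unit → ℤ_[p] =>
        ind p (j + e) (t + (p : ℚ_[p]) ^ e * ((x : ℚ_[p]) * ((y0 + y () : ℤ_[p]) : ℚ_[p])))) =
      (p * ind p (j + 1 + e) t + (-1) * ind p (j + e) t) * ind p (j + 1) x := by
  have p1 : (1 : ℝ) < p := by exact_mod_cast hp.out.one_lt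
  have p0 : (p : ℂ) ≠ 0 := by exact_mod_cast hp.out.ne_zero
  by_cases hx : ‖(x : ℚ_[p])‖ ≤ (p : ℝ) ^ (-((j + 1 : ℕ) : ℤ))
  · have h1 : ∀ y : ℤ_[p], ∀ m : ℕ, m ≤ j + 1 + e →
        ‖(p : ℚ_[p]) ^ e * ((x : ℚ_[p]) * (y : ℚ_[p]))‖ ≤ (p : ℝ) ^ (-(m : ℤ)) := fun y m hm => by
      rw [norm_mul, norm_mul, Padic.norm_p_pow]
      refine (mul_le_mul_of_nonneg_left ((mul_le_of_le_one_right (norm_nonneg _) y.2).trans hx)
        (by positivity)).trans ?_
      rw [← zpow_add₀ (by positivity)]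
      exact zpow_le_zpow_right₀ p1.le (by omega)
    simp only [ind_add t (h1 _ _ le_rfl), ind_add t (h1 _ (j + e) (by omega)), MP_const]
    rw [ind, ind, ind, if_pos hx, mul_one]
  · have x0 : x ≠ 0 := by
      rintro rfl
      exact hx (by rw [PadicInt.coe_zero, norm_zero]; positivity)
    have h1 : ‖(x : ℚ_[p])‖ = (p : ℝ) ^ (-(x.valuation : ℤ)) :=
      PadicInt.norm_eq_zpow_neg_valuation x0
    have h2 : x.valuation ≤ j := by
      rw [h1, zpow_le_zpow_iff_right₀ p1] at hx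
      omega
    have h3 : ‖(p : ℚ_[p]) ^ e * (x : ℚ_[p])‖ = (p : ℝ) ^ (-((x.valuation + e : ℕ) : ℤ)) := by
      rw [norm_mul, Padic.norm_p_pow, h1, ← zpow_add₀ (by positivity)]
      congr 1
      omega
    have h4 : ∀ y : ℤ_[p], t + (p : ℚ_[p]) ^ e * ((x : ℚ_[p]) * ((y0 + y : ℤ_[p]) : ℚ_[p])) =
        t + (p : ℚ_[p]) ^ e * x * y0 + (p : ℚ_[p]) ^ e * x * y := fun y => by
      push_cast
      ring
    simp only [h4]
    rw [hA.one Unit () _ _ _ _ h3 (by omega), hA.one Unit () _ _ _ _ h3 (by omega),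
      show j + 1 + e - (x.valuation + e) = j + e - (x.valuation + e) + 1 by omega,
      show ind p (j + 1) x = 0 from if_neg hx, pow_succ]
    field_simp
    ring

/-- Removing one pair. -/
lemma pair (hA : MA p) (hB : MB p) {l : ℝ} (hl : l ≠ 1) {G : (σ → ℤ_[p]) → ℚ_[p]}
    (hG : Continuous G) {a b : σ} (hab : a ≠ b) (ha : ∀ z y, G (z + Pi.single a y) = G z)
    (hb : ∀ z y, G (z + Pi.single b y) = G z) (e : ℕ)
    (h : H48N.Good p (l + 1) fun m => MP p fun z : σ → ℤ_[p] =>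
      ind p m (G z + (p : ℚ_[p]) ^ e * ((z a : ℚ_[p]) * (z b : ℚ_[p])))) :
    H48N.Good p l fun m => MP p fun z => ind p m (G z) := by
  have p0 : (p : ℂ) ≠ 0 := by exact_mod_cast hp.out.ne_zero
  have c1 : ∀ m, IsLocallyConstant fun z : σ → ℤ_[p] =>
      ind p m (G z + (p : ℚ_[p]) ^ e * ((z a : ℚ_[p]) * (z b : ℚ_[p]))) :=
    fun m => lc_ind (by fun_prop) m
  have c2 := fun m => hB.lc_prod σ Unit _ (lc_sh (c1 m) b)
  have c3 : ∀ (c : ℂ) {Θ : (σ → ℤ_[p]) → ℂ}, IsLocallyConstant Θ →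
      IsLocallyConstant fun z => c * Θ z := fun c _ h => h.comp (c * ·)
  have c4 : ∀ j, IsLocallyConstant fun z : σ → ℤ_[p] =>
      (p : ℂ) * ind p (j + 1 + e) (G z) + (-1) * ind p (j + e) (G z) :=
    fun j => (c3 _ (lc_ind hG _)).add (c3 _ (lc_ind hG _))
  have h1 := good_scale hp.out.pos h
  have h2 := ((good_tail hp.out.pos h1 (1 + e)).add
    ((good_tail hp.out.pos h1 e).const_mul (-1))).const_mul ((p : ℂ)⁻¹ ^ e)
  refine good_of_tail e (good_of_step hp.out.one_lt hl ?_)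
  convert h2 using 2 with j
  have e1 := MP_add (c3 p (c2 (j + 1 + e))) (c3 (-1) (c2 (j + e)))
  rw [MP_const_mul (c2 _), MP_const_mul (c2 _)] at e1
  simp only [Sum.elim_inl, Sum.elim_inr] at e1
  rw [← avg hA hB (c1 _) b, ← avg hA hB (c1 _) b] at e1
  simp only [hb, Pi.add_apply, Pi.single_eq_of_ne hab, add_zero, Pi.single_eq_same, pt hA] at e1
  have c5 : IsLocallyConstant fun z : σ → ℤ_[p] => ((p : ℂ) * ind p (j + 1 + e) (G z) +
      (-1) * ind p (j + e) (G z)) * ind p (j + 1) (z a) := (c4 j).mul (lc_ind (by fun_prop) _)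
  replace e1 := (avg hA hB c5 a).symm.trans e1
  have e2 : ∀ (c : ℂ) (x : ℤ_[p]), (MP p fun y : Unit → ℤ_[p] =>
      c * ind p (j + 1) ((x + y () : ℤ_[p]) : ℚ_[p])) = (p : ℂ)⁻¹ ^ (j + 1) * c := fun c x => by
    have := hA.one Unit () x 1 0 (j + 1) (by simp) (Nat.zero_le _)
    rw [show ind p 0 x = 1 from if_pos (by simpa using x.2)] at this
    rw [MP_const_mul (lc_ind (by fun_prop) _), mul_comm]
    simp only [one_mul, mul_one, Nat.sub_zero] at this
    simp only [PadicInt.coe_add, this]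
  simp only [ha, Pi.add_apply, Pi.single_eq_same, e2] at e1
  rw [MP_const_mul (c4 j), MP_add (c3 _ (lc_ind hG _)) (c3 _ (lc_ind hG _)),
    MP_const_mul (lc_ind hG _), MP_const_mul (lc_ind hG _)] at e1
  rw [← add_assoc j 1 e]
  rw [inv_pow] at e1 ⊢
  field_simp at e1 ⊢
  linear_combination (p : ℂ) ^ e * e1

end Hyp

open Hyp in
theorem hypS (hA : MA p) (hB : MB p) : HypStmt p := by
  classical
  intro ι ρ κ _ _ _ l g e hg l0 l1 h
  have key : ∀ S : Finset ρ, (H48N.Good p (l + S.card) fun m =>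
      MP p fun z : Idx ι ρ κ → ℤ_[p] => ind p m (g (fun i => z (Sum.inl i)) +
        (p : ℚ_[p]) ^ e * ∑ j ∈ S, (z (iμ j) : ℚ_[p]) * (z (iy j) : ℚ_[p]))) →
      H48N.Good p l fun m => MP p fun z : ι → ℤ_[p] => ind p m (g z) := by
    intro S
    induction S using Finset.induction_on with
    | empty =>
      intro h
      simp only [card_empty, Nat.cast_zero, sum_empty, mul_zero, add_zero] at h
      convert h using 2 with m
      rw [hB.prod _ _ _ (lc_ind (by fun_prop) _)]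
      simp only [Sum.elim_inl, MP_const]
    | insert j S hj ih =>
      intro h
      have h1 : ∀ i ∈ S, i ≠ j := fun i hi => by rintro rfl; exact hj hi
      refine ih (pair hA hB ?_ (by fun_prop) (a := iμ j) (b := iy j) (by simp) (fun z y => ?_)
        (fun z y => ?_) e ?_)
      · rcases S.card.eq_zero_or_pos with h0 | h0
        · simpa [h0] using l1
        · have : (1 : ℝ) ≤ S.card := by exact_mod_cast h0
          linarith
      · congr 2
        · funext i
          simp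
        · exact sum_congr rfl fun i hi => by simp [h1 i hi]
      · congr 2
        · funext i
          simp
        · exact sum_congr rfl fun i hi => by simp [h1 i hi]
      · simp only [card_insert_of_notMem hj, sum_insert hj, Nat.cast_succ, ← add_assoc] at h
        convert h using 5
        ring
  exact key univ h

end Pool.Agent.MP_5d9b3c_ag.H69
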