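import Pool.Agent.MP_5d9b3c_ag.H69.Basic

/-!
The properties of the mean value, first part.
-/

namespace Pool.Agent.MP_5d9b3c_ag.H69

open Finset

variable {p : ℕ} [hp : Fact p.Prime]

namespace MAx

lemma norm_le (k : ℕ) (x : ℤ_[p]) :
    ‖(x : ℚ_[p])‖ ≤ (p : ℝ) ^ (-(k : ℤ)) ↔ PadicInt.toZModPow k x = 0 := by
  rw [PadicInt.padic_norm_e_of_padicInt, PadicInt.norm_le_pow_iff_mem_span_pow,
    ← PadicInt.ker_toZModPow, RingHom.mem_ker]

lemma map_aeval {ι R S : Type} [CommRing R] [CommRing S] (g : R →+* S) (z : ι → R)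
    (f : MvPolynomial ι ℤ) :
    g (MvPolynomial.aeval z f) = MvPolynomial.aeval (fun i => g (z i)) f :=
  MvPolynomial.comp_aeval_apply z g.toIntAlgHom f

lemma sum_coord {ι α : Type} [Fintype ι] [DecidableEq ι] [Fintype α] [DecidableEq α] (i : ι)
    (c : α) : ∑ b : ι → α, (if b i = c then (1 : ℂ) else 0) =
      (Fintype.card α : ℂ) ^ Fintype.card {j // j ≠ i} := by
  rw [← (Equiv.funSplitAt i α).symm.sum_comp, Fintype.sum_prod_type_right]
  simp

end MAx

open MAx in
theorem mA : MA p := by
  have hp0 : (p : ℂ) ≠ 0 := by exact_mod_cast hp.out.ne_zero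
  have hp1 : (1 : ℝ) < p := by exact_mod_cast hp.out.one_lt
  refine ⟨fun ι _ Θ T h hT => ?_, fun ι κ _ _ e Θ h => ?_, fun ι _ f m => ?_,
    fun ι _ i t a e m ha hem => ?_⟩
  · classical
    obtain ⟨k, hk⟩ := unif h
    have hk := hk k le_rfl
    rw [MP_eq hk, MP_eq (k := k) fun z z' hz => hk _ _
      ((norm_le_iff k _ _).1 (hT z z' ▸ (norm_le_iff k _ _).2 hz))]
    congr 1
    have hi : Function.Injective fun (b : ι → ZMod (p ^ k)) i =>
        PadicInt.toZModPow k (T (lft p b) i) := fun b b' hb => by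
      have := (norm_le_iff k _ _).1 (hT _ _ ▸ (norm_le_iff k _ _).2 (congrFun hb))
      ext i
      simpa only [toZModPow_lft] using this i
    rw [← (Finite.injective_iff_bijective.1 hi).sum_comp fun b => Θ (lft p b)]
    exact sum_congr rfl fun b _ => hk _ _ fun i => by rw [toZModPow_lft]
  · classical
    obtain ⟨k, hk⟩ := unif h
    have hk := hk k le_rfl
    rw [MP_eq hk, MP_eq (k := k) fun z z' hz => hk _ _ fun i => hz (e i), Fintype.card_congr e]
    congr 1
    exact Fintype.sum_equiv (Equiv.arrowCongr e.symm (Equiv.refl _)) _ _ fun b => rfl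
  · classical
    have e : ∀ z : ι → ℤ_[p], ind p m (MvPolynomial.aeval (fun i => (z i : ℚ_[p])) f) =
        if MvPolynomial.aeval (fun i => PadicInt.toZModPow m (z i)) f = 0 then 1 else 0 := by
      intro z
      have : ((MvPolynomial.aeval z f : ℤ_[p]) : ℚ_[p]) =
          MvPolynomial.aeval (fun i => (z i : ℚ_[p])) f :=
        map_aeval (PadicInt.Coe.ringHom (p := p)) z f
      rw [ind, ← this, ← map_aeval]
      exact if_congr (norm_le m _) rfl rfl
    simp only [e]
    rw [MP_eq (k := m) fun z z' hz => by simp only [hz], cnt, mul_comm]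
    simp only [toZModPow_lft, sum_boole, Nat.card_eq_fintype_card, Fintype.card_subtype]
  · classical
    have ha0 : 0 < ‖a‖ := ha ▸ zpow_pos (by positivity) _
    by_cases ht : ‖t‖ ≤ (p : ℝ) ^ (-(e : ℤ))
    · obtain ⟨k, rfl⟩ := Nat.exists_eq_add_of_le hem
      let s : ℤ_[p] := ⟨t / a, by rwa [norm_div, div_le_one ha0, ha]⟩
      have e1 : ∀ z : ι → ℤ_[p], ind p (e + k) (t + a * (z i : ℚ_[p])) =
          if PadicInt.toZModPow k (z i) = -PadicInt.toZModPow k s then 1 else 0 := by
        intro z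
        have : t + a * (z i : ℚ_[p]) = a * ((z i + s : ℤ_[p]) : ℚ_[p]) := by
          have := norm_pos_iff.1 ha0
          rw [PadicInt.coe_add, show (s : ℚ_[p]) = t / a from rfl]
          field_simp
          ring
        refine if_congr ?_ rfl rfl
        rw [this, norm_mul, ha, Nat.cast_add, neg_add, zpow_add₀ (by positivity),
          mul_le_mul_iff_right₀ (by positivity), norm_le, map_add, add_eq_zero_iff_eq_neg]
      simp only [e1]
      rw [MP_eq (k := k) fun z z' hz => by simp only [hz]]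
      simp only [toZModPow_lft]
      rw [sum_coord, ind, if_pos ht, ← Fintype.card_congr (Equiv.optionSubtypeNe i),
        Fintype.card_option, ZMod.card, Nat.add_sub_cancel_left]
      simp only [Nat.cast_pow, inv_pow]
      field_simp
      ring
    · have e1 : ∀ z : ι → ℤ_[p], ind p m (t + a * (z i : ℚ_[p])) = 0 := fun z => by
        refine if_neg fun h => ht ?_
        have h1 : ‖a * (z i : ℚ_[p])‖ ≤ (p : ℝ) ^ (-(e : ℤ)) := by
          rw [norm_mul, ← ha]
          exact mul_le_of_le_one_right ha0.le (z i).2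
        have h2 := h.trans (zpow_le_zpow_right₀ hp1.le (by omega : -(m : ℤ) ≤ -(e : ℤ)))
        have h3 := Padic.nonarchimedean (t + a * (z i : ℚ_[p])) (-(a * (z i : ℚ_[p])))
        rw [add_neg_cancel_right, norm_neg] at h3
        exact h3.trans (max_le h2 h1)
      simp only [e1]
      rw [MP_const, ind, if_neg ht, mul_zero]

end Pool.Agent.MP_5d9b3c_ag.H69
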