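import Pool.Agent.MP_5d9b3c_ag.H69.Basic

namespace Pool.Agent.MP_5d9b3c_ag.H69

open Finset

variable {p : ℕ} [hp : Fact p.Prime]

namespace MBAux

variable {ι κ : Type} [Fintype ι] [Fintype κ]

omit [Fintype ι] in
lemma inner [DecidableEq κ] {Θ : (ι ⊕ κ → ℤ_[p]) → ℂ} {k : ℕ} (h : ∀ z z' : ι ⊕ κ → ℤ_[p],
    (∀ i, PadicInt.toZModPow k (z i) = PadicInt.toZModPow k (z' i)) → Θ z = Θ z') (x : ι → ℤ_[p]) :
    MP p (fun y : κ → ℤ_[p] => Θ (Sum.elim x y)) = (((p : ℂ) ^ Fintype.card κ)⁻¹) ^ k *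
      ∑ b : κ → ZMod (p ^ k), Θ (Sum.elim x (lft p b)) :=
  MP_eq fun y y' hy => h _ _ (by rintro (i | i); exacts [rfl, hy i])

lemma prod {Θ : (ι ⊕ κ → ℤ_[p]) → ℂ} (h : IsLocallyConstant Θ) :
    MP p Θ = MP p (fun x : ι → ℤ_[p] => MP p (fun y : κ → ℤ_[p] => Θ (Sum.elim x y))) := by
  classical
  obtain ⟨k, hk⟩ := unif h
  have hk := hk k le_rfl
  simp only [inner hk]
  rw [MP_eq hk, MP_eq (k := k) fun x x' hx => by
    refine congrArg _ (sum_congr rfl fun b _ => hk _ _ ?_)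
    rintro (i | i)
    exacts [hx i, rfl]]
  rw [← mul_sum, ← mul_assoc, ← mul_pow, ← mul_inv, ← pow_add, Fintype.card_sum,
    ← Fintype.sum_prod_type']
  refine congrArg _ (Fintype.sum_equiv (Equiv.sumArrowEquivProdArrow _ _ _) _ _ fun b => ?_)
  refine congrArg _ (funext ?_)
  rintro (i | i) <;> rfl

lemma lc_prod {Θ : (ι ⊕ κ → ℤ_[p]) → ℂ} (h : IsLocallyConstant Θ) :
    IsLocallyConstant (fun x : ι → ℤ_[p] => MP p (fun y : κ → ℤ_[p] => Θ (Sum.elim x y))) := by
  classical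
  obtain ⟨k, hk⟩ := unif h
  simp only [inner (hk k le_rfl)]
  refine (IsLocallyConstant.iff_eventually_eq _).2 fun x => ?_
  have : ∀ᶠ y in nhds x, ∀ b : κ → ZMod (p ^ k),
      Θ (Sum.elim y (lft p b)) = Θ (Sum.elim x (lft p b)) :=
    Filter.eventually_all.2 fun b => (h.comp_continuous (f := fun y => Sum.elim y (lft p b))
      (continuous_pi (by rintro (i | i); exacts [continuous_apply i, continuous_const]))).eventually_eq x
  filter_upwards [this] with y hy
  simp only [hy]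

lemma swap (hA : MA p) {H : (ι → ℤ_[p]) → (κ → ℤ_[p]) → ℂ}
    (h : IsLocallyConstant fun z : ι ⊕ κ → ℤ_[p] => H (fun i => z (.inl i)) (fun i => z (.inr i))) :
    MP p (fun x => MP p (fun y => H x y)) = MP p (fun y => MP p (fun x => H x y)) := by
  have h1 := prod h
  have h2 := prod (Θ := fun z : κ ⊕ ι → ℤ_[p] => H (fun i => z (.inr i)) (fun i => z (.inl i)))
    (h.comp_continuous (f := fun (z : κ ⊕ ι → ℤ_[p]) i => z (Equiv.sumComm ι κ i))
      (continuous_pi fun i => continuous_apply _))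
  exact h1.symm.trans ((hA.reindex _ _ (Equiv.sumComm ι κ) _ h).symm.trans h2)

lemma trans (hA : MA p) {Θ : (ι → ℤ_[p]) → ℂ} (h : IsLocallyConstant Θ) (u : ι → ℤ_[p]) :
    MP p (fun z => Θ (z + u)) = MP p Θ :=
  hA.iso ι Θ (fun z => z + u) h fun z z' => by rw [add_sub_add_right_eq_sub]

end MBAux

open MBAux

theorem mB (hA : MA p) : MB p := by
  refine ⟨fun _ _ _ _ _ => prod, fun _ _ _ _ _ => lc_prod, fun ι _ _ A B e Θ h hAB => ?_⟩
  have cA : Continuous fun z : ι → ℤ_[p] => A.mulVec z := continuous_const.matrix_mulVec continuous_id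
  have h1 : ∀ w : ι → ℤ_[p], MP p (fun z => Θ (A.mulVec z + (p : ℤ_[p]) ^ e • w))
      = MP p (fun z => Θ (A.mulVec z)) := fun w => by
    rw [← trans hA (Θ := fun z => Θ (A.mulVec z)) (h.comp_continuous cA) (B.mulVec w)]
    simp only [Matrix.mulVec_add, Matrix.mulVec_mulVec, hAB, Matrix.smul_mulVec,
      Matrix.one_mulVec]
  rw [← MP_const (p := p) (ι := ι) (MP p fun z => Θ (A.mulVec z))]
  conv_lhs => enter [2, w]; rw [← h1 w]
  rw [swap hA (H := fun w z => Θ (A.mulVec z + (p : ℤ_[p]) ^ e • w)) (h.comp_continuous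
    (f := fun z : ι ⊕ ι → ℤ_[p] => A.mulVec (fun i => z (.inr i))
      + (p : ℤ_[p]) ^ e • fun i => z (.inl i))
    ((cA.comp (continuous_pi fun i => continuous_apply (Sum.inr i))).add
      ((continuous_pi fun i => continuous_apply (Sum.inl i)).const_smul ((p : ℤ_[p]) ^ e))))]
  refine MP_eq fun z z' hz => ?_
  have : ∀ i, ∃ u, z i = z' i + (p : ℤ_[p]) ^ e * u := fun i => by
    have := hz i
    rw [← sub_eq_zero, ← map_sub, ← RingHom.mem_ker, PadicInt.ker_toZModPow,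
      Ideal.mem_span_singleton] at this
    obtain ⟨u, hu⟩ := this
    exact ⟨u, by rw [← hu, add_sub_cancel]⟩
  choose u hu using this
  have hz' : z = z' + (p : ℤ_[p]) ^ e • u := funext hu
  rw [← trans hA (Θ := fun w => Θ (A.mulVec z' + (p : ℤ_[p]) ^ e • w))
    (h.comp_continuous (continuous_const.add (continuous_const_smul _))) (A.mulVec u), hz']
  simp only [Matrix.mulVec_add, Matrix.mulVec_smul, smul_add, add_comm, add_left_comm]

end Pool.Agent.MP_5d9b3c_ag.H69
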