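import Pool.Agent.MP_5d9b3c_ag.H69.Basic

/-!
Compactness, units, coordinate functions, decay of the counts and poles in the unit disc.
-/

namespace Pool.Agent.MP_5d9b3c_ag.H69

open Finset Filter

namespace PT

theorem unif_mono {X : Type} [TopologicalSpace X] [CompactSpace X] (U : ℕ → Set X)
    (ho : ∀ m, IsOpen (U m)) (hm : Monotone U) (hc : ∀ x, ∃ m, x ∈ U m) : ∃ m, ∀ x, x ∈ U m := by
  obtain ⟨m, h⟩ := isCompact_univ.elim_directed_cover U ho
    (fun x _ => Set.mem_iUnion.2 (hc x)) hm.directed_le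
  exact ⟨m, fun x => h (Set.mem_univ x)⟩

theorem lc_sum {X α : Type} [TopologicalSpace X] (s : Finset α) {f : α → X → ℂ}
    (h : ∀ a, IsLocallyConstant (f a)) : IsLocallyConstant fun x => ∑ a ∈ s, f a x := by
  classical
  induction s using Finset.induction_on with
  | empty =>
    simp only [Finset.sum_empty]
    exact IsLocallyConstant.const (0 : ℂ)
  | insert a s ha ih =>
    simp only [Finset.sum_insert ha]
    exact (h a).add ih

variable {p : ℕ} [hp : Fact p.Prime] {ι : Type} [Fintype ι]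

theorem p_pos : (0 : ℝ) < p := by exact_mod_cast hp.out.pos

theorem pow_anti {K K' : ℕ} (h : K ≤ K') : (p : ℝ) ^ (-(K' : ℤ)) ≤ (p : ℝ) ^ (-(K : ℤ)) :=
  zpow_le_zpow_right₀ (by exact_mod_cast hp.out.one_le) (by omega)

omit [Fintype ι] in
theorem lc_coset {G : (ι → ℚ_[p]) → ℚ_[p]} (hG : Continuous G) (d : ι → ℚ_[p]) (K m : ℕ) :
    IsLocallyConstant fun z : ι → ℤ_[p] =>
      ind p m (G fun i => d i + (p : ℚ_[p]) ^ K * (z i : ℚ_[p])) :=
  lc_ind (hG.comp (continuous_pi fun i => continuous_const.add (continuous_const.mul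
    (continuous_subtype_val.comp (continuous_apply i))))) m

theorem norm_coset (K : ℕ) (z : ι → ℤ_[p]) :
    ‖fun i => (p : ℚ_[p]) ^ K * (z i : ℚ_[p])‖ ≤ (p : ℝ) ^ (-(K : ℤ)) := by
  refine (pi_norm_le_iff_of_nonneg (zpow_pos p_pos _).le).2 fun i => ?_
  rw [norm_mul, Padic.norm_p_pow]
  exact mul_le_of_le_one_right (zpow_pos p_pos _).le (z i).2

theorem near_pt {c c' : ι → ℚ_[p]} {K0 K : ℕ} (h : ‖c' - c‖ ≤ (p : ℝ) ^ (-(K0 : ℤ)))
    (hK : K0 ≤ K) (z : ι → ℤ_[p]) :
    ‖(fun i => c' i + (p : ℚ_[p]) ^ K * (z i : ℚ_[p])) - c‖ ≤ (p : ℝ) ^ (-(K0 : ℤ)) := by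
  have e : (fun i => c' i + (p : ℚ_[p]) ^ K * (z i : ℚ_[p])) - c =
      (c' - c) + fun i => (p : ℚ_[p]) ^ K * (z i : ℚ_[p]) := by
    funext i
    simp only [Pi.sub_apply, Pi.add_apply]
    ring
  rw [e]
  exact (IsUltrametricDist.norm_add_le_max _ _).trans
    (max_le h ((norm_coset K z).trans (pow_anti hK)))

/-- The norm of a continuous function is locally constant where it does not vanish. -/
theorem loc_norm {U : (ι → ℚ_[p]) → ℚ_[p]} {c : ι → ℚ_[p]} (hU : Continuous U) (h : U c ≠ 0) :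
    ∃ K0 : ℕ, ∀ x, ‖x - c‖ ≤ (p : ℝ) ^ (-(K0 : ℤ)) → ‖U x‖ = ‖U c‖ := by
  obtain ⟨δ, hδ, h1⟩ := Metric.continuousAt_iff.1 (hU.continuousAt (x := c)) _ (norm_pos_iff.2 h)
  obtain ⟨K0, hK⟩ := PadicInt.exists_pow_neg_lt p hδ
  refine ⟨K0, fun x hx => Padic.norm_eq_of_norm_sub_lt_right ?_⟩
  rw [← dist_eq_norm] at hx ⊢
  exact h1 (hx.trans_lt hK)

/-- The property of a coset does not depend on the chosen centre. -/
theorem near (hA : MA p) {l : ℝ} {G : (ι → ℚ_[p]) → ℚ_[p]} (hG : Continuous G)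
    {d d' : ι → ℚ_[p]} {K : ℕ} (h : ‖d' - d‖ ≤ (p : ℝ) ^ (-(K : ℤ))) (H : GC p l G d K) :
    GC p l G d' K := by
  have hp0 : (p : ℚ_[p]) ^ K ≠ 0 := pow_ne_zero _ (by exact_mod_cast hp.out.ne_zero)
  have h1 : ∀ i, ‖(d' i - d i) / (p : ℚ_[p]) ^ K‖ ≤ 1 := fun i => by
    rw [norm_div, Padic.norm_p_pow, div_le_one (zpow_pos p_pos _)]
    exact (norm_le_pi_norm (d' - d) i).trans h
  obtain ⟨w, hw⟩ : ∃ w : ι → ℤ_[p], ∀ i, (w i : ℚ_[p]) = (d' i - d i) / (p : ℚ_[p]) ^ K :=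
    ⟨fun i => ⟨_, h1 i⟩, fun _ => rfl⟩
  refine H.eventually 0 fun m _ => ?_
  rw [← hA.iso ι _ (fun z => w + z) (lc_coset hG d K m) fun z z' => by
    rw [add_sub_add_left_eq_sub]]
  refine congrArg (MP p) (funext fun z => congrArg (fun x => ind p m (G x)) (funext fun i => ?_))
  rw [Pi.add_apply, PadicInt.coe_add, hw, mul_add, mul_div_cancel₀ _ hp0]
  ring

/-- A coset is the union of the cosets of the next level. -/
theorem down (hB : MB p) {l : ℝ} {G : (ι → ℚ_[p]) → ℚ_[p]} (hG : Continuous G)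
    {d : ι → ℚ_[p]} {K : ℕ}
    (H : ∀ b : ι → ℤ_[p], GC p l G (fun i => d i + (p : ℚ_[p]) ^ K * (b i : ℚ_[p])) (K + 1)) :
    GC p l G d K := by
  classical
  refine ((H48N.Good.sum (univ : Finset (ι → ZMod (p ^ 1))) fun b _ => H (lft p b)).const_mul
    ((((p : ℂ) ^ Fintype.card ι)⁻¹) ^ 1)).eventually 0 fun m _ => ?_
  have h := hB.lattice ι 1 ((p : ℤ_[p]) ^ 1 • (1 : Matrix ι ι ℤ_[p])) 1 _ (lc_coset hG d K m)
    (by rw [one_mul])
  simp only [Matrix.one_mulVec] at h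
  rw [h]
  refine congrArg _ (Finset.sum_congr rfl fun b _ => ?_)
  refine congrArg (MP p) (funext fun z => congrArg (fun x => ind p m (G x)) (funext fun i => ?_))
  simp only [Pi.add_apply, Pi.smul_apply, smul_eq_mul, PadicInt.coe_add, PadicInt.coe_mul,
    PadicInt.coe_pow, PadicInt.coe_natCast]
  ring

theorem ind_mul {u : ℚ_[p]} {v : ℤ} (hu : ‖u‖ = (p : ℝ) ^ (-v)) {m m' : ℕ}
    (h : (m : ℤ) = m' + v) (t : ℚ_[p]) : ind p m (u * t) = ind p m' t := by
  have e : (p : ℝ) ^ (-(m : ℤ)) = (p : ℝ) ^ (-v) * (p : ℝ) ^ (-(m' : ℤ)) := by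
    rw [← zpow_add₀ p_pos.ne', h]
    congr 1
    ring
  have h1 : ‖u * t‖ ≤ (p : ℝ) ^ (-(m : ℤ)) ↔ ‖t‖ ≤ (p : ℝ) ^ (-(m' : ℤ)) := by
    rw [norm_mul, hu, e]
    exact mul_le_mul_iff_right₀ (zpow_pos p_pos _)
  by_cases h2 : ‖t‖ ≤ (p : ℝ) ^ (-(m' : ℤ))
  · rw [ind, ind, if_pos h2, if_pos (h1.2 h2)]
  · rw [ind, ind, if_neg h2, if_neg (mt h1.1 h2)]

/-- Few zeros in a translated grid. -/
theorem grid {n : ℕ} {f : MvPolynomial (Fin n) ℤ} (hf : f ≠ 0) :
    ∃ D : ℕ, ∀ N : ℕ, 0 < N → ∀ (z : Fin n → ℚ_[p]) (A : Finset (Fin n → Fin N)),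
      (∀ s ∈ A, MvPolynomial.aeval (fun i => z i + ((s i).val : ℚ_[p])) f = 0) →
      A.card * N ≤ D * N ^ n := by
  classical
  have hF : MvPolynomial.map (algebraMap ℤ ℚ_[p]) f ≠ 0 := fun h =>
    hf (MvPolynomial.map_injective _ (algebraMap ℤ ℚ_[p]).injective_int (by rw [h, map_zero]))
  refine ⟨∑ i, (MvPolynomial.map (algebraMap ℤ ℚ_[p]) f).degreeOf i, fun N hN z A hA => ?_⟩
  have hi : ∀ i, Function.Injective fun j : Fin N => z i + (j.val : ℚ_[p]) := fun i j j' h =>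
    Fin.ext (by exact_mod_cast add_left_cancel h)
  have h := MvPolynomial.schwartz_zippel_sum_degreeOf hF
    fun i => univ.image fun j : Fin N => z i + (j.val : ℚ_[p])
  have hc : ∀ i, (univ.image fun j : Fin N => z i + (j.val : ℚ_[p])).card = N := fun i => by
    rw [Finset.card_image_of_injective _ (hi i), Finset.card_univ, Fintype.card_fin]
  simp only [hc, Finset.prod_const, Finset.card_univ, Fintype.card_fin] at h
  have hN' : (0 : ℚ≥0) < N := by exact_mod_cast hN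
  rw [← Finset.sum_div, div_le_div_iff₀ (by positivity) hN'] at h
  refine le_trans (Nat.mul_le_mul_right N ?_) (by exact_mod_cast h)
  refine Finset.card_le_card_of_injOn (fun s i => z i + ((s i).val : ℚ_[p])) (fun s hs => ?_)
    fun s _ s' _ e => funext fun i => hi i (congrFun e i)
  refine Finset.mem_coe.2 (Finset.mem_filter.2 ⟨Fintype.mem_piFinset.2 fun i =>
    Finset.mem_image_of_mem _ (Finset.mem_univ _), ?_⟩)
  rw [MvPolynomial.eval_map, ← MvPolynomial.aeval_def]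
  exact hA s hs

theorem cont_aeval {n : ℕ} (f : MvPolynomial (Fin n) ℤ) :
    Continuous fun z : Fin n → ℤ_[p] => MvPolynomial.aeval (fun i => (z i : ℚ_[p])) f := by
  induction f using MvPolynomial.induction_on with
  | C a => simpa using continuous_const
  | add a b ha hb =>
    simp only [map_add]
    exact ha.add hb
  | mul_X a j ha =>
    simp only [map_mul, MvPolynomial.aeval_X]
    exact ha.mul (continuous_subtype_val.comp (continuous_apply j))

theorem tendsto_coeff {s : ℕ → ℂ} (hs : Tendsto s atTop (nhds 0)) (Q : Polynomial ℂ) :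
    Tendsto (fun m => PowerSeries.coeff m ((Q : PowerSeries ℂ) * PowerSeries.mk s)) atTop
      (nhds 0) := by
  induction Q using Polynomial.induction_on with
  | C a => simpa using hs.const_mul a
  | add a b ha hb => simpa [add_mul] using ha.add hb
  | monomial n a h =>
    rw [← tendsto_add_atTop_iff_nat 1]
    refine h.congr fun m => ?_
    rw [pow_succ, ← mul_assoc, mul_comm _ Polynomial.X, Polynomial.coe_mul Polynomial.X,
      Polynomial.coe_X, mul_assoc PowerSeries.X, PowerSeries.coeff_succ_X_mul]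

end PT

open PT

variable {p : ℕ} [hp : Fact p.Prime]

theorem compactS (hA : MA p) (hB : MB p) : CompactStmt p := by
  intro ι _ l G hG h
  have hn : ∀ a a' : ι → ℤ_[p], ‖(fun i => (a' i : ℚ_[p])) - fun i => (a i : ℚ_[p])‖ ≤ ‖a' - a‖ :=
    fun a a' => (pi_norm_le_iff_of_nonneg (norm_nonneg _)).2 fun i => by
      have := norm_le_pi_norm (a' - a) i
      rwa [Pi.sub_apply, PadicInt.norm_def, PadicInt.coe_sub] at this
  obtain ⟨K0, h0⟩ := unif_mono
    (fun K => {a : ι → ℤ_[p] | ∃ K', K' ≤ K ∧ GC p l G (fun i => a i) K'})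
    (fun K => Metric.isOpen_iff.2 fun a ⟨K', h1, h2⟩ => ⟨_, zpow_pos p_pos (-(K' : ℤ)),
      fun a' ha' => ⟨K', h1, near hA hG ((hn a a').trans (mem_ball_iff_norm.1 ha').le) h2⟩⟩)
    (fun K K' hK a ⟨K1, h1, h2⟩ => ⟨K1, h1.trans hK, h2⟩)
    fun a => (h a).imp fun K hK => ⟨K, le_rfl, hK⟩
  have key : ∀ K : ℕ, (∀ a : ι → ℤ_[p], ∃ K', K' ≤ K ∧ GC p l G (fun i => a i) K') →
      ∀ a : ι → ℤ_[p], GC p l G (fun i => a i) 0 := by
    intro K
    induction K with
    | zero => exact fun H a => by obtain ⟨K', h1, h2⟩ := H a; rwa [Nat.le_zero.1 h1] at h2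
    | succ K ih =>
      refine fun H => ih fun a => ?_
      by_contra hc
      refine hc ⟨K, le_rfl, down hB hG fun b => ?_⟩
      obtain ⟨K', h1, h2⟩ := H fun i => a i + (p : ℤ_[p]) ^ K * b i
      simp only [PadicInt.coe_add, PadicInt.coe_mul, PadicInt.coe_pow, PadicInt.coe_natCast] at h2
      rcases h1.eq_or_lt with rfl | h3
      · exact h2
      · refine absurd ⟨K', by omega, near hA hG ?_ h2⟩ hc
        rw [norm_sub_rev]
        exact near_pt (by rw [sub_self, norm_zero]; exact (zpow_pos p_pos _).le) (by omega) b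
  exact key K0 h0 0

theorem nonzeroS : NonzeroStmt p := by
  intro ι _ l G a hG ha
  obtain ⟨K0, h0⟩ := loc_norm hG ha
  obtain ⟨N, hN⟩ := PadicInt.exists_pow_neg_lt p (norm_pos_iff.2 ha)
  refine ⟨K0, fun K hK c' hc => H48N.Good.of_finite N fun m hm => ?_⟩
  refine Eq.trans (congrArg (MP p) (funext fun z => ?_)) (MP_const 0)
  rw [ind, if_neg]
  rw [h0 _ (near_pt hc hK z)]
  exact not_le.2 ((pow_anti hm).trans_lt hN)

theorem unitS : UnitStmt p := by
  intro ι _ l U G c hU hc ⟨K1, h1⟩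
  obtain ⟨K0, h0⟩ := loc_norm hU hc
  refine ⟨max K0 K1, fun K hK c' hc' => ?_⟩
  have h2 := h1 K ((le_max_right _ _).trans hK) c' (hc'.trans (pow_anti (le_max_right _ _)))
  have h3 : ∀ z : ι → ℤ_[p], ‖U fun i => c' i + (p : ℚ_[p]) ^ K * (z i : ℚ_[p])‖ =
      (p : ℝ) ^ (-(U c).valuation) := fun z => by
    rw [h0 _ ((near_pt hc' hK z).trans (pow_anti (le_max_left _ _))),
      Padic.norm_eq_zpow_neg_valuation hc]
  obtain ⟨v, hv | hv⟩ := Int.eq_nat_or_neg (U c).valuation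
  · refine (good_tail hp.out.pos h2 v).eventually 0 fun m _ => ?_
    exact congrArg (MP p) (funext fun z => (ind_mul (h3 z) (by rw [hv]; push_cast; ring) _).symm)
  · refine good_of_tail v (h2.eventually 0 fun m _ => ?_)
    exact congrArg (MP p) (funext fun z => (ind_mul (h3 z) (by rw [hv]; push_cast; ring) _).symm)

theorem linS (hA : MA p) : LinStmt p := by
  intro ι _ l i c hl
  refine ⟨0, fun K _ c' _ => good_of_tail K
    ((good_geom hp.out.one_lt hl (ind p K (c' i))).eventually 0 fun m _ => ?_)⟩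
  rw [hA.one ι i (c' i) _ K (m + K) (Padic.norm_p_pow K) (by omega), Nat.add_sub_cancel]

theorem decayS (hA : MA p) : DecayStmt p := by
  classical
  intro n f hf
  obtain ⟨D, hD⟩ := grid (p := p) hf
  refine Metric.tendsto_atTop.2 fun ε hε => ?_
  obtain ⟨N, hN⟩ := exists_nat_gt (D / ε)
  have hN0 : (0 : ℝ) < N := lt_of_le_of_lt (by positivity) hN
  have lc : ∀ (m : ℕ) (s : Fin n → Fin N), IsLocallyConstant fun z : Fin n → ℤ_[p] =>
      ind p m (MvPolynomial.aeval (fun i => (z i : ℚ_[p]) + ((s i).val : ℚ_[p])) f) := fun m s =>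
    lc_ind ((cont_aeval f).comp (continuous_id.add
      (continuous_const (y := fun i => ((s i).val : ℤ_[p]))))) m
  obtain ⟨c, hc⟩ : ∃ c : ℕ → (Fin n → ℤ_[p]) → Finset (Fin n → Fin N), ∀ m z s, s ∈ c m z ↔
      ‖MvPolynomial.aeval (fun i => (z i : ℚ_[p]) + ((s i).val : ℚ_[p])) f‖ ≤
        (p : ℝ) ^ (-(m : ℤ)) :=
    ⟨fun m z => univ.filter fun s => ‖MvPolynomial.aeval
      (fun i => (z i : ℚ_[p]) + ((s i).val : ℚ_[p])) f‖ ≤ (p : ℝ) ^ (-(m : ℤ)), by simp⟩
  have h1 : ∀ m z, ‖∑ s : Fin n → Fin N, ind p m (MvPolynomial.aeval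
      (fun i => (z i : ℚ_[p]) + ((s i).val : ℚ_[p])) f)‖ = (c m z).card := by
    intro m z
    unfold ind
    rw [← Finset.sum_subset (Finset.subset_univ (c m z)) fun s _ hs => if_neg (mt (hc m z s).2 hs),
      Finset.sum_congr rfl fun s hs => if_pos ((hc m z s).1 hs)]
    simp
  have hmono : Monotone fun m => {z | ((c m z).card : ℝ) ≤ D / N * (N : ℝ) ^ n} :=
    fun m m' hm z hz => le_trans (a := ((c m' z).card : ℝ)) (Nat.cast_le.2 (Finset.card_le_card
      fun s hs => (hc m z s).2 (((hc m' z s).1 hs).trans (pow_anti hm)))) hz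
  obtain ⟨m0, h0⟩ := unif_mono (fun m => {z | ((c m z).card : ℝ) ≤ D / N * (N : ℝ) ^ n})
    (fun m => by
      simp only [← h1]
      exact lc_sum univ (lc m) {t | ‖t‖ ≤ D / N * (N : ℝ) ^ n})
    hmono (fun z => by
      have h2 : ∀ s : Fin n → Fin N, ∀ᶠ m in atTop, s ∈ c m z →
          MvPolynomial.aeval (fun i => (z i : ℚ_[p]) + ((s i).val : ℚ_[p])) f = 0 := by
        intro s
        by_cases h3 : MvPolynomial.aeval (fun i => (z i : ℚ_[p]) + ((s i).val : ℚ_[p])) f = 0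
        · exact Eventually.of_forall fun _ _ => h3
        · obtain ⟨k, hk⟩ := PadicInt.exists_pow_neg_lt p (norm_pos_iff.2 h3)
          exact eventually_atTop.2 ⟨k, fun m hm hs =>
            absurd ((hc m z s).1 hs) (not_le.2 ((pow_anti hm).trans_lt hk))⟩
      obtain ⟨m, hm⟩ := (eventually_all.2 h2).exists
      refine ⟨m, ?_⟩
      have h3 : ((c m z).card : ℝ) * N ≤ D * (N : ℝ) ^ n := by
        exact_mod_cast hD N (by exact_mod_cast hN0) _ (c m z) hm
      rw [Set.mem_ofPred_eq, div_mul_eq_mul_div, le_div_iff₀ hN0]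
      exact h3)
  refine ⟨m0, fun m hm => ?_⟩
  have h2 := MP_norm_le (lc_sum univ (lc m)) fun z => (h1 m z).le.trans (hmono hm (h0 z))
  have h3 : ∀ s : Fin n → Fin N, MP p (fun z : Fin n → ℤ_[p] => ind p m
      (MvPolynomial.aeval (fun i => (z i : ℚ_[p]) + ((s i).val : ℚ_[p])) f)) = cnt p f m := by
    intro s
    rw [← hA.count]
    exact hA.iso (Fin n) _ (fun z => z + fun i => ((s i).val : ℤ_[p]))
      (lc_ind (cont_aeval f) m) fun z z' => by rw [add_sub_add_right_eq_sub]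
  rw [MP_sum _ fun s _ => lc m s, Finset.sum_congr rfl fun s _ => h3 s, Finset.sum_const,
    Finset.card_univ, Fintype.card_fun, Fintype.card_fin, Fintype.card_fin, nsmul_eq_mul,
    norm_mul, Complex.norm_natCast, Nat.cast_pow, mul_comm] at h2
  rw [dist_zero_right]
  refine (le_of_mul_le_mul_right h2 (by positivity)).trans_lt ?_
  rw [div_lt_iff₀ hε] at hN
  rw [div_lt_iff₀ hN0]
  linarith

theorem noPole : NoPoleStmt := by
  intro s A B T hs hAB h hT
  by_contra hc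
  have hT1 : ‖T‖ ≤ 1 := not_lt.1 hc
  obtain ⟨Q, rfl⟩ := Polynomial.dvd_iff_isRoot.2 hT
  obtain ⟨S, hS⟩ : ∃ S, S = (Q : PowerSeries ℂ) * PowerSeries.mk s := ⟨_, rfl⟩
  have h1 := tendsto_coeff hs Q
  rw [Polynomial.coe_mul, mul_assoc, ← hS] at h
  rw [← hS] at h1
  have h2 : ∀ m, A.natDegree ≤ m → PowerSeries.coeff m S = T * PowerSeries.coeff (m + 1) S := by
    intro m hm
    have h3 := congrArg (PowerSeries.coeff (m + 1)) h
    rw [Polynomial.coeff_coe, Polynomial.coeff_eq_zero_of_natDegree_lt (by omega),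
      Polynomial.coe_sub, Polynomial.coe_X, Polynomial.coe_C, sub_mul, map_sub,
      PowerSeries.coeff_succ_X_mul, PowerSeries.coeff_C_mul] at h3
    exact sub_eq_zero.1 h3
  have h3 : ∀ m, A.natDegree ≤ m → PowerSeries.coeff m S = 0 := by
    intro m hm
    have h4 : ∀ k, m ≤ k → ‖PowerSeries.coeff m S‖ ≤ ‖PowerSeries.coeff k S‖ := by
      intro k hk
      induction k, hk using Nat.le_induction with
      | base => exact le_rfl
      | succ k hk ih =>
        refine ih.trans ?_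
        rw [h2 k (hm.trans hk), norm_mul]
        exact mul_le_of_le_one_left (norm_nonneg _) hT1
    have h5 := h1.norm
    rw [norm_zero] at h5
    exact norm_le_zero_iff.1 (ge_of_tendsto h5 (eventually_atTop.2 ⟨m, h4⟩))
  have h4 : S = (PowerSeries.trunc A.natDegree S : Polynomial ℂ) := by
    ext m
    rw [Polynomial.coeff_coe, PowerSeries.coeff_trunc]
    split_ifs with h5
    · rfl
    · exact h3 m (not_lt.1 h5)
  rw [h4, ← Polynomial.coe_mul, Polynomial.coe_inj] at h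
  obtain ⟨a, b, hab⟩ := hAB
  have h5 := congrArg (Polynomial.eval T) hab
  rw [← h] at h5
  simp at h5

end Pool.Agent.MP_5d9b3c_ag.H69
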