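import Pool.Agent.MP_5d9b3c_ag.H69.Spec

/-!
Basic facts on closed modules, on series without poles and on mean values.
-/

namespace Pool.Agent.MP_5d9b3c_ag.H69

open Finset

section D

variable {K R : Type} [Field K] [CommRing R] [Algebra K R] {𝒱 𝒱' : Set (Derivation K R R)}
  {g q : ℕ → R} {S : Submodule R (ℕ → R)}

lemma Cl.le (hS : Closed 𝒱 S) (hg : g ∈ S) : Cl 𝒱 g ≤ S := sInf_le ⟨hS, hg⟩

lemma Cl.self : g ∈ Cl 𝒱 g := Submodule.mem_sInf.2 fun _ h => h.2

lemma Cl.closed : Closed 𝒱 (Cl 𝒱 g) :=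
  ⟨fun V hV q hq => Submodule.mem_sInf.2 fun S h =>
      h.1.der V hV q (Submodule.mem_sInf.1 hq S h),
    fun q hq => Submodule.mem_sInf.2 fun S h => h.1.par q (Submodule.mem_sInf.1 hq S h)⟩

lemma Cl.mono (h : 𝒱 ⊆ 𝒱') : Cl 𝒱 g ≤ Cl 𝒱' g :=
  Cl.le ⟨fun V hV => Cl.closed.der V (h hV), Cl.closed.par⟩ Cl.self

lemma mul_mem (r : R) (hq : q ∈ S) : (fun m => r * q m) ∈ S := S.smul_mem r hq

lemma ksmul_mem (r : K) (hq : q ∈ S) : (fun m => r • q m) ∈ S := by
  simpa only [Algebra.smul_def] using mul_mem (algebraMap K R r) hq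

/-- Closed modules are stable under polynomials in the parameter. -/
lemma Closed.poly (hS : Closed 𝒱 S) (w : Polynomial K) (hq : q ∈ S) :
    (fun m : ℕ => w.eval (m : K) • q m) ∈ S := by
  induction w using Polynomial.induction_on with
  | C a => simpa using ksmul_mem a hq
  | add a b ha hb =>
    simp only [Polynomial.eval_add, add_smul]
    exact S.add_mem ha hb
  | monomial n a h =>
    have := hS.par _ h
    convert this using 2 with m
    simp only [Polynomial.eval_mul, Polynomial.eval_C, Polynomial.eval_pow, Polynomial.eval_X,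
      Algebra.smul_def, map_mul, map_pow, map_natCast]
    ring

lemma LB.mul {F h : R} {b : Polynomial K} (H : LB 𝒱 F h b) (r : R) : LB 𝒱 F (r * h) b := by
  have := mul_mem r H
  unfold LB
  convert this using 2 with m
  rw [mul_smul_comm, mul_assoc]

lemma LB.mono {F h : R} {b : Polynomial K} (H : LB 𝒱 F h b) (h' : 𝒱 ⊆ 𝒱') : LB 𝒱' F h b :=
  Cl.mono h' H

end D

section MvD

variable {K ι : Type} [Field K] [Fintype ι]

open MvPolynomial in
/-- The expansion of a derivation of a polynomial ring. -/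
lemma der_eq_sum (V : Derivation K (MvPolynomial ι K) (MvPolynomial ι K)) (g : MvPolynomial ι K) :
    V g = ∑ i, V (X i) * pderiv i g := by
  classical
  induction g using MvPolynomial.induction_on with
  | C a => simp
  | add a b ha hb => simp only [map_add, ha, hb, mul_add, sum_add_distrib]
  | mul_X a j ha =>
    simp only [Derivation.leibniz, smul_eq_mul, ha, pderiv_X, mul_add, sum_add_distrib, mul_sum]
    congr 1
    · rw [sum_eq_single j] <;> simp +contextual [mul_comm, eq_comm]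
    · exact sum_congr rfl (fun i _ => by ring)

/-- It is enough to check the coordinate derivations. -/
lemma closed_of_pderiv {S : Submodule (MvPolynomial ι K) (ℕ → MvPolynomial ι K)}
    (h1 : ∀ i, ∀ q ∈ S, (fun m => MvPolynomial.pderiv i (q m)) ∈ S)
    (h2 : ∀ q ∈ S, (fun m : ℕ => (m : MvPolynomial ι K) * q m) ∈ S) :
    Closed (K := K) Set.univ S := by
  refine ⟨fun V _ q hq => ?_, h2⟩
  have := S.sum_mem (t := univ) (fun i _ => mul_mem (V (MvPolynomial.X i)) (h1 i q hq))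
  convert this using 1
  ext1 m
  rw [der_eq_sum, Finset.sum_apply]

end MvD

section Series

open H48N

variable {p : ℕ} {l : ℝ} {s s' : ℕ → ℂ}

lemma good_tail (hp : 0 < p) (h : Good p l s) (v : ℕ) : Good p l (fun m => s (m + v)) := by
  obtain ⟨D, C, h1, h2⟩ := h
  refine ⟨D * Polynomial.X ^ v, C - D * PowerSeries.trunc v (PowerSeries.mk s), ?_, fun T hT => ?_⟩
  · have e := PowerSeries.eq_X_pow_mul_shift_add_trunc v (PowerSeries.mk s)
    simp only [PowerSeries.coeff_mk] at e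
    push_cast
    rw [← h1, ← mul_sub, mul_assoc]
    congr 1
    exact eq_sub_of_add_eq e.symm
  · rw [Polynomial.eval_mul, Polynomial.eval_pow, Polynomial.eval_X]
    refine mul_ne_zero (h2 T hT) (pow_ne_zero _ ?_)
    rw [← norm_pos_iff, hT]
    positivity

lemma good_of_tail (v : ℕ) (h : Good p l (fun m => s (m + v))) : Good p l s := by
  obtain ⟨D, C, h1, h2⟩ := h
  refine ⟨D, Polynomial.X ^ v * C + D * PowerSeries.trunc v (PowerSeries.mk s), ?_, h2⟩
  have e := PowerSeries.eq_X_pow_mul_shift_add_trunc v (PowerSeries.mk s)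
  simp only [PowerSeries.coeff_mk] at e
  push_cast
  rw [← h1]
  conv_lhs => rw [e]
  ring

lemma good_scale (hp : 0 < p) (h : Good p (l + 1) s) : Good p l (fun m => (p : ℂ) ^ m * s m) := by
  obtain ⟨D, C, h1, h2⟩ := h
  refine ⟨D.comp (Polynomial.C (p : ℂ) * Polynomial.X),
    C.comp (Polynomial.C (p : ℂ) * Polynomial.X), ?_, fun T hT => ?_⟩
  · have e : ∀ Q : Polynomial ℂ, ((Q.comp (Polynomial.C (p : ℂ) * Polynomial.X) : Polynomial ℂ) :
        PowerSeries ℂ) = PowerSeries.rescale (p : ℂ) Q := by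
      intro Q
      ext n
      rw [Polynomial.coeff_coe, Polynomial.comp_C_mul_X_coeff, PowerSeries.coeff_rescale,
        Polynomial.coeff_coe, mul_comm]
    rw [e, e, ← h1, map_mul, PowerSeries.rescale_mk]
  · rw [Polynomial.eval_comp]
    refine h2 _ ?_
    have : (0 : ℝ) < p := by exact_mod_cast hp
    simp [hT, Real.rpow_add this, mul_comm]

/-- A series with `s (m + 1) - s m / p` good is good, if `l ≠ 1`. -/
lemma good_of_step (hp : 1 < p) (hl : l ≠ 1)
    (h : Good p l (fun m => s (m + 1) - (p : ℂ)⁻¹ * s m)) : Good p l s := by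
  refine Good.of_shift (p : ℂ)⁻¹ 1 (fun T hT h1 => hl ?_) (good_of_tail 1 (by simpa using h))
  have hp' : (1 : ℝ) < p := by exact_mod_cast hp
  have h2 := congrArg norm h1
  rw [pow_one, norm_mul, norm_inv, Complex.norm_natCast, hT, norm_one,
    inv_mul_eq_one₀ (by positivity)] at h2
  refine (Real.rpow_right_inj (by positivity) hp'.ne').1 ?_
  rw [← h2, Real.rpow_one]

/-- Geometric series of ratio `1 / p`. -/
lemma good_geom (hp : 1 < p) (hl : l ≠ 1) (c : ℂ) : Good p l (fun m => ((p : ℂ)⁻¹) ^ m * c) := by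
  refine good_of_step hp hl ?_
  convert Good.zero (p := p) (l := l) using 2 with m
  ring

end Series

section Mean

variable {p : ℕ} [hp : Fact p.Prime] {ι : Type} [Fintype ι] {Θ Θ' : (ι → ℤ_[p]) → ℂ}

lemma lc_ind {X : Type} [TopologicalSpace X] {G : X → ℚ_[p]} (hG : Continuous G) (m : ℕ) :
    IsLocallyConstant (fun z => ind p m (G z)) := by
  refine IsLocallyConstant.comp_continuous (g := ind p m) ?_ hG
  have h0 : (0 : ℝ) < (p : ℝ) ^ (-(m : ℤ)) := zpow_pos (by exact_mod_cast hp.out.pos) _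
  have hc := IsUltrametricDist.isClopen_closedBall (0 : ℚ_[p]) h0.ne'
  rw [IsLocallyConstant.iff_eventually_eq]
  intro t
  by_cases ht : t ∈ Metric.closedBall (0 : ℚ_[p]) ((p : ℝ) ^ (-(m : ℤ)))
  · filter_upwards [hc.isOpen.mem_nhds ht] with y hy
    rw [mem_closedBall_zero_iff] at ht hy
    rw [ind, ind, if_pos ht, if_pos hy]
  · filter_upwards [hc.compl.isOpen.mem_nhds ht] with y hy
    rw [Set.mem_compl_iff, mem_closedBall_zero_iff] at hy
    rw [mem_closedBall_zero_iff] at ht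
    rw [ind, ind, if_neg ht, if_neg hy]

omit [Fintype ι] in
lemma toZModPow_lft {k : ℕ} (b : ι → ZMod (p ^ k)) (i : ι) :
    PadicInt.toZModPow k (lft p b i) = b i := by
  simp [lft]

lemma norm_le_iff (k : ℕ) (z z' : ι → ℤ_[p]) : ‖z - z'‖ ≤ (p : ℝ) ^ (-(k : ℤ)) ↔
    ∀ i, PadicInt.toZModPow k (z i) = PadicInt.toZModPow k (z' i) := by
  rw [pi_norm_le_iff_of_nonneg (zpow_nonneg (by positivity) _)]
  refine forall_congr' (fun i => ?_)
  rw [Pi.sub_apply, PadicInt.norm_le_pow_iff_mem_span_pow, ← PadicInt.ker_toZModPow,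
    RingHom.mem_ker, map_sub, sub_eq_zero]

/-- Locally constant functions are uniformly locally constant. -/
lemma unif (h : IsLocallyConstant Θ) : ∃ k0 : ℕ, ∀ k, k0 ≤ k → ∀ z z' : ι → ℤ_[p],
    (∀ i, PadicInt.toZModPow k (z i) = PadicInt.toZModPow k (z' i)) → Θ z = Θ z' := by
  obtain ⟨δ, hδ, h1⟩ := lebesgue_number_lemma_of_metric (s := (Set.univ : Set (ι → ℤ_[p])))
    (c := fun y : ℂ => Θ ⁻¹' {y}) isCompact_univ (fun y => h _)
    (fun z _ => Set.mem_iUnion.2 ⟨Θ z, rfl⟩)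
  obtain ⟨k0, hk0⟩ := PadicInt.exists_pow_neg_lt p hδ
  refine ⟨k0, fun k hk z z' hz => ?_⟩
  obtain ⟨y, hy⟩ := h1 z' (Set.mem_univ _)
  have h2 : z ∈ Metric.ball z' δ := by
    rw [mem_ball_iff_norm]
    refine ((norm_le_iff k z z').2 hz).trans_lt (lt_of_le_of_lt ?_ hk0)
    exact zpow_le_zpow_right₀ (by exact_mod_cast hp.out.one_le) (by omega)
  exact (hy h2).trans (hy (Metric.mem_ball_self hδ)).symm

omit [Fintype ι] in
lemma per_of {k : ℕ} (h : ∀ z z' : ι → ℤ_[p],
    (∀ i, PadicInt.toZModPow k (z i) = PadicInt.toZModPow k (z' i)) → Θ z = Θ z') :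
    H22.Per (p ^ k) (fun x : ι → ℤ => Θ (fun i => (x i : ℤ_[p]))) := by
  intro x x' hx
  refine h _ _ (fun i => ?_)
  rw [map_intCast, map_intCast, ZMod.intCast_eq_intCast_iff]
  exact hx i

lemma isPer (h : IsLocallyConstant Θ) :
    H22.IsPer p (fun x : ι → ℤ => Θ (fun i => (x i : ℤ_[p]))) := by
  obtain ⟨k, hk⟩ := unif h
  exact ⟨k, per_of (hk k le_rfl)⟩

/-- The mean value as a finite average. -/
lemma MP_eq [DecidableEq ι] {k : ℕ} (h : ∀ z z' : ι → ℤ_[p],
    (∀ i, PadicInt.toZModPow k (z i) = PadicInt.toZModPow k (z' i)) → Θ z = Θ z') :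
    MP p Θ = (((p : ℂ) ^ Fintype.card ι)⁻¹) ^ k * ∑ b : ι → ZMod (p ^ k), Θ (lft p b) := by
  have e : MP p Θ = H22.mean p (fun x : ι → ℤ => Θ (fun i => (x i : ℤ_[p]))) := by
    unfold MP
    congr
  rw [e, H22.mean_eq (per_of h), H22.avg, div_eq_inv_mul]
  congr 1
  simp only [Fintype.card_pi, ZMod.card, prod_const, card_univ]
  push_cast
  rw [inv_pow, ← pow_mul, ← pow_mul, mul_comm]

lemma MP_add (h : IsLocallyConstant Θ) (h' : IsLocallyConstant Θ') :
    MP p (fun z => Θ z + Θ' z) = MP p Θ + MP p Θ' :=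
  @H22.mean_add ι _ (Classical.decEq ι) p _ _ _ (isPer h) (isPer h')

lemma MP_const_mul (h : IsLocallyConstant Θ) (c : ℂ) : MP p (fun z => c * Θ z) = c * MP p Θ :=
  @H22.mean_const_mul ι _ (Classical.decEq ι) p _ _ (isPer h) c

lemma MP_const (c : ℂ) : MP p (fun _ : ι → ℤ_[p] => c) = c :=
  @H22.mean_const ι _ (Classical.decEq ι) p _ c

lemma MP_sum {α : Type} (s : Finset α) {Ξ : α → (ι → ℤ_[p]) → ℂ}
    (h : ∀ a ∈ s, IsLocallyConstant (Ξ a)) :
    MP p (fun z => ∑ a ∈ s, Ξ a z) = ∑ a ∈ s, MP p (Ξ a) :=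
  @H22.mean_sum ι _ (Classical.decEq ι) p _ α s
    (fun a x => Ξ a (fun i => (x i : ℤ_[p]))) (fun a ha => isPer (h a ha))

lemma MP_norm_le (h : IsLocallyConstant Θ) {C : ℝ} (hC : ∀ z, ‖Θ z‖ ≤ C) : ‖MP p Θ‖ ≤ C :=
  @H22.mean_norm_le ι _ (Classical.decEq ι) p _ _ (isPer h) C (fun _ => hC _)

end Mean

end Pool.Agent.MP_5d9b3c_ag.H69
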