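import Pool.Agent.MP_5d9b3c_ag.H69.Basic

/-!
The theorem on nondegenerate polynomials with rational coefficients, and its local form.
-/

namespace Pool.Agent.MP_5d9b3c_ag.H69

open Finset MvPolynomial

namespace Box

lemma clear {ι : Type} (G : MvPolynomial ι ℚ) : ∃ (N : ℤ) (G' : MvPolynomial ι ℤ), N ≠ 0 ∧
    map (Int.castRingHom ℚ) G' = C (N : ℚ) * G := by
  induction G using MvPolynomial.induction_on with
  | C a =>
    refine ⟨a.den, C a.num, by exact_mod_cast a.den_ne_zero, ?_⟩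
    rw [map_C, ← C_mul]
    simp [Rat.den_mul_eq_num]
  | add a b ha hb =>
    obtain ⟨N, G, h1, h2⟩ := ha
    obtain ⟨N', G', h3, h4⟩ := hb
    refine ⟨N * N', C N' * G + C N * G', mul_ne_zero h1 h3, ?_⟩
    rw [map_add, map_mul, map_mul, map_C, map_C, h2, h4, Int.cast_mul, C_mul, eq_intCast,
      eq_intCast]
    ring
  | mul_X a i ha =>
    obtain ⟨N, G, h1, h2⟩ := ha
    exact ⟨N, G * X i, h1, by rw [map_mul, h2, map_X, mul_assoc]⟩

lemma isB_scale {ι : Type} {g : MvPolynomial ι ℂ} {b : Polynomial ℂ} (h : IsB g b) {r : ℂ}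
    (hr : r ≠ 0) : IsB (C r * g) b := by
  obtain ⟨d, P, h1, h2⟩ := h
  refine ⟨d, fun t => r⁻¹ • P t, fun t => Subalgebra.smul_mem _ (h1 t) _, fun m => ?_⟩
  have e : ∀ n : ℕ, (C r * g) ^ n = r ^ n • g ^ n := fun n => by
    rw [mul_pow, ← C_pow, smul_eq_C_mul]
  simp only [e, LinearMap.smul_apply, map_smul, smul_smul]
  rw [mul_comm (b.eval (m : ℂ)), ← smul_smul, ← h2 m, smul_sum]
  refine sum_congr rfl (fun t _ => ?_)
  rw [smul_smul]
  congr 1
  field_simp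
  ring

lemma box_int (hG : H10N.GlobStmt2) {ι : Type} [Fintype ι] {p : ℕ} [hp : Fact p.Prime]
    (f : MvPolynomial ι ℤ) (g : MvPolynomial ι ℂ) (hg : g = map (Int.castRingHom ℂ) f)
    (h1 : H1C g) (hdeg : g.totalDegree ≠ 0) {b : Polynomial ℂ} (hb : IsB g b) (l : ℝ)
    (hl : b.eval (-(l : ℂ)) ≠ 0) : H48N.Good p l (cnt p f) := by
  classical
  let _ : LinearOrder ι := LinearOrder.lift' (Fintype.equivFin ι) (Equiv.injective _)
  have hsum : f = ∑ j : f.support, monomial j.1 (coeff j.1 f) := by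
    rw [Finset.sum_coe_sort f.support (fun v => monomial v (coeff v f))]
    exact f.as_sum
  have hc : ∀ j : f.support, coeff j.1 f ≠ 0 := fun j => mem_support_iff.1 j.2
  have hmap : g = ∑ j : f.support, monomial j.1 ((coeff j.1 f : ℤ) : ℂ) := by
    rw [hg]
    conv_lhs => rw [hsum]
    simp [map_monomial]
  have := hG ι f.support (fun j => j.1) (fun j => coeff j.1 f) b p g hp.out Subtype.val_injective
    hc hmap h1 hdeg (by
      obtain ⟨d, P, hP1, hP2⟩ := hb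
      exact ⟨d, P, hP1, hmap ▸ hP2⟩) l hl
  rw [← hsum] at this
  exact this

variable {p : ℕ} [hp : Fact p.Prime]

lemma ind_mul {a : ℚ_[p]} {v : ℕ} (ha : ‖a‖ = (p : ℝ) ^ (-(v : ℤ))) (m : ℕ) (t : ℚ_[p]) :
    ind p (m + v) (a * t) = ind p m t := by
  have h0 : (0 : ℝ) < p := by exact_mod_cast hp.out.pos
  refine if_congr ?_ rfl rfl
  rw [norm_mul, ha, Nat.cast_add, neg_add, zpow_add₀ h0.ne', mul_comm]
  exact mul_le_mul_iff_left₀ (zpow_pos h0 _)

end Box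

variable {p : ℕ} [hp : Fact p.Prime]

theorem boxS (hG : H10N.GlobStmt2) (hU : UpStmt) (hS : NondScaleStmt) (hA : MA p) :
    BoxStmt p := by
  intro ι _ G b l h1 hdeg hb hl
  obtain ⟨N, G', hN, hG'⟩ := Box.clear G
  have hN' : (N : ℂ) ≠ 0 := by exact_mod_cast hN
  have e : map (Int.castRingHom ℂ) G' = C (N : ℂ) * map (algebraMap ℚ ℂ) G := by
    have := congrArg (map (algebraMap ℚ ℂ)) hG'
    rw [MvPolynomial.map_map, map_mul, map_C, RingHom.ext_int (RingHom.comp _ _)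
      (Int.castRingHom ℂ)] at this
    simpa using this
  have h2 : H1C (C (N : ℂ) * map (algebraMap ℚ ℂ) G) := by
    simpa using hS ι _ N 1 hN' one_ne_zero h1
  have h3 : (C (N : ℂ) * map (algebraMap ℚ ℂ) G).totalDegree ≠ 0 := by
    rw [← smul_eq_C_mul, totalDegree, support_smul_eq hN',
      support_map_of_injective _ (algebraMap ℚ ℂ).injective]
    exact hdeg
  have h4 := Box.box_int (p := p) hG G' _ e.symm h2 h3 (Box.isB_scale (hU ι G b hb) hN') l
    (by rwa [Polynomial.eval_map_algebraMap])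
  have h5 : ‖(N : ℚ_[p])‖ = (p : ℝ) ^ (-((padicValInt p N : ℕ) : ℤ)) := by
    rw [Padic.norm_eq_zpow_neg_valuation (by exact_mod_cast hN), Padic.valuation_intCast]
  have h6 := good_tail hp.out.pos h4 (padicValInt p N)
  unfold GC
  convert h6 using 2 with m
  rw [← hA.count]
  congr 1
  ext z
  rw [← Box.ind_mul h5]
  congr 1
  have := congrArg (aeval (fun i => (z i : ℚ_[p]))) hG'
  rw [map_mul, aeval_C] at this
  simp only [Pi.zero_apply, pow_zero, one_mul, zero_add]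
  rw [← algebraMap_int_eq, aeval_map_algebraMap] at this
  rw [this]
  simp

namespace Box

lemma iso_of_close {ι : Type} [Fintype ι] (T : (ι → ℤ_[p]) → ι → ℤ_[p])
    (h : ∀ z z' i, ‖T z i - T z' i - (z i - z' i)‖ ≤ ‖z - z'‖ * (p : ℝ)⁻¹) (z z' : ι → ℤ_[p]) :
    ‖T z - T z'‖ = ‖z - z'‖ := by
  have hp1 : (1 : ℝ) < p := by exact_mod_cast hp.out.one_lt
  have h1 : ‖T z - T z' - (z - z')‖ ≤ ‖z - z'‖ * (p : ℝ)⁻¹ :=
    (pi_norm_le_iff_of_nonneg (by positivity)).2 (h z z')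
  rcases (norm_nonneg (z - z')).eq_or_lt with h0 | h0
  · rw [← h0, zero_mul, norm_le_zero_iff, sub_eq_zero] at h1
    rw [h1]
  · have h2 : ‖T z - T z' - (z - z')‖ < ‖z - z'‖ :=
      h1.trans_lt (mul_lt_of_lt_one_right h0 (inv_lt_one_of_one_lt₀ hp1))
    have h3 := IsUltrametricDist.norm_add_eq_max_of_norm_ne_norm h2.ne
    rwa [sub_add_cancel, max_eq_right h2.le] at h3

lemma iso_of_comp {ι : Type} [Fintype ι] (T : (ι → ℤ_[p]) → ι → ℤ_[p])
    (h : ∀ z z' i, ‖T z i - T z' i‖ = ‖z i - z' i‖) (z z' : ι → ℤ_[p]) :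
    ‖T z - T z'‖ = ‖z - z'‖ := by
  rw [Pi.norm_def, Pi.norm_def]
  congr 2
  ext i
  exact h z z' i

lemma cont_coe {ι : Type} (i : ι) : Continuous (fun z : ι → ℤ_[p] => (z i : ℚ_[p])) :=
  continuous_subtype_val.comp (continuous_apply i)

lemma cont_aeval {ι : Type} (F : MvPolynomial ι ℚ) :
    Continuous (fun x : ι → ℚ_[p] => aeval x F) := by
  simp only [aeval_eq_eval₂Hom, coe_eval₂Hom, ← eval_map]
  exact MvPolynomial.continuous_eval _

lemma gc_translate (hA : MA p) {ι : Type} [Fintype ι] {l : ℝ} {G : (ι → ℚ_[p]) → ℚ_[p]}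
    (hG : Continuous G) {d d' : ι → ℚ_[p]} {K : ℕ} (t : ι → ℤ_[p])
    (hd : ∀ i, d' i = d i + (p : ℚ_[p]) ^ K * t i) (h : GC p l G d K) : GC p l G d' K := by
  unfold GC at h ⊢
  convert h using 2 with m
  refine Eq.trans ?_ (hA.iso ι _ (fun z => t + z) (lc_ind (hG.comp (continuous_pi fun i =>
    continuous_const.add (continuous_const.mul (cont_coe i)))) m) (fun z z' => by simp))
  simp only [hd, Pi.add_apply, PadicInt.coe_add, mul_add, add_assoc]

/-- The two extra variables. -/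
abbrev Two : Type := Unit ⊕ Unit ⊕ Empty

lemma inner_on (hA : MA p) (m : ℕ) (t κ : ℚ_[p]) (hκ : ‖κ‖ = 1) :
    MP p (fun w : Two → ℤ_[p] => ind p m (t + (w (Sum.inl ()) : ℚ_[p]) *
      ((w (Sum.inr (Sum.inl ())) : ℚ_[p]) * κ - 1))) =
    MP p (fun w : Two → ℤ_[p] => ind p m (t + (w (Sum.inl ()) : ℚ_[p]) *
      (w (Sum.inr (Sum.inl ())) : ℚ_[p]))) := by
  let κ' : ℤ_[p] := ⟨κ, hκ.le⟩
  have hκ' : ‖κ'‖ = 1 := hκ
  refine Eq.trans ?_ (hA.iso Two _ (fun w => Sum.elim (fun _ => w (Sum.inl ()))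
    (fun j => w (Sum.inr j) * κ' - 1)) (lc_ind
      (continuous_const.add ((cont_coe _).mul (cont_coe _))) m) (iso_of_comp _ ?_))
  · rfl
  · rintro z z' (i | i)
    · rfl
    · simp only [Sum.elim_inr]
      rw [sub_sub_sub_cancel_right, ← sub_mul, norm_mul, hκ', mul_one]

lemma inner_off (hA : MA p) (m : ℕ) (t κ : ℚ_[p]) (hκ : ‖κ‖ ≤ (p : ℝ)⁻¹) :
    MP p (fun w : Two → ℤ_[p] => ind p m (t + (w (Sum.inl ()) : ℚ_[p]) *
      ((w (Sum.inr (Sum.inl ())) : ℚ_[p]) * κ - 1))) = ((p : ℂ)⁻¹) ^ m * ind p 0 t := by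
  have hp1 : (1 : ℝ) ≤ p := by exact_mod_cast hp.out.one_le
  let κ' : ℤ_[p] := ⟨κ, hκ.trans (inv_le_one_of_one_le₀ hp1)⟩
  have hκ' : ‖κ'‖ ≤ (p : ℝ)⁻¹ := hκ
  have h1 := hA.one Two (Sum.inl ()) t (-1) 0 m (by simp) (Nat.zero_le _)
  rw [Nat.sub_zero] at h1
  rw [← h1]
  refine Eq.trans ?_ (hA.iso Two _ (fun w => Sum.elim
    (fun _ => w (Sum.inl ()) * (1 - w (Sum.inr (Sum.inl ())) * κ')) (fun j => w (Sum.inr j)))
    (lc_ind (continuous_const.add (continuous_const.mul (cont_coe _))) m) (iso_of_close _ ?_))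
  · congr 1
    ext w
    congr 1
    simp only [Sum.elim_inl, PadicInt.coe_mul, PadicInt.coe_sub, PadicInt.coe_one, κ']
    ring
  · rintro z z' (i | i)
    · have e : z (Sum.inl ()) * (1 - z (Sum.inr (Sum.inl ())) * κ') -
          z' (Sum.inl ()) * (1 - z' (Sum.inr (Sum.inl ())) * κ') -
          (z (Sum.inl ()) - z' (Sum.inl ())) =
          (-(z - z') (Sum.inl ()) * z (Sum.inr (Sum.inl ())) +
            -(z - z') (Sum.inr (Sum.inl ())) * z' (Sum.inl ())) * κ' := by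
        simp only [Pi.sub_apply]
        ring
      simp only [Sum.elim_inl]
      rw [e, norm_mul]
      refine mul_le_mul ((PadicInt.nonarchimedean _ _).trans (max_le ?_ ?_)) hκ' (norm_nonneg _)
        (norm_nonneg _)
      all_goals
        rw [norm_mul, norm_neg]
        exact (mul_le_of_le_one_right (norm_nonneg _) (PadicInt.norm_le_one _)).trans
          (norm_le_pi_norm _ _)
    · simp only [Sum.elim_inr, sub_self, norm_zero]
      positivity

lemma weight (hI : IndStmt p) {I : Type} [Fintype I] (k : MvPolynomial I ℚ) (K : ℕ) (b : I → ℤ)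
    (v : ℤ) (hk : ∀ x : I → ℚ_[p], ‖x - fun i => (b i : ℚ_[p])‖ ≤ (p : ℝ) ^ (-(K : ℤ)) →
      ‖aeval x k‖ = (p : ℝ) ^ (-v)) :
    ∃ r : MvPolynomial I ℚ, ∀ z : I → ℤ_[p],
      (‖(fun i => (z i : ℚ_[p])) - fun i => (b i : ℚ_[p])‖ ≤ (p : ℝ) ^ (-(K : ℤ)) →
        ‖aeval (fun i => (z i : ℚ_[p])) (r * k)‖ = 1) ∧
      ((p : ℝ) ^ (-(K : ℤ)) < ‖(fun i => (z i : ℚ_[p])) - fun i => (b i : ℚ_[p])‖ →
        ‖aeval (fun i => (z i : ℚ_[p])) (r * k)‖ ≤ (p : ℝ)⁻¹) := by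
  have hp1 : (1 : ℝ) < p := by exact_mod_cast hp.out.one_lt
  obtain ⟨k0, h0⟩ := hI I K b
  obtain ⟨M, hM⟩ := (isCompact_univ (X := I → ℤ_[p])).exists_bound_of_continuousOn
    (f := fun z => aeval (fun i => (z i : ℚ_[p])) k)
    ((cont_aeval k).comp (continuous_pi cont_coe)).continuousOn
  obtain ⟨j, hj⟩ := pow_unbounded_of_one_lt ((p : ℝ) ^ v * M) hp1
  refine ⟨C ((p : ℚ) ^ (-v)) * k0 ^ (j + 1), fun z => ?_⟩
  have hz : ‖fun i => (z i : ℚ_[p])‖ ≤ 1 :=
    (pi_norm_le_iff_of_nonneg zero_le_one).2 fun i => (z i).2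
  have e : ‖aeval (fun i => (z i : ℚ_[p])) (C ((p : ℚ) ^ (-v)) * k0 ^ (j + 1) * k)‖ =
      (p : ℝ) ^ v * ‖aeval (fun i => (z i : ℚ_[p])) k0‖ ^ (j + 1) *
        ‖aeval (fun i => (z i : ℚ_[p])) k‖ := by
    rw [map_mul, map_mul, map_pow, aeval_C, norm_mul, norm_mul, norm_pow, map_zpow₀, map_natCast,
      Padic.norm_p_zpow, neg_neg]
  rw [e]
  refine ⟨fun h => ?_, fun h => ?_⟩
  · rw [(h0 _ hz).1 h, hk _ h, one_pow, mul_one, ← zpow_add₀ (by positivity), add_neg_cancel,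
      zpow_zero]
  · have h1 := pow_le_pow_left₀ (norm_nonneg _) ((h0 _ hz).2 h) (j + 1)
    have h2 := hM z (Set.mem_univ _)
    calc _ ≤ (p : ℝ) ^ v * ((p : ℝ)⁻¹) ^ (j + 1) * M := by gcongr
      _ = ((p : ℝ) ^ v * M) * ((p : ℝ) ^ j)⁻¹ * (p : ℝ)⁻¹ := by rw [pow_succ, inv_pow]; ring
      _ ≤ 1 * (p : ℝ)⁻¹ := by
        gcongr
        rw [mul_inv_le_iff₀ (by positivity), one_mul]
        exact hj.le
      _ = _ := one_mul _

end Box

theorem bbS (hBox : BoxStmt p) (hI : IndStmt p) (hN : NondLocStmt) (hL : LocStmt)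
    (hH : HypStmt p) (hA : MA p) (hB : MB p) : BBStmt p := by
  classical
  intro I _ F k x0 b l h1 hk hx0 hb hl0 hl1 hbl
  have hp1 : (1 : ℝ) < p := by exact_mod_cast hp.out.one_lt
  obtain ⟨δ, hδ, hk1⟩ := Metric.continuousAt_iff.1 (Box.cont_aeval (p := p) k).continuousAt _
    (norm_pos_iff.2 hk)
  obtain ⟨K0, hK0⟩ := PadicInt.exists_pow_neg_lt p hδ
  refine ⟨K0, fun K hK c' hc' => ?_⟩
  have hKK : (p : ℝ) ^ (-(K : ℤ)) ≤ (p : ℝ) ^ (-(K0 : ℤ)) :=
    zpow_le_zpow_right₀ hp1.le (by omega)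
  have hc1 : ‖c'‖ ≤ 1 := by
    have := IsUltrametricDist.norm_add_le_max (c' - x0) x0
    rw [sub_add_cancel] at this
    exact this.trans (max_le (hc'.trans (zpow_le_one_of_nonpos₀ hp1.le (by omega))) hx0)
  let c : I → ℤ_[p] := fun i => ⟨c' i, (norm_le_pi_norm c' i).trans hc1⟩
  let b0 : I → ZMod (p ^ K) := fun i => PadicInt.toZModPow K (c i)
  have hcoe : ∀ z : I → ℤ_[p], ‖(fun i => (z i : ℚ_[p])) - fun i => (((b0 i).val : ℤ) : ℚ_[p])‖ =
      ‖z - lft p b0‖ := by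
    intro z
    rw [Pi.norm_def, Pi.norm_def]
    congr 2
  have hcb : ‖c - lft p b0‖ ≤ (p : ℝ) ^ (-(K : ℤ)) :=
    (norm_le_iff K _ _).2 fun i => (toZModPow_lft b0 i).symm
  obtain ⟨r, hr⟩ := Box.weight hI k K (fun i => ((b0 i).val : ℤ)) (aeval x0 k).valuation (by
    intro x hx
    rw [← Padic.norm_eq_zpow_neg_valuation hk]
    have h2 : dist x x0 < δ := by
      have h3 := IsUltrametricDist.norm_add_le_max (x - fun i => (((b0 i).val : ℤ) : ℚ_[p]))
        (-(c' - fun i => (((b0 i).val : ℤ) : ℚ_[p])))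
      have h4 := IsUltrametricDist.norm_add_le_max (x - c') (c' - x0)
      rw [norm_neg, ← sub_eq_add_neg, sub_sub_sub_cancel_right] at h3
      rw [sub_add_sub_cancel] at h4
      rw [dist_eq_norm]
      refine (h4.trans (max_le (h3.trans (max_le (hx.trans hKK) ?_)) hc')).trans_lt hK0
      exact ((hcoe c).le.trans hcb).trans hKK
    have h5 := hk1 h2
    rw [dist_eq_norm] at h5
    have h6 := IsUltrametricDist.norm_add_eq_max_of_norm_ne_norm h5.ne
    rwa [sub_add_cancel, max_eq_right h5.le] at h6)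
  simp only [hcoe] at hr
  have hmap : map (algebraMap ℚ ℂ) (loc F (r * k)) =
      loc (map (algebraMap ℚ ℂ) F) (map (algebraMap ℚ ℂ) (r * k)) := by
    simp [loc, map_rename]
  obtain ⟨h2, h3⟩ := hN I _ (map (algebraMap ℚ ℂ) (r * k)) h1
  rw [← hmap] at h2 h3
  have h4 := hBox _ (loc F (r * k)) (sh b 1) (l + 1) h2 (by
      rwa [totalDegree, support_map_of_injective _ (algebraMap ℚ ℂ).injective] at h3)
    (hL I F _ b (hb.mul r)) (by
      have : (l : ℂ) ≠ 0 := by exact_mod_cast hl0.ne'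
      simpa [sh, Polynomial.aeval_comp, this] using hbl)
  obtain ⟨Θ, hΘ⟩ : ∃ Θ : ℕ → (Idx I Unit Empty → ℤ_[p]) → ℂ, ∀ m z, Θ m z =
      ind p m (aeval (fun i => (z i : ℚ_[p])) (loc F (r * k))) := ⟨_, fun _ _ => rfl⟩
  have hΘc : ∀ m, IsLocallyConstant (Θ m) := fun m => by
    rw [funext (hΘ m)]
    exact lc_ind ((Box.cont_aeval _).comp (continuous_pi Box.cont_coe)) m
  have hΘe : ∀ m (x : I → ℤ_[p]) (w : Box.Two → ℤ_[p]), Θ m (Sum.elim x w) =
      ind p m (aeval (fun i => (x i : ℚ_[p])) F + (w (Sum.inl ()) : ℚ_[p]) *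
        ((w (Sum.inr (Sum.inl ())) : ℚ_[p]) * aeval (fun i => (x i : ℚ_[p])) (r * k) - 1)) := by
    intro m x w
    rw [hΘ]
    simp only [loc, map_add, map_mul, map_sub, map_one, aeval_X, aeval_rename]
    rfl
  obtain ⟨g, hg⟩ : ∃ g : (I → ZMod (p ^ K)) → (I → ℤ_[p]) → ℚ_[p], ∀ β w, g β w =
      aeval (fun i => ((lft p β + (p : ℤ_[p]) ^ K • w) i : ℚ_[p])) F := ⟨_, fun _ _ => rfl⟩
  have hgc : ∀ β, Continuous (g β) := fun β => by
    rw [funext (hg β)]
    exact (Box.cont_aeval _).comp ((continuous_pi Box.cont_coe).comp (by fun_prop))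
  have hres : ∀ (β : I → ZMod (p ^ K)) (w : I → ℤ_[p]),
      ‖lft p β + (p : ℤ_[p]) ^ K • w - lft p b0‖ ≤ (p : ℝ) ^ (-(K : ℤ)) ↔ β = b0 := by
    intro β w
    rw [norm_le_iff, _root_.funext_iff]
    refine forall_congr' fun i => ?_
    have : (p : ZMod (p ^ K)) ^ K = 0 := by
      rw [← Nat.cast_pow, ZMod.natCast_self]
    simp [toZModPow_lft, this]
  obtain ⟨s, hs⟩ : ∃ s : ℕ → ℂ, ∀ m, s m = MP p (fun z : Idx I Unit Empty → ℤ_[p] =>
      ind p m (g b0 (fun i => z (Sum.inl i)) +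
        (p : ℚ_[p]) ^ 0 * ∑ j : Unit, (z (iμ j) : ℚ_[p]) * (z (iy j) : ℚ_[p]))) :=
    ⟨_, fun _ => rfl⟩
  have key : ∀ m, MP p (Θ m) = (((p : ℂ) ^ Fintype.card I)⁻¹) ^ K * (s m + ((p : ℂ)⁻¹) ^ m *
      ∑ β ∈ univ.erase b0, MP p (fun w => ind p 0 (g β w))) := by
    intro m
    have h5 := hB.lattice I 1 ((p : ℤ_[p]) ^ K • 1) K _ (hB.lc_prod _ _ _ (hΘc m)) (one_mul _)
    simp only [Matrix.one_mulVec] at h5
    rw [hB.prod _ _ _ (hΘc m), h5, ← add_sum_erase _ _ (mem_univ b0), mul_sum]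
    congr 2
    · rw [hs]
      have hc : Continuous (fun (z : Idx I Unit Empty → ℤ_[p]) i => z (Sum.inl i)) := by fun_prop
      refine Eq.trans ?_ (hB.prod _ _ _ (lc_ind (((hgc b0).comp hc).add (continuous_const.mul
        (continuous_finsetSum _ fun j _ => (Box.cont_coe _).mul (Box.cont_coe _)))) m)).symm
      congr 1
      ext w
      simp only [hΘe]
      rw [Box.inner_on hA _ _ _ ((hr _).1 ((hres b0 w).2 rfl)), ← hg]
      simp
    · refine sum_congr rfl fun β hβ => ?_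
      rw [← MP_const_mul (lc_ind (hgc β) 0)]
      congr 1
      ext w
      simp only [hΘe]
      rw [Box.inner_off hA _ _ _ ((hr _).2 (not_le.1 fun h => (mem_erase.1 hβ).1
        ((hres β w).1 h))), ← hg]
  have h6 : H48N.Good p (l + 1) s := by
    have h7 := (h4.const_mul (((p : ℂ) ^ Fintype.card I) ^ K)).add ((good_geom (l := l + 1)
      hp.out.one_lt (by linarith) (∑ β ∈ univ.erase b0,
        MP p (fun w => ind p 0 (g β w)))).const_mul (-1))
    convert h7 using 2 with m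
    have h8 : (p : ℂ) ≠ 0 := by exact_mod_cast hp.out.ne_zero
    simp only [Pi.zero_apply, pow_zero, one_mul, zero_add, ← hΘ]
    rw [key, ← mul_assoc, ← mul_pow, mul_inv_cancel₀ (pow_ne_zero _ h8)]
    ring
  have h7 := hH I Unit Empty l (g b0) 0 (hgc b0) hl0 hl1 (by
    rw [← funext hs]
    simpa using h6)
  obtain ⟨t, ht⟩ : ∃ t : I → ℤ_[p], ∀ i, c i = lft p b0 i + (p : ℤ_[p]) ^ K * t i := by
    have : ∀ i, ∃ t, c i = lft p b0 i + (p : ℤ_[p]) ^ K * t := fun i => by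
      obtain ⟨t, ht⟩ := Ideal.mem_span_singleton.1 ((PadicInt.norm_le_pow_iff_mem_span_pow _ K).1
        ((norm_le_pi_norm _ i).trans hcb))
      exact ⟨t, by rw [← ht]; simp⟩
    exact ⟨fun i => (this i).choose, fun i => (this i).choose_spec⟩
  refine Box.gc_translate hA (Box.cont_aeval F) (d := fun i => (lft p b0 i : ℚ_[p])) t
    (fun i => by exact_mod_cast congrArg Subtype.val (ht i)) ?_
  unfold GC
  convert h7 using 4 with m z
  rw [hg]
  simp

end Pool.Agent.MP_5d9b3c_ag.H69
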