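import Pool.Agent.MP_5d9b3c_ag.H69.Basic

/-!
Change of variables for the mean values on small cosets.
-/

namespace Pool.Agent.MP_5d9b3c_ag.H69

open Finset MvPolynomial Matrix

variable {p : ℕ} [hp : Fact p.Prime]

namespace CV

variable {ι : Type} [Fintype ι]

/-- The inclusion of integral vectors. -/
def up (z : ι → ℤ_[p]) : ι → ℚ_[p] := fun i => (z i : ℚ_[p])

lemma norm_up (z : ι → ℤ_[p]) : ‖up z‖ = ‖z‖ := by
  refine le_antisymm ?_ ?_
  · exact (pi_norm_le_iff_of_nonneg (norm_nonneg _)).2 fun i => norm_le_pi_norm z i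
  · exact (pi_norm_le_iff_of_nonneg (norm_nonneg _)).2 fun i => norm_le_pi_norm (up z) i

lemma norm_up_le (z : ι → ℤ_[p]) : ‖up z‖ ≤ 1 :=
  (pi_norm_le_iff_of_nonneg zero_le_one).2 fun i => (z i).2

omit [Fintype ι] in
lemma up_sub (z z' : ι → ℤ_[p]) : up (z - z') = up z - up z' := by
  ext i
  simp [up]

omit [Fintype ι] in
lemma cont_up : Continuous (up : (ι → ℤ_[p]) → ι → ℚ_[p]) :=
  continuous_pi fun i => continuous_subtype_val.comp (continuous_apply i)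

lemma one_lt : (1 : ℝ) < p := by exact_mod_cast hp.out.one_lt

lemma pne : (p : ℚ_[p]) ≠ 0 := by exact_mod_cast hp.out.ne_zero

lemma anti {a b : ℕ} (h : a ≤ b) : (p : ℝ) ^ (-(b : ℤ)) ≤ (p : ℝ) ^ (-(a : ℤ)) :=
  zpow_le_zpow_right₀ one_lt.le (by omega)

/-- Matrices are bounded. -/
lemma bound (M : Matrix ι ι ℚ_[p]) : ∃ C : ℝ, 0 < C ∧ ∀ v, ‖M.mulVec v‖ ≤ C * ‖v‖ :=
  (LinearMap.toContinuousLinearMap (Matrix.mulVecLin M)).bound

/-- Clearing denominators. -/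
lemma integral (M : Matrix ι ι ℚ_[p]) : ∃ (e : ℕ) (M' : Matrix ι ι ℤ_[p]),
    ∀ i j, (M' i j : ℚ_[p]) = (p : ℚ_[p]) ^ e * M i j := by
  obtain ⟨C, hC⟩ : ∃ C : ℝ, ∀ q : ι × ι, ‖M q.1 q.2‖ ≤ C :=
    ⟨∑ q : ι × ι, ‖M q.1 q.2‖, fun q =>
      single_le_sum (f := fun q : ι × ι => ‖M q.1 q.2‖) (fun _ _ => norm_nonneg _) (mem_univ q)⟩
  obtain ⟨e, he⟩ := pow_unbounded_of_one_lt C (one_lt (p := p))
  have h1 : ∀ i j, ‖(p : ℚ_[p]) ^ e * M i j‖ ≤ 1 := by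
    intro i j
    have h0 : (0 : ℝ) < (p : ℝ) ^ e := pow_pos (zero_lt_one.trans one_lt) e
    rw [norm_mul, norm_pow, Padic.norm_p, inv_pow, inv_mul_le_iff₀ h0, mul_one]
    exact (hC (i, j)).trans he.le
  exact ⟨e, fun i j => ⟨_, h1 i j⟩, fun _ _ => rfl⟩

lemma up_mulVec {M : Matrix ι ι ℚ_[p]} {M' : Matrix ι ι ℤ_[p]} {r : ℚ_[p]}
    (h : ∀ i j, (M' i j : ℚ_[p]) = r * M i j) (z : ι → ℤ_[p]) :
    up (M'.mulVec z) = r • M.mulVec (up z) := by
  ext i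
  simp only [up, Matrix.mulVec, dotProduct, Pi.smul_apply, smul_eq_mul, mul_sum]
  have := map_sum (PadicInt.Coe.ringHom (p := p)) (fun j => M' i j * z j) univ
  simp only [PadicInt.Coe.ringHom_apply] at this
  rw [this]
  refine sum_congr rfl fun j _ => ?_
  rw [PadicInt.coe_mul, h, mul_assoc]

lemma lc_aff {G : (ι → ℚ_[p]) → ℚ_[p]} (hG : Continuous G) (d : ι → ℚ_[p]) (r : ℚ_[p])
    (L : Matrix ι ι ℚ_[p]) (m : ℕ) :
    IsLocallyConstant (fun z : ι → ℤ_[p] => ind p m (G (d + r • L.mulVec (up z)))) := by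
  refine lc_ind (hG.comp (continuous_const.add (Continuous.const_smul ?_ r))) m
  exact Continuous.matrix_mulVec continuous_const cont_up

/-- Cosets of arbitrary lattices. -/
lemma lat [DecidableEq ι] (hB : MB p) {l : ℝ} {G : (ι → ℚ_[p]) → ℚ_[p]} (hG : Continuous G)
    {L N : Matrix ι ι ℚ_[p]} (hLN : L * N = 1) {c : ι → ℚ_[p]} (h : LG p l G c) :
    ∃ K1 : ℕ, ∀ K, K1 ≤ K → ∀ d : ι → ℚ_[p], ‖d - c‖ ≤ (p : ℝ) ^ (-(K1 : ℤ)) →
      H48N.Good p l (fun m => MP p (fun z : ι → ℤ_[p] =>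
        ind p m (G (d + (p : ℚ_[p]) ^ K • L.mulVec (up z))))) := by
  obtain ⟨K0, hK0⟩ := h
  obtain ⟨e1, A', hA'⟩ := integral L
  obtain ⟨e2, B', hB'⟩ := integral N
  have hAB : A' * B' = (p : ℤ_[p]) ^ (e1 + e2) • (1 : Matrix ι ι ℤ_[p]) := by
    ext i j
    apply Subtype.ext
    have h1 := map_sum (PadicInt.Coe.ringHom (p := p)) (fun k => A' i k * B' k j) univ
    simp only [PadicInt.Coe.ringHom_apply] at h1
    have h2 := congrFun (congrFun hLN i) j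
    rw [Matrix.mul_apply] at h2 ⊢
    have h3 : ((∑ k, A' i k * B' k j : ℤ_[p]) : ℚ_[p]) =
        (p : ℚ_[p]) ^ (e1 + e2) * (1 : Matrix ι ι ℚ_[p]) i j := by
      rw [h1, ← h2, mul_sum]
      refine sum_congr rfl fun k _ => ?_
      rw [PadicInt.coe_mul, hA', hB']
      ring
    refine h3.trans ?_
    by_cases hij : i = j <;> simp [Matrix.one_apply, hij]
  refine ⟨K0 + e1, fun K hK d hd => ?_⟩
  obtain ⟨K', rfl⟩ : ∃ K', K = K' + e1 := ⟨K - e1, by omega⟩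
  have hK' : K0 ≤ K' := by omega
  have key : ∀ m, MP p (fun z : ι → ℤ_[p] =>
      ind p m (G (d + (p : ℚ_[p]) ^ (K' + e1) • L.mulVec (up z)))) =
      (((p : ℂ) ^ Fintype.card ι)⁻¹) ^ (e1 + e2) * ∑ b : ι → ZMod (p ^ (e1 + e2)),
        MP p (fun w : ι → ℤ_[p] => ind p m (G (fun i =>
          (d + (p : ℚ_[p]) ^ K' • up (A'.mulVec (lft p b))) i +
            (p : ℚ_[p]) ^ (K' + (e1 + e2)) * (w i : ℚ_[p])))) := by
    intro m
    have h1 := hB.lattice ι A' B' (e1 + e2) _ (lc_aff hG d ((p : ℚ_[p]) ^ K') 1 m) hAB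
    simp only [Matrix.one_mulVec] at h1
    convert h1 using 5 with z b _ w
    · rw [up_mulVec hA', smul_smul, pow_add]
    · congr 2
      ext i
      simp [up]
      ring
  simp only [key]
  refine H48N.Good.const_mul (H48N.Good.sum _ fun b _ => hK0 _ (by omega) _ ?_) _
  have e : d + (p : ℚ_[p]) ^ K' • up (A'.mulVec (lft p b)) - c =
      (d - c) + (p : ℚ_[p]) ^ K' • up (A'.mulVec (lft p b)) := by abel
  rw [e]
  refine (IsUltrametricDist.norm_add_le_max _ _).trans (max_le (hd.trans (anti (by omega))) ?_)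
  rw [norm_smul, Padic.norm_p_pow]
  exact (mul_le_of_le_one_right (by positivity) (norm_up_le _)).trans (anti hK')

/-- Small perturbations of the identity are isometries. -/
lemma isom (Ψ : (ι → ℚ_[p]) → ι → ℚ_[p]) (h0 : Ψ 0 = 0)
    (h : ∀ x y, ‖x‖ ≤ 1 → ‖y‖ ≤ 1 → ‖Ψ x - Ψ y - (x - y)‖ ≤ 1 / 2 * ‖x - y‖) :
    ∃ T : (ι → ℤ_[p]) → ι → ℤ_[p], (∀ z z', ‖T z - T z'‖ = ‖z - z'‖) ∧
      ∀ z, up (T z) = Ψ (up z) := by
  have h1 : ∀ x y, ‖x‖ ≤ 1 → ‖y‖ ≤ 1 → ‖Ψ x - Ψ y‖ = ‖x - y‖ := by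
    intro x y hx hy
    by_cases hxy : x = y
    · simp [hxy]
    have h2 : 0 < ‖x - y‖ := norm_pos_iff.2 (sub_ne_zero.2 hxy)
    have h3 : ‖Ψ x - Ψ y - (x - y)‖ < ‖x - y‖ := (h x y hx hy).trans_lt (by linarith)
    have h4 := IsUltrametricDist.norm_add_eq_max_of_norm_ne_norm h3.ne
    rwa [sub_add_cancel, max_eq_right h3.le] at h4
  have h2 : ∀ (z : ι → ℤ_[p]) i, ‖Ψ (up z) i‖ ≤ 1 := by
    intro z i
    have := h1 (up z) 0 (norm_up_le z) (by simp)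
    rw [h0, sub_zero, sub_zero] at this
    exact (norm_le_pi_norm _ i).trans (this.le.trans (norm_up_le z))
  refine ⟨fun z i => ⟨_, h2 z i⟩, fun z z' => ?_, fun z => rfl⟩
  rw [← norm_up, ← norm_up, up_sub, up_sub]
  exact h1 _ _ (norm_up_le z) (norm_up_le z')

/-- The straightening of a strictly differentiable map. -/
lemma key [DecidableEq ι] {Φ : (ι → ℚ_[p]) → ι → ℚ_[p]} {A : Matrix ι ι ℚ_[p]} {c : ι → ℚ_[p]}
    (hΦ : SD p Φ A c) {L M : Matrix ι ι ℚ_[p]} (h : M * A * L = 1) :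
    ∃ K0 : ℕ, ∀ K, K0 ≤ K → ∀ c' : ι → ℚ_[p], ‖c' - c‖ ≤ (p : ℝ) ^ (-(K0 : ℤ)) →
      ∃ T : (ι → ℤ_[p]) → ι → ℤ_[p], (∀ z z', ‖T z - T z'‖ = ‖z - z'‖) ∧
        ∀ z, M.mulVec (Φ (c' + (p : ℚ_[p]) ^ K • L.mulVec (up z)) - Φ c') =
          (p : ℚ_[p]) ^ K • up (T z) := by
  obtain ⟨CL, hCL, hL⟩ := bound L
  obtain ⟨CM, hCM, hM⟩ := bound M
  obtain ⟨δ, hδ, hd⟩ := hΦ (1 / (2 * CM * CL)) (by positivity)
  obtain ⟨K0, hK0⟩ := PadicInt.exists_pow_neg_lt p (ε := δ / (1 + CL)) (by positivity)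
  refine ⟨K0, fun K hK c' hc' => ?_⟩
  have hp0 : (0 : ℝ) < (p : ℝ) ^ (-(K : ℤ)) := zpow_pos (zero_lt_one.trans one_lt) _
  have hq : (p : ℚ_[p]) ^ K ≠ 0 := pow_ne_zero _ pne
  have near : ∀ x : ι → ℚ_[p], ‖x‖ ≤ 1 → ‖c' + (p : ℚ_[p]) ^ K • L.mulVec x - c‖ ≤ δ := by
    intro x hx
    have e : c' + (p : ℚ_[p]) ^ K • L.mulVec x - c = (c' - c) + (p : ℚ_[p]) ^ K • L.mulVec x := by
      abel
    rw [e]
    refine (norm_add_le _ _).trans ?_
    rw [norm_smul, Padic.norm_p_pow]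
    have h1 : ‖L.mulVec x‖ ≤ CL := (hL x).trans (mul_le_of_le_one_right hCL.le hx)
    have h2 := mul_le_mul (anti (p := p) hK) h1 (norm_nonneg _) (by positivity)
    rw [lt_div_iff₀ (by positivity)] at hK0
    nlinarith
  obtain ⟨T, hT, hT'⟩ := isom (fun x => ((p : ℚ_[p]) ^ K)⁻¹ •
      M.mulVec (Φ (c' + (p : ℚ_[p]) ^ K • L.mulVec x) - Φ c')) (by simp) (fun x y hx hy => by
    have h1 := hd _ _ (near x hx) (near y hy)
    have e1 : c' + (p : ℚ_[p]) ^ K • L.mulVec x - (c' + (p : ℚ_[p]) ^ K • L.mulVec y) =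
        (p : ℚ_[p]) ^ K • L.mulVec (x - y) := by
      rw [Matrix.mulVec_sub, smul_sub]
      abel
    rw [e1] at h1
    have e2 : ((p : ℚ_[p]) ^ K)⁻¹ • M.mulVec (Φ (c' + (p : ℚ_[p]) ^ K • L.mulVec x) - Φ c') -
        ((p : ℚ_[p]) ^ K)⁻¹ • M.mulVec (Φ (c' + (p : ℚ_[p]) ^ K • L.mulVec y) - Φ c') - (x - y) =
        ((p : ℚ_[p]) ^ K)⁻¹ • M.mulVec (Φ (c' + (p : ℚ_[p]) ^ K • L.mulVec x) -
          Φ (c' + (p : ℚ_[p]) ^ K • L.mulVec y) - A.mulVec ((p : ℚ_[p]) ^ K • L.mulVec (x - y))) := by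
      have e3 : M.mulVec (A.mulVec ((p : ℚ_[p]) ^ K • L.mulVec (x - y))) =
          (p : ℚ_[p]) ^ K • (x - y) := by
        rw [Matrix.mulVec_smul, Matrix.mulVec_smul, Matrix.mulVec_mulVec, Matrix.mulVec_mulVec, h,
          Matrix.one_mulVec]
      rw [Matrix.mulVec_sub M (_ - _), e3, smul_sub _ _ (_ • _), inv_smul_smul₀ hq, ← smul_sub,
        ← Matrix.mulVec_sub, sub_sub_sub_cancel_right]
    rw [e2, norm_smul, norm_inv, Padic.norm_p_pow, inv_mul_le_iff₀ hp0]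
    rw [norm_smul, Padic.norm_p_pow] at h1
    refine (hM _).trans ((mul_le_mul_of_nonneg_left h1 hCM.le).trans ?_)
    have h2 := hL (x - y)
    calc CM * (1 / (2 * CM * CL) * ((p : ℝ) ^ (-(K : ℤ)) * ‖L.mulVec (x - y)‖))
        ≤ CM * (1 / (2 * CM * CL) * ((p : ℝ) ^ (-(K : ℤ)) * (CL * ‖x - y‖))) := by gcongr
      _ = _ := by field_simp)
  exact ⟨T, hT, fun z => by rw [hT', smul_inv_smul₀ hq]⟩

lemma cont_at {Φ : (ι → ℚ_[p]) → ι → ℚ_[p]} {A : Matrix ι ι ℚ_[p]} {c : ι → ℚ_[p]}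
    (hΦ : SD p Φ A c) {η : ℝ} (hη : 0 < η) :
    ∃ K0 : ℕ, ∀ x, ‖x - c‖ ≤ (p : ℝ) ^ (-(K0 : ℤ)) → ‖Φ x - Φ c‖ ≤ η := by
  obtain ⟨C, hC, hA⟩ := bound A
  obtain ⟨δ, hδ, hd⟩ := hΦ 1 one_pos
  obtain ⟨K0, hK0⟩ := PadicInt.exists_pow_neg_lt p (ε := min δ (η / (1 + C))) (by positivity)
  refine ⟨K0, fun x hx => ?_⟩
  have h1 := hx.trans_lt hK0
  rw [lt_min_iff, lt_div_iff₀ (by positivity)] at h1
  have h2 := hd x c h1.1.le (by simpa using hδ.le)
  have h3 := norm_add_le (Φ x - Φ c - A.mulVec (x - c)) (A.mulVec (x - c))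
  rw [sub_add_cancel] at h3
  have h4 := hA (x - c)
  nlinarith [h1.2]

lemma strict (f : MvPolynomial ι ℚ) (c : ι → ℚ_[p]) :
    ∃ D : (ι → ℚ_[p]) →L[ℚ_[p]] ℚ_[p], HasStrictFDerivAt (fun x : ι → ℚ_[p] => aeval x f) D c ∧
      ∀ v, D v = ∑ a, aeval c (pderiv a f) * v a := by
  classical
  induction f using MvPolynomial.induction_on with
  | C a =>
    refine ⟨0, ?_, by simp⟩
    simp only [aeval_C]
    exact hasStrictFDerivAt_const _ c
  | add a b ha hb =>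
    obtain ⟨D, h1, h2⟩ := ha
    obtain ⟨D', h1', h2'⟩ := hb
    refine ⟨D + D', ?_, fun v => by simp [h2, h2', add_mul, sum_add_distrib]⟩
    simp only [map_add]
    exact h1.add h1'
  | mul_X a j ha =>
    obtain ⟨D, h1, h2⟩ := ha
    have h3 := h1.mul (ContinuousLinearMap.proj j : (ι → ℚ_[p]) →L[ℚ_[p]] ℚ_[p]).hasStrictFDerivAt
    refine ⟨aeval c a • ContinuousLinearMap.proj j + c j • D, ?_, fun v => ?_⟩
    · simp only [map_mul, aeval_X]
      exact h3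
    · simp only [Derivation.leibniz, smul_eq_mul, map_add, map_mul, add_mul, sum_add_distrib,
        aeval_X, pderiv_X, ContinuousLinearMap.proj_apply, _root_.add_apply,
        _root_.smul_apply, h2, mul_sum, mul_assoc]
      congr 1
      rw [sum_eq_single j] <;> simp +contextual [eq_comm]

end CV

open CV

theorem polyS : PolyStmt p := by
  intro I _ Φ c ε hε
  choose D hD hD' using fun i => strict (Φ i) c
  have h := (hasStrictFDerivAt_pi.2 hD).isLittleO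
  obtain ⟨δ, hδ, hd⟩ := Metric.eventually_nhds_iff.1 (Asymptotics.isLittleO_iff.1 h hε)
  refine ⟨δ / 2, by positivity, fun x y hx hy => ?_⟩
  have h1 := @hd (x, y) (by
    rw [Prod.dist_eq, dist_eq_norm, dist_eq_norm]
    exact max_lt (by linarith) (by linarith))
  have e : ((jacM Φ).map (aeval c)).mulVec (x - y) = ContinuousLinearMap.pi D (x - y) := by
    ext i
    rw [ContinuousLinearMap.pi_apply, hD']
    rfl
  rw [e]
  exact h1

theorem cv1 (hA : MA p) (hB : MB p) : CV1Stmt p := by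
  intro ι _ _ l Φ A c G hG hdet hΦ h
  have hu : IsUnit A.det := hdet.isUnit
  obtain ⟨K1, hK1⟩ := lat hB hG (Matrix.mul_nonsing_inv A hu) h
  obtain ⟨K2, hK2⟩ := key hΦ (L := 1) (M := A⁻¹) (by rw [mul_one, Matrix.nonsing_inv_mul A hu])
  obtain ⟨K3, hK3⟩ := cont_at hΦ (η := (p : ℝ) ^ (-(K1 : ℤ))) (zpow_pos (zero_lt_one.trans one_lt) _)
  refine ⟨K1 + K2 + K3, fun K hK c' hc' => ?_⟩
  obtain ⟨T, hT, hT'⟩ := hK2 K (by omega) c' (hc'.trans (anti (by omega)))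
  have h1 := hK1 K (by omega) (Φ c') (hK3 c' (hc'.trans (anti (by omega))))
  unfold GC
  convert h1 using 2 with m
  rw [← hA.iso ι _ T (lc_aff hG (Φ c') _ A m) hT]
  congr 1
  ext z
  have h2 := congrArg A.mulVec (hT' z)
  rw [Matrix.mulVec_mulVec, Matrix.mul_nonsing_inv A hu, Matrix.one_mulVec, Matrix.one_mulVec,
    Matrix.mulVec_smul] at h2
  rw [← h2, add_sub_cancel]
  rfl

theorem cv2 (hA : MA p) (hB : MB p) : CV2Stmt p := by
  intro ι _ _ l Φ A c G hG hc hdet hΦ h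
  have hu : IsUnit A.det := hdet.isUnit
  obtain ⟨K1, hK1⟩ := lat hB (hG.comp hc) (Matrix.nonsing_inv_mul A hu) h
  obtain ⟨K2, hK2⟩ := key hΦ (L := A⁻¹) (M := 1) (by rw [one_mul, Matrix.mul_nonsing_inv A hu])
  refine ⟨K1 + K2, ?_⟩
  obtain ⟨T, hT, hT'⟩ := hK2 (K1 + K2) (by omega) c (by simp)
  have h1 := hK1 (K1 + K2) (by omega) c (by simp)
  unfold GC
  convert h1 using 2 with m
  have h2 := hA.iso ι _ T (lc_aff hG (Φ c) ((p : ℚ_[p]) ^ (K1 + K2)) 1 m) hT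
  simp only [Matrix.one_mulVec] at h2 hT'
  refine Eq.trans h2.symm ?_
  congr 1
  ext z
  rw [← hT', add_sub_cancel]
  rfl

theorem smoothS (h1 : CV1Stmt p) (h2 : LinStmt p) (h3 : PolyStmt p) : SmoothStmt p := by
  intro ι _ l f a i hl hf
  classical
  have e : (jacM (Function.update X i f)).map (aeval a) =
      (1 : Matrix ι ι ℚ_[p]).updateRow i (fun j => aeval a (pderiv j f)) := by
    ext k j
    by_cases hk : k = i
    · subst hk
      simp [jacM]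
    · rw [Matrix.updateRow_ne hk]
      by_cases hj : k = j
      · subst hj
        simp [jacM, hk]
      · simp [jacM, hk, hj]
  have hd : ((jacM (Function.update X i f)).map (aeval a)).det ≠ 0 := by
    rw [e, ← Matrix.cramer_transpose_apply, Matrix.transpose_one, Matrix.cramer_one]
    exact hf
  have := h1 ι l _ _ a (fun x => x i) (continuous_apply i) hd (h3 ι (Function.update X i f) a)
    (h2 ι l i _ hl)
  simpa using this

end Pool.Agent.MP_5d9b3c_ag.H69
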