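import Pool.Agent.MP_5d9b3c_ag.H69.Basic

/-!
Descent of the functional equation along a map with invertible Jacobian at a point.
-/

namespace Pool.Agent.MP_5d9b3c_ag.H69

open Finset MvPolynomial

namespace Desc

section Newton

variable {I R : Type} [CommRing R] [Algebra ℚ R]

lemma cong {𝔟 : Ideal R} {ζ ζ' : I → R} (h : ∀ a, ζ a - ζ' a ∈ 𝔟) (P : MvPolynomial I ℚ) :
    aeval ζ P - aeval ζ' P ∈ 𝔟 := by
  induction P using MvPolynomial.induction_on with
  | C a => simp
  | add P Q hP hQ =>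
    convert 𝔟.add_mem hP hQ using 1
    simp only [map_add]; ring
  | mul_X P j hP =>
    convert 𝔟.add_mem (𝔟.mul_mem_right (ζ j) hP) (𝔟.mul_mem_left (aeval ζ' P) (h j)) using 1
    simp only [map_mul, aeval_X]; ring

variable [Fintype I] [DecidableEq I]

lemma taylor {𝔟 : Ideal R} (ζ : I → R) {ε : I → R} (h : ∀ a, ε a ∈ 𝔟) (P : MvPolynomial I ℚ) :
    aeval (ζ + ε) P - aeval ζ P - ∑ a, aeval ζ (pderiv a P) * ε a ∈ 𝔟 * 𝔟 := by
  induction P using MvPolynomial.induction_on with
  | C a => simp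
  | add P Q hP hQ =>
    convert (𝔟 * 𝔟).add_mem hP hQ using 1
    simp only [map_add, add_mul, sum_add_distrib]; ring
  | mul_X P j hP =>
    have h1 : aeval (ζ + ε) P - aeval ζ P ∈ 𝔟 := cong (fun a => by simpa using h a) P
    convert (𝔟 * 𝔟).add_mem ((𝔟 * 𝔟).mul_mem_right (ζ j) hP) (Ideal.mul_mem_mul h1 (h j)) using 1
    have h2 : ∑ a, aeval ζ (pderiv a (P * X j)) * ε a =
        aeval ζ P * ε j + (∑ a, aeval ζ (pderiv a P) * ε a) * ζ j := by
      simp only [Derivation.leibniz, smul_eq_mul, map_add, map_mul, aeval_X, add_mul,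
        sum_add_distrib, sum_mul, pderiv_X]
      congr 1
      · rw [sum_eq_single j] <;> simp +contextual [eq_comm]
      · exact sum_congr rfl fun a _ => by ring
    rw [h2]
    simp only [map_mul, aeval_X, Pi.add_apply]; ring

lemma newton {𝔪 : Ideal R} (Φ : I → MvPolynomial I ℚ) (ζ0 y : I → R)
    (h0 : ∀ i, aeval ζ0 (Φ i) - y i ∈ 𝔪) (hJ : IsUnit (aeval ζ0 (jacM Φ).det)) (n : ℕ) :
    ∃ ζ : I → R, (∀ a, ζ a - ζ0 a ∈ 𝔪) ∧ ∀ i, aeval ζ (Φ i) - y i ∈ 𝔪 ^ (n + 1) := by
  induction n with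
  | zero => exact ⟨ζ0, fun a => by simp, by simpa using h0⟩
  | succ n ih =>
    obtain ⟨ζ, h1, h2⟩ := ih
    rw [AlgHom.map_det] at hJ
    let A : Matrix I I R := (aeval ζ0 : MvPolynomial I ℚ →ₐ[ℚ] R).mapMatrix (jacM Φ)
    let δ : I → R := fun i => aeval ζ (Φ i) - y i
    let ε : I → R := -(A⁻¹.mulVec δ)
    have hε : ∀ a, ε a ∈ 𝔪 ^ (n + 1) := fun a =>
      neg_mem (Ideal.sum_mem _ fun i _ => Ideal.mul_mem_left _ _ (h2 i))
    have hA : A.mulVec ε = -δ := by
      rw [Matrix.mulVec_neg, Matrix.mulVec_mulVec, Matrix.mul_nonsing_inv _ hJ, Matrix.one_mulVec]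
    have hle : 𝔪 ^ (n + 1) ≤ 𝔪 := Ideal.pow_le_self (Nat.succ_ne_zero n)
    refine ⟨ζ + ε, fun a => ?_, fun i => ?_⟩
    · convert 𝔪.add_mem (h1 a) (hle (hε a)) using 1
      rw [Pi.add_apply]; ring
    · have h3 : aeval (ζ + ε) (Φ i) - aeval ζ (Φ i) - ∑ a, aeval ζ (pderiv a (Φ i)) * ε a ∈
          𝔪 ^ (n + 1 + 1) := by
        rw [pow_succ]
        exact Ideal.mul_mono_right hle (taylor ζ hε (Φ i))
      have h4 : ∑ a, (aeval ζ (pderiv a (Φ i)) - aeval ζ0 (pderiv a (Φ i))) * ε a ∈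
          𝔪 ^ (n + 1 + 1) := by
        rw [pow_succ']
        exact Ideal.sum_mem _ fun a _ => Ideal.mul_mem_mul (cong h1 _) (hε a)
      have h5 : ∑ a, aeval ζ0 (pderiv a (Φ i)) * ε a = -(aeval ζ (Φ i) - y i) := congrFun hA i
      convert Ideal.add_mem _ h3 h4 using 1
      simp only [sub_mul, sum_sub_distrib, h5]; ring

end Newton

/-- Approximate relations give an exact relation. -/
lemma krull {R E J : Type} [CommRing R] [IsNoetherianRing R] [Fintype E] [Fintype J] (𝔪 : Ideal R)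
    (v : E → R) (q : J → E → R) (H : ∀ n : ℕ, ∃ (u : R) (σ : J → R), 1 - u ∈ 𝔪 ∧
      ∀ m, u * v m - ∑ i, σ i * q i m ∈ 𝔪 ^ n) :
    ∃ r ∈ 𝔪, ∃ ρ : J → R, ∀ m, (1 - r) * v m = ∑ i, ρ i * q i m := by
  classical
  let Q := Submodule.span R (Set.range q)
  have h1 : Q.mkQ v ∈ (⨅ n : ℕ, 𝔪 ^ n • ⊤ : Submodule R ((E → R) ⧸ Q)) := by
    refine (Submodule.mem_iInf _).2 fun n => ?_
    obtain ⟨u, σ, hu, h⟩ := H n
    have h2 : Q.mkQ (u • v - ∑ i, σ i • q i) ∈ (𝔪 ^ n • ⊤ : Submodule R ((E → R) ⧸ Q)) := by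
      rw [pi_eq_sum_univ' (u • v - ∑ i, σ i • q i), map_sum]
      refine Submodule.sum_mem _ fun m _ => ?_
      rw [map_smul]
      refine Submodule.smul_mem_smul ?_ Submodule.mem_top
      simpa using h m
    have h3 : Q.mkQ (∑ i, σ i • q i) = 0 := (Submodule.Quotient.mk_eq_zero _).2
      (Submodule.sum_mem _ fun i _ => Q.smul_mem _ (Submodule.subset_span ⟨i, rfl⟩))
    rw [map_sub, h3, sub_zero, map_smul] at h2
    have h4 : (1 : R) = (1 - u) ^ n + (∑ i ∈ range n, (1 - u) ^ i) * u := by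
      linear_combination geom_sum_mul (1 - u) n
    rw [← one_smul R (Q.mkQ v), h4, add_smul, mul_smul]
    exact Submodule.add_mem _ (Submodule.smul_mem_smul (Ideal.pow_mem_pow hu n) Submodule.mem_top)
      (Submodule.smul_mem _ _ h2)
  obtain ⟨r, hr⟩ := (𝔪.mem_iInf_smul_pow_eq_bot_iff _).1 h1
  have h2 : (1 - r.1) • v ∈ Q := by
    rw [← Submodule.Quotient.mk_eq_zero, ← Submodule.mkQ_apply, map_smul, sub_smul, hr, one_smul,
      sub_self]
  obtain ⟨ρ, hρ⟩ := (Submodule.mem_span_range_iff_exists_fun R).1 h2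
  exact ⟨r, r.2, ρ, fun m => by simpa using (congrFun hρ m).symm⟩

/-- Finitely many rows control all linear relations. -/
lemma rows {R J : Type} [CommRing R] [IsNoetherianRing R] [Fintype J] (w : ℕ → J → R) :
    ∃ n : ℕ, ∀ l : J → R, (∀ m : Fin n, l ⬝ᵥ w m = 0) → ∀ m, l ⬝ᵥ w m = 0 := by
  obtain ⟨n, hn⟩ := monotone_stabilizes_iff_noetherian.2 (inferInstance : IsNoetherian R (J → R))
    ⟨fun n => Submodule.span R (w '' Set.Iio n), fun a b h =>
      Submodule.span_mono (Set.image_mono (Set.Iio_subset_Iio h))⟩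
  refine ⟨n, fun l hl m => ?_⟩
  have h1 : w m ∈ Submodule.span R (w '' Set.Iio n) := by
    rw [show Submodule.span R (w '' Set.Iio n) = _ from hn (n + m + 1) (by omega)]
    exact Submodule.subset_span ⟨m, by simp only [Set.mem_Iio]; omega, rfl⟩
  have h2 : Submodule.span R (w '' Set.Iio n) ≤ LinearMap.ker (dotProductBilin R R l) := by
    rw [Submodule.span_le]
    rintro _ ⟨j, hj, rfl⟩
    exact hl ⟨j, hj⟩
  exact h2 h1

section Down

variable {I L : Type} [Field L] [Algebra ℚ L]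

/-- A functional applied to the coefficients. -/
noncomputable def dn (π : L →ₗ[ℚ] ℚ) (s : MvPolynomial I L) : MvPolynomial I ℚ :=
  ∑ d ∈ s.support, monomial d (π (coeff d s))

lemma coeff_dn (π : L →ₗ[ℚ] ℚ) (s : MvPolynomial I L) (d : I →₀ ℕ) :
    coeff d (dn π s) = π (coeff d s) := by
  classical
  rw [dn, coeff_sum]
  simp only [coeff_monomial, sum_ite_eq']
  split_ifs with h
  · rfl
  · rw [notMem_support_iff.1 h, map_zero]

lemma coeff_dn_mul (π : L →ₗ[ℚ] ℚ) (s : MvPolynomial I L) (g : MvPolynomial I ℚ) (d : I →₀ ℕ) :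
    coeff d (dn π s * g) = π (coeff d (s * map (algebraMap ℚ L) g)) := by
  classical
  rw [coeff_mul, coeff_mul, map_sum]
  refine sum_congr rfl fun x _ => ?_
  rw [coeff_dn, coeff_map, mul_comm (coeff x.1 s), ← Algebra.smul_def, map_smul, smul_eq_mul,
    mul_comm]

lemma sum_mul_eq_zero {D : Type} (s : Finset D) (a y : D → L)
    (h : ∀ π : L →ₗ[ℚ] ℚ, ∑ d ∈ s, π (a d) • y d = 0) : ∑ d ∈ s, a d * y d = 0 := by
  classical
  have h1 : ∑ d ∈ s, a d ⊗ₜ[ℚ] y d = 0 := by
    apply (TensorProduct.equivFinsuppOfBasisLeft (Module.Basis.ofVectorSpace ℚ L)).injective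
    ext i
    rw [map_sum, map_zero, Finsupp.finsetSum_apply]
    simp only [TensorProduct.equivFinsuppOfBasisLeft_apply_tmul_apply]
    exact h ((Module.Basis.ofVectorSpace ℚ L).coord i)
  simpa using congrArg (LinearMap.mul' ℚ L) h1

lemma exists_dn {x : I → L} {s : MvPolynomial I L} (h : eval x s ≠ 0) :
    ∃ π : L →ₗ[ℚ] ℚ, aeval x (dn π s) ≠ 0 := by
  by_contra hc
  push Not at hc
  refine h ?_
  rw [eval_eq]
  refine sum_mul_eq_zero _ _ _ fun π => ?_
  rw [← hc π, dn, map_sum]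
  refine sum_congr rfl fun d _ => ?_
  rw [aeval_monomial, Algebra.smul_def]; rfl

lemma aeval_X_eq (g : MvPolynomial I ℚ) :
    aeval (X : I → MvPolynomial I L) g = map (algebraMap ℚ L) g := by
  induction g using MvPolynomial.induction_on <;> simp [*]

lemma aeval_C_eq (c : I → L) (g : MvPolynomial I ℚ) :
    aeval (fun a => (C (c a) : MvPolynomial I L)) g = C (aeval c g) :=
  aeval_algebraMap_apply (MvPolynomial I L) c g

end Down

lemma chain {I : Type} [Fintype I] (Φ : I → MvPolynomial I ℚ) (a : I) (g : MvPolynomial I ℚ) :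
    pderiv a (aeval Φ g) = ∑ i, pderiv a (Φ i) * aeval Φ (pderiv i g) := by
  classical
  induction g using MvPolynomial.induction_on with
  | C a => simp
  | add P Q hP hQ => simp only [map_add, hP, hQ, mul_add, sum_add_distrib]
  | mul_X P j hP =>
    simp only [Derivation.leibniz, smul_eq_mul, map_add, map_mul, aeval_X, hP, mul_add,
      sum_add_distrib, mul_sum, pderiv_X]
    congr 1
    · rw [sum_eq_single j] <;> simp +contextual [mul_comm, eq_comm]
    · exact sum_congr rfl fun a _ => by ring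

lemma closed_span {I : Type} [Fintype I] (Φ : I → MvPolynomial I ℚ)
    {N : Submodule (MvPolynomial I ℚ) (ℕ → MvPolynomial I ℚ)} (hN : Closed (K := ℚ) Set.univ N) :
    Closed (K := ℚ) Set.univ (Submodule.span (MvPolynomial I ℚ)
      {w | ∃ q ∈ N, w = fun m => aeval Φ (q m)}) := by
  refine closed_of_pderiv (fun a w hw => ?_) fun w hw => ?_
  · induction hw using Submodule.span_induction with
    | mem w h =>
      obtain ⟨q, hq, rfl⟩ := h
      have := Submodule.sum_mem _ (t := univ) fun i _ => mul_mem (pderiv a (Φ i))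
        (Submodule.subset_span (R := MvPolynomial I ℚ)
          (s := {w | ∃ q ∈ N, w = fun m => aeval Φ (q m)}) ⟨_, hN.der (pderiv i) trivial q hq, rfl⟩)
      convert this using 1
      ext1 m
      rw [chain, Finset.sum_apply]
    | zero => simp only [Pi.zero_apply, map_zero]; exact Submodule.zero_mem _
    | add x y _ _ hx hy => simp only [Pi.add_apply, map_add]; exact Submodule.add_mem _ hx hy
    | smul r x hx' hx =>
      convert Submodule.add_mem _ (mul_mem r hx) (mul_mem (pderiv a r) hx') using 1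
      ext1 m
      simp [mul_comm]
  · induction hw using Submodule.span_induction with
    | mem w h =>
      obtain ⟨q, hq, rfl⟩ := h
      exact Submodule.subset_span ⟨_, hN.par q hq, by ext1 m; simp⟩
    | zero => simp only [Pi.zero_apply, mul_zero]; exact Submodule.zero_mem _
    | add x y _ _ hx hy => simp only [Pi.add_apply, mul_add]; exact Submodule.add_mem _ hx hy
    | smul r x _ hx =>
      convert mul_mem r hx using 1
      ext1 m
      simp [mul_left_comm]

end Desc

open Desc in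
theorem descS : DescStmt := by
  intro I L _ _ _ _ Φ c F h b hJ hh H
  have h1 := Cl.le (closed_span Φ (Cl.closed (𝒱 := Set.univ) (g := fun m => F ^ (m + 1))))
    (g := fun m => aeval Φ F ^ (m + 1))
    (Submodule.subset_span ⟨_, Cl.self, by ext1 m; rw [map_pow]⟩) H
  obtain ⟨e, σ, g, hg⟩ := Submodule.mem_span_set'.1 h1
  choose q hq hgq using fun i => (g i).2
  let v : ℕ → MvPolynomial I ℚ := fun m => b.eval (m : ℚ) • F ^ m
  have h2 : ∀ m, h * aeval Φ (v m) = ∑ i, σ i * aeval Φ (q i m) := fun m => by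
    have := congrFun hg m
    simp only [Finset.sum_apply, Pi.smul_apply, smul_eq_mul, hgq] at this
    rw [this, map_smul, map_pow, mul_smul_comm]
  obtain ⟨n0, hn0⟩ := rows fun m (o : Option (Fin e)) => o.elim (v m) fun i => q i m
  let 𝔪 : Ideal (MvPolynomial I L) := RingHom.ker (eval fun i => aeval c (Φ i))
  obtain ⟨r, hr, ρ, hρ⟩ := krull 𝔪 (fun m : Fin n0 => map (algebraMap ℚ L) (v m))
    (fun i m => map (algebraMap ℚ L) (q i m)) fun n => by
      obtain ⟨ζ, h3, h4⟩ := newton (𝔪 := 𝔪) Φ (fun a => C (c a)) X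
        (fun i => by rw [aeval_C_eq, RingHom.mem_ker, map_sub, eval_C, eval_X, sub_self])
        (by rw [aeval_C_eq]; exact hJ.isUnit.map C) n
      have h5 : ∀ P, aeval ζ (aeval Φ P) - map (algebraMap ℚ L) P ∈ 𝔪 ^ n := fun P => by
        rw [comp_aeval_apply, ← aeval_X_eq]
        exact Ideal.pow_le_pow_right (Nat.le_succ n) (cong h4 P)
      refine ⟨C (aeval c h)⁻¹ * aeval ζ h, fun i => C (aeval c h)⁻¹ * aeval ζ (σ i), ?_,
        fun m => ?_⟩
      · have h6 := 𝔪.mul_mem_left (-C (aeval c h)⁻¹) (cong h3 h)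
        rw [aeval_C_eq] at h6
        convert h6 using 1
        have h7 : (C (aeval c h)⁻¹ * C (aeval c h) : MvPolynomial I L) = 1 := by
          rw [← C_mul, inv_mul_cancel₀ hh, C_1]
        linear_combination -h7
      · have h6 := congrArg (aeval ζ) (h2 m)
        rw [map_mul, map_sum] at h6
        have h7 := (𝔪 ^ n).mul_mem_left (C (aeval c h)⁻¹) (Ideal.sub_mem _
          (Ideal.sum_mem _ fun i (_ : i ∈ univ) => Ideal.mul_mem_left _ (aeval ζ (σ i)) (h5 (q i m)))
          (Ideal.mul_mem_left _ (aeval ζ h) (h5 (v m))))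
        convert h7 using 1
        simp only [mul_sub, sum_sub_distrib, h6, map_mul, mul_assoc, ← mul_sum]
        ring
  obtain ⟨π, hπ⟩ := exists_dn (x := fun i => aeval c (Φ i)) (s := 1 - r) (by
    rw [map_sub, map_one, show eval _ r = 0 from hr, sub_zero]; exact one_ne_zero)
  refine ⟨_, hπ, ?_⟩
  have h3 := hn0 (fun o => o.elim (dn π (1 - r)) fun i => -dn π (ρ i)) fun m => by
    simp only [dotProduct, Fintype.sum_option, Option.elim, neg_mul, sum_neg_distrib]
    rw [← sub_eq_add_neg, sub_eq_zero]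
    ext d
    rw [coeff_dn_mul, hρ m, coeff_sum, coeff_sum, map_sum]
    simp only [coeff_dn_mul]
  have h4 := Submodule.sum_mem _ (t := univ) fun i _ => mul_mem (dn π (ρ i)) (hq i)
  unfold LB
  convert h4 using 1
  ext1 m
  have h5 := h3 m
  simp only [dotProduct, Fintype.sum_option, Option.elim, neg_mul, sum_neg_distrib] at h5
  rw [Finset.sum_apply, ← mul_smul_comm]
  exact add_neg_eq_zero.1 h5

end Pool.Agent.MP_5d9b3c_ag.H69
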