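import Pool.Agent.Results.MP_5d9b3c_ag.LocallyNondegenerate

/-!
The degenerate polynomial `(x ^ 2 + y ^ 3 + z ^ 5) ^ 2 + x ^ 7`, whose singular locus is a curve,
has a nondegenerate chart at every point.
-/

namespace Pool.Agent.MP_5d9b3c_ag.H69.Example

open Finset MvPolynomial Pool.Agent.MP_5d9b3c_ag.H48L

/-- The variables of the chart. -/
abbrev V : Type := (Fin 3 ⊕ Fin 0 ⊕ Fin 0 ⊕ Fin 0) ⊕ Fin 1

/-- The three original variables. -/
abbrev o (i : Fin 3) : V := Sum.inl (Sum.inl i)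

/-- The new variable. -/
abbrev v : V := Sum.inr 0

/-- The example. -/
noncomputable def f : MvPolynomial (Fin 3) ℤ := (X 0 ^ 2 + X 1 ^ 3 + X 2 ^ 5) ^ 2 + X 0 ^ 7

lemma wc_pow (w : V → ℕ) (μ : ℕ) (i : V) (n : ℕ) : ∃ ε : ℂ, (ε = 1 ∨ ε = 0) ∧
    wc w μ (X i ^ n : MvPolynomial V ℂ) = C ε * X i ^ n := by
  rw [X_pow_eq_monomial, wc_monomial]
  split_ifs
  · exact ⟨1, Or.inl rfl, by simp⟩
  · exact ⟨0, Or.inr rfl, by simp⟩

lemma fc_ne (w : V → ℕ) {q : MvPolynomial V ℂ} (hq : q ≠ 0) :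
    ∃ μ, fc w q = wc w μ q ∧ wc w μ q ≠ 0 := by
  obtain ⟨μ, -, ⟨α, h1, h2⟩, h3⟩ := exists_fc w hq
  exact ⟨μ, h3, ne_zero_iff.2 ⟨α, by rw [coeff_wc, if_pos h2]; exact mem_support_iff.1 h1⟩⟩

lemma alg {a1 a2 b1 b2 b3 b4 s t x y z u : ℂ} (ha1 : a1 = 1 ∨ a1 = 0) (ha2 : a2 = 1 ∨ a2 = 0)
    (hb1 : b1 = 1 ∨ b1 = 0) (hb2 : b2 = 1 ∨ b2 = 0) (ha : ¬ (a1 = 0 ∧ a2 = 0))
    (hb : ¬ (b1 = 0 ∧ b2 = 0 ∧ b3 = 0 ∧ b4 = 0)) (hx : x ≠ 0) (hy : y ≠ 0) (hz : z ≠ 0)
    (hu : u ≠ 0) (hst : ¬ (s = 0 ∧ t = 0)) (h1 : s ≠ 0 → a1 * u ^ 2 + a2 * x ^ 7 = 0)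
    (h2 : t ≠ 0 → b1 * u - (b2 * x ^ 2 + b3 * y ^ 3 + b4 * z ^ 5) = 0)
    (dx : s * (a2 * (7 * x ^ 6)) - t * (b2 * (2 * x)) = 0) (dy : t * (b3 * y ^ 2) = 0)
    (dz : t * (b4 * z ^ 4) = 0) (du : s * (a1 * (2 * u)) + t * b1 = 0) : False := by
  by_cases ht : t = 0
  · have hs : s ≠ 0 := fun h => hst ⟨h, ht⟩
    exact ha ⟨by simpa [ht, hs, hu] using du, by simpa [ht, hs, hx] using dx⟩
  have h3 : b3 = 0 := by simpa [ht, hy] using dy
  have h4 : b4 = 0 := by simpa [ht, hz] using dz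
  have h5 := h2 ht
  rcases hb1 with rfl | rfl <;> rcases hb2 with rfl | rfl
  · have h6 : u = x ^ 2 := by linear_combination h5 + y ^ 3 * h3 + z ^ 5 * h4
    have hs : s ≠ 0 := by
      rintro rfl
      exact ht (by simpa using du)
    have h7 := h1 hs
    rcases ha1 with rfl | rfl <;> rcases ha2 with rfl | rfl
    · have h8 : s * x ^ 4 * 3 = 0 := by
        subst h6
        linear_combination (-x) * dx - 2 * x ^ 2 * du + 7 * s * h7
      simp [hs, hx] at h8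
    · simp [hu] at h7
    · simp [hx] at h7
    · exact ha ⟨rfl, rfl⟩
  · simp [h3, h4, hu] at h5
  · simp [h3, h4, hx] at h5
  · exact hb ⟨rfl, rfl, h3, h4⟩

/-- The system `v ^ 2 + x ^ 7`, `v - (x ^ 2 + y ^ 3 + z ^ 5)` is nondegenerate. -/
lemma nrel (w : V → ℕ) (x : V → ℂ) (hx : ∀ i, x i ≠ 0) (e : Option (Fin 1) → MvPolynomial V ℂ)
    (e0 : e none = X v ^ 2 + X (o 0) ^ 7)
    (e1 : e (some 0) = X v ^ 1 - (X (o 0) ^ 2 + X (o 1) ^ 3 + X (o 2) ^ 5)) :
    NRel Set.univ w x e := by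
  intro y hy hz
  by_contra hc
  push Not at hc
  obtain ⟨μ, h1, h2⟩ := fc_ne w (q := e none) (fun h => by
    simpa [e0] using congrArg (eval fun i => if i = v then (1 : ℂ) else 0) h)
  obtain ⟨ν, h3, h4⟩ := fc_ne w (q := e (some 0)) (fun h => by
    simpa [e1] using congrArg (eval fun i => if i = v then (1 : ℂ) else 0) h)
  obtain ⟨a1, ha1, k1⟩ := wc_pow w μ v 2
  obtain ⟨a2, ha2, k2⟩ := wc_pow w μ (o 0) 7
  obtain ⟨b1, hb1, k3⟩ := wc_pow w ν v 1
  obtain ⟨b2, hb2, k4⟩ := wc_pow w ν (o 0) 2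
  obtain ⟨b3, -, k5⟩ := wc_pow w ν (o 1) 3
  obtain ⟨b4, -, k6⟩ := wc_pow w ν (o 2) 5
  rw [e0, map_add, k1, k2, ← e0] at h1
  rw [e0, map_add, k1, k2] at h2
  rw [e1, map_sub, map_add, map_add, k3, k4, k5, k6, ← e1] at h3
  rw [e1, map_sub, map_add, map_add, k3, k4, k5, k6] at h4
  simp only [Fintype.sum_option, Fintype.sum_unique, Fin.default_eq_zero, h1, h3, map_add,
    map_sub, pderiv_C_mul, map_mul, eval_C] at hc
  refine alg (s := y none) (t := y (some 0)) (b3 := b3) (b4 := b4) ha1 ha2 hb1 hb2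
    (fun h => h2 (by simp [h.1, h.2])) (fun h => h4 (by simp [h.1, h.2.1, h.2.2.1, h.2.2.2]))
    (hx (o 0)) (hx (o 1)) (hx (o 2)) (hx v) (fun h => hy ?_) (fun h => ?_) (fun h => ?_)
    ?_ ?_ ?_ ?_
  · ext (_ | i)
    · exact h.1
    · rw [Subsingleton.elim i 0]
      exact h.2
  · simpa only [h1, map_add, map_mul, map_pow, eval_C, eval_X] using (hz none h).2
  · simpa only [h3, map_add, map_sub, map_mul, map_pow, eval_C, eval_X, pow_one]
      using (hz (some 0) h).2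
  · have := hc (o 0)
    simp at this
    linear_combination this
  · simpa using hc (o 1)
  · simpa using hc (o 2)
  · have := hc v
    simp at this
    linear_combination this

open Pool.Agent.Results.MP_5d9b3c_ag.LocallyNondegenerate

lemma of_nrel {σ I K : Type} [Fintype σ] [Fintype I] [Field K] (E : AlgebraicClosure K ≃+* ℂ)
    (c : σ → K) {e : I → MvPolynomial σ K}
    (h : ∀ (w : σ → ℕ) (x : σ → ℂ), (∀ i, x i ≠ 0) →
      NRel Set.univ w x (fun o => map (E.toRingHom.comp (algebraMap K _)) (e o))) :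
    NondegenerateAt c e := by
  classical
  intro w x _ hx _
  have key : ∀ q : MvPolynomial σ K, eval (fun i => E (x i))
      (map (E.toRingHom.comp (algebraMap K _)) q) = E (aeval x q) := fun q => by
    induction q using MvPolynomial.induction_on with
    | C r => simp
    | add p q hp hq => simp only [map_add, hp, hq]
    | mul_X p i hp => rw [map_mul, map_mul, map_mul, map_mul, hp]; simp
  refine Fintype.linearIndependent_iff.2 fun g hg o => ?_
  by_contra ho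
  obtain ⟨t, ht⟩ := h w (fun i => E (x i)) (fun i => by simpa using hx i)
    (fun o => if h : aeval x (face w (e o)) = 0 then E (g ⟨o, h⟩) else 0)
    (fun h0 => ho (by simpa [o.2] using congrFun h0 o.1))
    (fun o' ho' => ⟨trivial, by
      rw [map_face, key, map_eq_zero]
      by_contra h1
      exact ho' (dif_neg h1)⟩)
  refine ht ?_
  have h2 := congrArg E (congrFun hg t)
  rw [Finset.sum_apply, Pi.zero_apply, map_zero, map_sum] at h2
  simp only [map_face, pderiv_map, key]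
  refine Eq.trans ?_ h2
  rw [← Finset.sum_filter_of_ne (p := fun o => aeval x (face w (e o)) = 0)
    (fun o _ ho => by
      by_contra h1
      exact ho (by rw [dif_neg h1, zero_mul])),
    ← Finset.sum_subtype_eq_sum_filter, Finset.subtype_univ]
  exact sum_congr rfl fun o _ => by simp [o.2]

variable {p : ℕ} [hp : Fact p.Prime]

/-- The example has a chart at every point. -/
theorem hasChart (a : Fin 3 → ℤ_[p]) : HasChart (stabilise f 0 0) (Sum.elim a 0) := by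
  obtain ⟨E⟩ := exists_emb p
  refine ⟨1, Sum.elim (fun s => (Sum.elim a 0 s : ℤ_[p]))
    (fun _ => (a 0 : ℚ_[p]) ^ 2 + (a 1 : ℚ_[p]) ^ 3 + (a 2 : ℚ_[p]) ^ 5), fun s => X (Sum.inl s),
    fun _ => X v - (X (o 0) ^ 2 + X (o 1) ^ 3 + X (o 2) ^ 5), X v ^ 2 + X (o 0) ^ 7, 1,
    fun i => by simp, fun s => by simp, ?_, by simp, ?_,
    of_nrel E _ fun w x hx => nrel w x hx _ (by simp) (by simp)⟩
  · rw [← Matrix.fromBlocks_toBlocks (Matrix.of _)]
    have h1 : ∀ M : Matrix V V ℚ_[p], M.toBlocks₁₁ = 1 → M.toBlocks₁₂ = 0 → M.toBlocks₂₂ = 1 →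
        (Matrix.fromBlocks M.toBlocks₁₁ M.toBlocks₁₂ M.toBlocks₂₁ M.toBlocks₂₂).det ≠ 0 := by
      intro M h1 h2 h3
      rw [h1, h2, h3, Matrix.det_fromBlocks_zero₁₂]
      simp
    refine h1 _ ?_ ?_ ?_
    · ext s t
      simp [Matrix.toBlocks₁₁, Pi.single_apply, Matrix.one_apply, apply_ite, eq_comm]
    · ext s t
      simp [Matrix.toBlocks₁₂]
    · ext s t
      rw [Subsingleton.elim t 0, Subsingleton.elim s 0]
      simp [Matrix.toBlocks₂₂]
  · refine Ideal.mem_span_range_iff_exists_fun.2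
      ⟨fun _ => X v + (X (o 0) ^ 2 + X (o 1) ^ 3 + X (o 2) ^ 5), ?_⟩
    simp [stabilise, f]
    ring

/-- The strong monodromy conjecture for the example, for every prime. -/
theorem poles (A B : Polynomial ℚ) (hAB : IsCoprime A B)
    (hP : (B : PowerSeries ℚ) * poincare f p = (A : PowerSeries ℚ)) (T : ℂ)
    (hT : Polynomial.aeval T B = 0) (b : Polynomial ℂ)
    (hb : IsBFunction (map (Int.castRingHom ℂ) f) b) :
    b.eval ((-(Real.log ‖T‖ / Real.log p) : ℝ) : ℂ) = 0 := by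
  refine result 3 f (fun h => ?_) p (fun a _ _ => ⟨0, 0, hasChart a⟩) A B hAB hP T hT b hb
  have h1 := totalDegree_eq_zero_iff_eq_C.1 h
  have h2 := congrArg (eval fun _ => (0 : ℤ)) h1
  have h3 := congrArg (eval fun _ => (1 : ℤ)) h1
  rw [eval_C] at h2 h3
  rw [← h3] at h2
  simp [f] at h2

end Pool.Agent.MP_5d9b3c_ag.H69.Example
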