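import Pool.Agent.MP_5d9b3c_ag.H69.Basic

/-!
Nondegeneracy of the localized and of the scaled polynomial, and indicator polynomials.
-/

namespace Pool.Agent.MP_5d9b3c_ag.H69

open Finset MvPolynomial

namespace Nond

section Loc

variable {I : Type} (F k : MvPolynomial I ℂ)

lemma ren {φ : MvPolynomial I ℂ} {a : Idx I Unit Empty →₀ ℕ}
    (h : coeff a (rename Sum.inl φ) ≠ 0) : a (iμ ()) = 0 ∧ a (iy ()) = 0 := by
  obtain ⟨u, rfl, -⟩ := coeff_rename_ne_zero _ _ _ h
  exact ⟨Finsupp.mapDomain_of_notMem_range _ _ (by simp),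
    Finsupp.mapDomain_of_notMem_range _ _ (by simp)⟩

lemma mid {a : Idx I Unit Empty →₀ ℕ}
    (h : coeff a (X (iμ ()) * (X (iy ()) * rename Sum.inl k)) ≠ 0) :
    a (iμ ()) = 1 ∧ a (iy ()) = 1 := by
  classical
  rw [coeff_X_mul', coeff_X_mul'] at h
  split_ifs at h with h1 h2
  · have h3 := ren h
    simp only [Finsupp.mem_support_iff, Finsupp.coe_tsub, Pi.sub_apply, Finsupp.single_apply,
      Sum.inr.injEq, reduceCtorEq, if_false, if_true] at h1 h2 h3
    omega
  · exact absurd rfl h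
  · exact absurd rfl h

lemma coeff_loc (a : Idx I Unit Empty →₀ ℕ) : coeff a (loc F k) = coeff a (rename Sum.inl F) +
    coeff a (X (iμ ()) * (X (iy ()) * rename Sum.inl k)) - coeff a (X (iμ ())) := by
  rw [loc, mul_sub, mul_one, coeff_add, coeff_sub, add_sub_assoc]

lemma coeff_mu : coeff (Finsupp.single (iμ ()) 1) (loc F k) = -1 := by
  have h1 : coeff (Finsupp.single (iμ () : Idx I Unit Empty) 1) (rename Sum.inl F) = 0 := by
    by_contra h
    simpa using (ren h).1
  have h2 : coeff (Finsupp.single (iμ () : Idx I Unit Empty) 1)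
      (X (iμ ()) * (X (iy ()) * rename Sum.inl k)) = 0 := by
    by_contra h
    simpa using (mid k h).2
  rw [coeff_loc, h1, h2, coeff_X_same, zero_add, zero_sub]

lemma coeff_low {a : Idx I Unit Empty →₀ ℕ} (h : a (iμ ()) = 0) :
    coeff a (loc F k) = coeff a (rename Sum.inl F) := by
  classical
  have h2 : coeff a (X (iμ ()) * (X (iy ()) * rename Sum.inl k)) = 0 := by
    by_contra h'
    have := (mid k h').1
    omega
  rw [coeff_loc, h2, coeff_X, if_neg (by rintro rfl; simp at h), add_zero, sub_zero]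

lemma bal {a : Idx I Unit Empty →₀ ℕ} (h : coeff a (loc F k) ≠ 0)
    (h' : a ≠ Finsupp.single (iμ ()) 1) : a (iy ()) = a (iμ ()) := by
  classical
  rw [coeff_loc, coeff_X, if_neg h'.symm, sub_zero] at h
  by_cases h1 : coeff a (rename Sum.inl F) = 0
  · rw [h1, zero_add] at h
    rw [(mid k h).1, (mid k h).2]
  · rw [(ren h1).1, (ren h1).2]

lemma coeff_map (β : I →₀ ℕ) : coeff (β.mapDomain Sum.inl) (loc F k) = coeff β F := by
  rw [coeff_low F k (Finsupp.mapDomain_of_notMem_range _ _ (by simp)),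
    coeff_rename_mapDomain _ Sum.inl_injective]

variable [Fintype I]

lemma wgt_map (w : Idx I Unit Empty → ℕ) (β : I →₀ ℕ) :
    H22.wgt (fun i => w i) (β.mapDomain Sum.inl) = H22.wgt (fun i => w (Sum.inl i)) β := by
  rw [H22.wgt, H22.wgt, Fintype.sum_sum_type, sum_eq_zero (s := (univ : Finset (_ ⊕ _ ⊕ _)))
    fun j _ => by rw [Finsupp.mapDomain_of_notMem_range _ _ (by simp)]; simp, add_zero]
  simp only [Finsupp.mapDomain_apply Sum.inl_injective]

lemma wgt_ge {ν : Type} [Fintype ν] (w : ν → ℕ) {a : ν →₀ ℕ} {i : ν} (h : a i ≠ 0) :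
    H22.wgt (fun i => w i) (Finsupp.single i 1) ≤ H22.wgt (fun i => w i) a := by
  refine sum_le_sum fun j _ => mul_le_mul_of_nonneg_left ?_ (Int.natCast_nonneg _)
  exact_mod_cast Finsupp.single_le_iff.2 (Nat.one_le_iff_ne_zero.2 h) j

lemma fac_loc (w : Idx I Unit Empty → ℕ) {a₀ : Idx I Unit Empty →₀ ℕ}
    (h0 : a₀ ∈ (loc F k).support) (h1 : H22.wgt (fun i => w i) a₀ <
      H22.wgt (fun i => w i) (Finsupp.single (iμ ()) 1)) :
    H22.fac (fun i => w i) (loc F k) = rename Sum.inl (H22.fac (fun i => w (Sum.inl i)) F) := by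
  have h2 : ∀ a ∈ (loc F k).support, H22.wgt (fun i => w i) a ≤ H22.wgt (fun i => w i) a₀ →
      ∃ β ∈ F.support, β.mapDomain Sum.inl = a := by
    intro a ha h
    have h3 : a (iμ ()) = 0 := by
      by_contra h3
      exact absurd ((wgt_ge w h3).trans h) h1.not_ge
    rw [mem_support_iff, coeff_low F k h3] at ha
    obtain ⟨u, h4, h5⟩ := coeff_rename_ne_zero _ _ _ ha
    exact ⟨u, mem_support_iff.2 h5, h4⟩
  have h3 : ∀ β ∈ F.support, β.mapDomain Sum.inl ∈ (loc F k).support := fun β h => by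
    rwa [mem_support_iff, coeff_map, ← mem_support_iff]
  rw [H22.fac, H22.fac, map_sum]
  refine (sum_nbij (fun β => β.mapDomain Sum.inl) (fun β hβ => ?_)
    (Finsupp.mapDomain_injective Sum.inl_injective).injOn (fun a ha => ?_) fun β _ => ?_).symm
  · obtain ⟨h4, h5⟩ := mem_filter.1 hβ
    have h6 : ∀ a ∈ (loc F k).support, H22.wgt (fun i => w i) a ≤ H22.wgt (fun i => w i) a₀ →
        H22.wgt (fun i => w i) (β.mapDomain Sum.inl) ≤ H22.wgt (fun i => w i) a := by
      intro a ha h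
      obtain ⟨u, h7, rfl⟩ := h2 a ha h
      rw [wgt_map, wgt_map]
      exact h5 u h7
    refine mem_filter.2 ⟨h3 β h4, fun a ha => ?_⟩
    rcases le_total (H22.wgt (fun i => w i) a) (H22.wgt (fun i => w i) a₀) with h | h
    · exact h6 a ha h
    · exact (h6 a₀ h0 le_rfl).trans h
  · obtain ⟨h4, h5⟩ := mem_filter.1 (mem_coe.1 ha)
    obtain ⟨u, h7, rfl⟩ := h2 a h4 (h5 a₀ h0)
    refine ⟨u, mem_coe.2 (mem_filter.2 ⟨h7, fun β hβ => ?_⟩), rfl⟩
    rw [← wgt_map, ← wgt_map]
    exact h5 _ (h3 β hβ)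
  · rw [rename_monomial, coeff_map]

end Loc

section Scale

variable {I : Type} (t : ℂ)

lemma sc_monomial (a : I →₀ ℕ) (c : ℂ) :
    aeval (fun i : I => (C t * X i : MvPolynomial I ℂ)) (monomial a c) =
      monomial a (t ^ (a.sum fun _ e => e) * c) := by
  rw [aeval_monomial, monomial_eq, algebraMap_eq]
  simp only [Finsupp.prod, Finsupp.sum, mul_pow, prod_mul_distrib, prod_pow_eq_pow_sum, map_mul,
    map_pow]
  ring

lemma sc_coeff (a : I →₀ ℕ) (F : MvPolynomial I ℂ) :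
    coeff a (aeval (fun i : I => (C t * X i : MvPolynomial I ℂ)) F) =
      t ^ (a.sum fun _ e => e) * coeff a F := by
  classical
  induction F using MvPolynomial.induction_on' with
  | monomial u c =>
    rw [sc_monomial, coeff_monomial, coeff_monomial]
    split_ifs with h
    · rw [h]
    · rw [mul_zero]
  | add p q hp hq => rw [map_add, coeff_add, coeff_add, hp, hq, mul_add]

lemma sc_der (i : I) (F : MvPolynomial I ℂ) :
    pderiv i (aeval (fun i : I => (C t * X i : MvPolynomial I ℂ)) F) =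
      C t * aeval (fun i : I => (C t * X i : MvPolynomial I ℂ)) (pderiv i F) := by
  classical
  induction F using MvPolynomial.induction_on with
  | C a => simp
  | add p q hp hq => simp only [map_add, hp, hq, mul_add]
  | mul_X p j hp =>
    simp only [map_mul, aeval_X, Derivation.leibniz, smul_eq_mul, hp, pderiv_X, map_add,
      pderiv_C, mul_zero, add_zero, Pi.single_apply, apply_ite, map_one, map_zero]
    split_ifs <;> ring

lemma sc_eval (x : I → ℂ) (F : MvPolynomial I ℂ) :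
    eval x (aeval (fun i : I => (C t * X i : MvPolynomial I ℂ)) F) = eval (fun i => t * x i) F := by
  induction F using MvPolynomial.induction_on with
  | C a => simp
  | add p q hp hq => simp only [map_add, hp, hq]
  | mul_X p j hp => simp only [map_mul, hp, aeval_X, eval_C, eval_X]

end Scale

section Ind

variable {p : ℕ} [hp : Fact p.Prime]

lemma fermat {y : ℚ_[p]} (h : ‖y‖ = 1) : ‖1 - y ^ (p - 1)‖ < 1 := by
  let z : ℤ_[p] := ⟨y, h.le⟩
  have h1 : PadicInt.toZMod z ≠ 0 := ((PadicInt.isUnit_iff.2 h : IsUnit z).map _).ne_zero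
  have h2 : 1 - z ^ (p - 1) ∈ RingHom.ker (PadicInt.toZMod : ℤ_[p] →+* ZMod p) := by
    rw [RingHom.mem_ker, map_sub, map_one, map_pow, ZMod.pow_card_sub_one_eq_one h1, sub_self]
  rw [PadicInt.ker_toZMod] at h2
  exact PadicInt.mem_nonunits.1 h2

lemma disc {y : ℚ_[p]} (h : ‖y‖ < 1) : ‖y‖ ≤ (p : ℝ)⁻¹ := by
  simpa using (Padic.norm_lt_pow_iff_norm_le_pow_sub_one y 0).1 (by simpa using h)

lemma one (K : ℕ) : ∃ k : Polynomial ℚ, ∀ y : ℚ_[p], ‖y‖ ≤ 1 →
    (‖y‖ ≤ (p : ℝ) ^ (-(K : ℤ)) → ‖Polynomial.aeval y k‖ = 1) ∧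
      ((p : ℝ) ^ (-(K : ℤ)) < ‖y‖ → ‖Polynomial.aeval y k‖ ≤ (p : ℝ)⁻¹) := by
  have hp1 : (1 : ℝ) < p := by exact_mod_cast hp.out.one_lt
  have hp0 : (0 : ℝ) < p := by positivity
  induction K with
  | zero => exact ⟨1, fun y hy => ⟨fun _ => by simp, fun h => absurd hy (by simpa using h)⟩⟩
  | succ K ih =>
    obtain ⟨k, hk⟩ := ih
    obtain ⟨M, hM⟩ := (isCompact_closedBall (0 : ℚ_[p]) p).exists_bound_of_continuousOn
      (Polynomial.continuous_aeval k).continuousOn
    obtain ⟨j, hj⟩ := exists_pow_lt_of_lt_one (x := (p : ℝ)⁻¹ / (|M| + 1)) (y := (p : ℝ)⁻¹)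
      (by positivity) (inv_lt_one_of_one_lt₀ hp1)
    refine ⟨(1 - Polynomial.X ^ (p - 1)) ^ j * k.comp (Polynomial.C (p : ℚ)⁻¹ * Polynomial.X),
      fun y hy => ?_⟩
    have e1 : ‖Polynomial.aeval y ((1 - Polynomial.X ^ (p - 1)) ^ j *
        k.comp (Polynomial.C (p : ℚ)⁻¹ * Polynomial.X))‖ =
        ‖1 - y ^ (p - 1)‖ ^ j * ‖Polynomial.aeval ((p : ℚ_[p])⁻¹ * y) k‖ := by
      simp [Polynomial.aeval_comp]
    have e2 : ‖(p : ℚ_[p])⁻¹ * y‖ = p * ‖y‖ := by rw [norm_mul, norm_inv, Padic.norm_p, inv_inv]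
    have e3 : (p : ℝ) ^ (-(K : ℤ)) = p * (p : ℝ) ^ (-((K + 1 : ℕ) : ℤ)) := by
      rw [← zpow_one_add₀ hp0.ne']
      congr 1
      omega
    rw [e1]
    rcases hy.lt_or_eq with h | h
    · have h1 : ‖1 - y ^ (p - 1)‖ = 1 := by
        have h2 : ‖-y ^ (p - 1)‖ < ‖(1 : ℚ_[p])‖ := by
          rw [norm_neg, norm_pow, norm_one]
          exact pow_lt_one₀ (norm_nonneg _) h (by have := hp.out.two_le; omega)
        rw [sub_eq_add_neg, IsUltrametricDist.norm_add_eq_max_of_norm_ne_norm h2.ne',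
          max_eq_left h2.le, norm_one]
      have h2 := hk ((p : ℚ_[p])⁻¹ * y) (by
        rw [e2, ← le_div_iff₀' hp0, one_div]
        exact disc h)
      rw [e2, e3, mul_le_mul_iff_right₀ hp0, mul_lt_mul_iff_right₀ hp0] at h2
      rwa [h1, one_pow, one_mul]
    · refine ⟨fun h1 => absurd (h ▸ h1) (zpow_lt_one_of_neg₀ hp1 (by omega)).not_ge, fun _ => ?_⟩
      have h1 := hM ((p : ℚ_[p])⁻¹ * y) (by rw [mem_closedBall_zero_iff, e2, h, mul_one])
      have h2 := pow_le_pow_left₀ (norm_nonneg _) (disc (fermat h)) j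
      rw [lt_div_iff₀ (by positivity)] at hj
      refine (mul_le_mul h2 (h1.trans ((le_abs_self M).trans (le_add_of_nonneg_right zero_le_one)))
        (norm_nonneg _) (by positivity)).trans hj.le

end Ind

end Nond

open Nond

theorem nondLoc : NondLocStmt := by
  classical
  intro I _ F k hF
  have h0 : Finsupp.single (iμ ()) 1 ∈ (loc F k).support := by
    rw [mem_support_iff, coeff_mu]
    simp
  refine ⟨fun w x hx h1 => ?_, fun h => by simpa [h] using le_totalDegree h0⟩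
  by_cases h2 : ∀ a ∈ (loc F k).support, H22.wgt (fun i => w i) (Finsupp.single (iμ ()) 1) ≤
      H22.wgt (fun i => w i) a
  · have h3 : X (iy ()) * pderiv (iy ()) (H22.fac (fun i => w i) (loc F k)) -
        X (iμ ()) * pderiv (iμ ()) (H22.fac (fun i => w i) (loc F k)) = X (iμ ()) := by
      rw [H22.fac, map_sum, map_sum, mul_sum, mul_sum, ← sum_sub_distrib,
        sum_eq_single_of_mem _ (mem_filter.2 ⟨h0, h2⟩) fun a ha h => ?_]
      · rw [X_mul_pderiv_monomial, X_mul_pderiv_monomial, coeff_mu]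
        simp [X]
      · rw [X_mul_pderiv_monomial, X_mul_pderiv_monomial,
          bal F k (mem_support_iff.1 (mem_filter.1 ha).1) h, sub_self]
    by_contra h4
    push Not at h4
    have h5 := congrArg (eval x) h3
    rw [map_sub, map_mul, map_mul, h4, h4, mul_zero, mul_zero, sub_self, eval_X] at h5
    exact hx _ h5.symm
  · push Not at h2
    obtain ⟨a, ha, h2⟩ := h2
    rw [fac_loc F k w ha h2] at h1 ⊢
    rw [eval_rename] at h1
    obtain ⟨i, hi⟩ := hF (fun i => w (Sum.inl i)) _ (fun i => hx (Sum.inl i)) h1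
    exact ⟨Sum.inl i, by rwa [pderiv_rename Sum.inl_injective, eval_rename]⟩

theorem nondScale : NondScaleStmt := by
  intro I _ F r t hr ht hF w x hx h1
  have h2 : (C r * aeval (fun i : I => (C t * X i : MvPolynomial I ℂ)) F).support = F.support := by
    ext a
    rw [mem_support_iff, mem_support_iff, coeff_C_mul, sc_coeff]
    simp [hr, ht]
  have h3 : H22.fac (fun i => w i) (C r * aeval (fun i : I => (C t * X i : MvPolynomial I ℂ)) F) =
      C r * aeval (fun i : I => (C t * X i : MvPolynomial I ℂ)) (H22.fac (fun i => w i) F) := by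
    rw [H22.fac, H22.fac, h2, map_sum, mul_sum]
    exact sum_congr rfl fun a _ => by rw [sc_monomial, C_mul_monomial, coeff_C_mul, sc_coeff]
  rw [h3] at h1 ⊢
  rw [map_mul, eval_C, sc_eval] at h1
  obtain ⟨i, hi⟩ := hF w _ (fun i => mul_ne_zero ht (hx i)) ((mul_eq_zero.1 h1).resolve_left hr)
  refine ⟨i, ?_⟩
  rw [pderiv_C_mul, sc_der, map_mul, map_mul, eval_C, eval_C, sc_eval]
  exact mul_ne_zero hr (mul_ne_zero ht hi)

theorem indS {p : ℕ} [hp : Fact p.Prime] : IndStmt p := by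
  classical
  intro ι _ K b
  obtain ⟨k, hk⟩ := one (p := p) K
  refine ⟨∏ i, Polynomial.aeval (X i - C (b i : ℚ)) k, fun x hx => ?_⟩
  have e : ‖aeval x (∏ i, Polynomial.aeval (X i - C (b i : ℚ) : MvPolynomial ι ℚ) k)‖ =
      ∏ i, ‖Polynomial.aeval (x i - (b i : ℚ_[p])) k‖ := by
    rw [map_prod, norm_prod]
    refine prod_congr rfl fun i _ => ?_
    rw [← Polynomial.aeval_algHom_apply]
    simp
  have h1 : ∀ i, ‖x i - (b i : ℚ_[p])‖ ≤ 1 := fun i => by
    rw [sub_eq_add_neg]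
    refine (IsUltrametricDist.norm_add_le_max _ _).trans (max_le ((norm_le_pi_norm x i).trans hx) ?_)
    rw [norm_neg]
    exact Padic.norm_int_le_one _
  have h0 : (0 : ℝ) ≤ (p : ℝ) ^ (-(K : ℤ)) := by positivity
  rw [e]
  refine ⟨fun h => prod_eq_one fun i _ =>
    (hk _ (h1 i)).1 ((pi_norm_le_iff_of_nonneg h0).1 h i), fun h => ?_⟩
  obtain ⟨i, hi⟩ := not_forall.1 (mt (pi_norm_le_iff_of_nonneg h0).2 h.not_ge)
  rw [← mul_prod_erase _ _ (mem_univ i)]
  refine (mul_le_of_le_one_right (norm_nonneg _) (prod_le_one (fun _ _ => norm_nonneg _)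
    fun j _ => ?_)).trans ((hk _ (h1 i)).2 (not_le.1 hi))
  rcases le_or_gt ‖x j - (b j : ℚ_[p])‖ ((p : ℝ) ^ (-(K : ℤ))) with h2 | h2
  · exact ((hk _ (h1 j)).1 h2).le
  · exact ((hk _ (h1 j)).2 h2).trans (inv_le_one_of_one_le₀ (by exact_mod_cast hp.out.one_le))

end Pool.Agent.MP_5d9b3c_ag.H69
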