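import Pool.Agent.MP_5d9b3c_ag.H10N.Final
import Pool.Agent.MP_5d9b3c_ag.H69.DA
import Pool.Agent.MP_5d9b3c_ag.H69.DB
import Pool.Agent.MP_5d9b3c_ag.H69.DC
import Pool.Agent.MP_5d9b3c_ag.H69.Desc
import Pool.Agent.MP_5d9b3c_ag.H69.Nond
import Pool.Agent.MP_5d9b3c_ag.H69.MA
import Pool.Agent.MP_5d9b3c_ag.H69.MB
import Pool.Agent.MP_5d9b3c_ag.H69.CV
import Pool.Agent.MP_5d9b3c_ag.H69.PT
import Pool.Agent.MP_5d9b3c_ag.H69.Hyp
import Pool.Agent.MP_5d9b3c_ag.H69.Box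

/-!
Polynomials that are locally stably equivalent to nondegenerate ones.
-/

namespace Pool.Agent.MP_5d9b3c_ag.H69

open Finset MvPolynomial

variable {p : ℕ} [hp : Fact p.Prime]

/-- A pair of charts at the point `a`. -/
def Charts {n : ℕ} (f : MvPolynomial (Fin n) ℚ) (a : Fin n → ℚ_[p]) : Prop :=
  ∃ (r k : ℕ) (Ψ Φ : Idx (Fin n) (Fin r) (Fin k) → MvPolynomial (Idx (Fin n) (Fin r) (Fin k)) ℚ)
    (U F : MvPolynomial (Idx (Fin n) (Fin r) (Fin k)) ℚ) (c : Idx (Fin n) (Fin r) (Fin k) → ℚ_[p]),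
    (∀ i, aeval c (Ψ (Sum.inl i)) = a i) ∧ (∀ j, aeval c (Ψ (iμ j)) = 0) ∧
    (∀ j, aeval c (Ψ (iy j)) = 0) ∧ (∀ i, ‖aeval c (Φ i)‖ ≤ 1) ∧ aeval c (jacM Ψ).det ≠ 0 ∧
    aeval c (jacM Φ).det ≠ 0 ∧ aeval c U ≠ 0 ∧
    aeval Φ F = U * aeval Ψ (model (Fin r) (Fin k) f) ∧ H1 F

lemma aeval_aeval {I : Type} (Φ : I → MvPolynomial I ℚ) (F : MvPolynomial I ℚ) (x : I → ℚ_[p]) :
    aeval x (aeval Φ F) = aeval (fun i => aeval x (Φ i)) F := comp_aeval_apply Φ (aeval x) F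

theorem local_good {n : ℕ} {f : MvPolynomial (Fin n) ℚ} {a : Fin n → ℚ_[p]} (h : Charts f a)
    {b : Polynomial ℚ} (hb : LB Set.univ f 1 b) {l : ℝ} (hl0 : 0 < l) (hl1 : l ≠ 1)
    (hbl : Polynomial.aeval (-(l : ℂ)) b ≠ 0) : ∃ K, GC p l (fun x => aeval x f) a K := by
  obtain ⟨r, k, Ψ, Φ, U, F, c, h1, h2, h3, h4, h5, h6, h7, h8, h9⟩ := h
  have hr : l + (Fintype.card (Fin r) : ℕ) ≠ 1 := by
    rw [Fintype.card_fin]
    rcases Nat.eq_zero_or_pos r with rfl | h0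
    · simpa using hl1
    · have : (1 : ℝ) ≤ r := by exact_mod_cast h0
      linarith
  obtain ⟨e, he⟩ := modelS pb hypD _ (Fin r) (Fin k) f b hb Ψ U
  rw [← h8] at he
  obtain ⟨κ, hκ1, hκ2⟩ := descS _ ℚ_[p] Φ c F _ _ h6 (by simp [h5, h7]) he
  have hbb := bbS (boxS H10N.glob_all2 upS nondScale mA) indS nondLoc (locS pb hypD)
    (hypS mA (mB mA)) mA (mB mA) _ F κ _ _ (l + (Fintype.card (Fin r) : ℕ)) h9 hκ1
    ((pi_norm_le_iff_of_nonneg zero_le_one).2 h4) hκ2 (by positivity) hr (by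
      have h10 : -(r : ℂ) + -(l : ℂ) + 1 ≠ 0 := by
        intro h
        apply hr
        have : ((l + (Fintype.card (Fin r) : ℕ) : ℝ) : ℂ) = (1 : ℝ) := by
          push_cast
          rw [Fintype.card_fin]
          linear_combination -h
        exact_mod_cast this
      simpa [sh, Polynomial.aeval_comp, h10] using hbl)
  have hdet : ∀ Θ : Idx (Fin n) (Fin r) (Fin k) → MvPolynomial (Idx (Fin n) (Fin r) (Fin k)) ℚ,
      ((jacM Θ).map (aeval c)).det = aeval c (jacM Θ).det :=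
    fun Θ => ((aeval c : MvPolynomial _ ℚ →ₐ[ℚ] ℚ_[p]).map_det _).symm
  have h11 := cv1 mA (mB mA) _ _ _ _ c _ (Box.cont_aeval F) (hdet Φ ▸ h6) (polyS _ Φ c) hbb
  simp only [← aeval_aeval, h8, map_mul] at h11
  have h12 := unitS _ _ _ _ c (Box.cont_aeval U) h7 h11
  simp only [aeval_aeval] at h12
  obtain ⟨K, hK⟩ := cv2 mA (mB mA) _ _ _ _ c _ (Box.cont_aeval (model (Fin r) (Fin k) f))
    (continuous_pi fun i => Box.cont_aeval (Ψ i)) (hdet Ψ ▸ h5) (polyS _ Ψ c) h12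
  refine ⟨K, hypS mA (mB mA) _ (Fin r) (Fin k) l _ (2 * K) ((Box.cont_aeval f).comp
    (continuous_pi fun i => continuous_const.add (continuous_const.mul (Box.cont_coe i))))
    hl0 hl1 ?_⟩
  unfold GC at hK
  convert hK using 4 with m z
  simp only [model, map_add, map_sum, map_mul, aeval_X, aeval_rename, mul_sum, h2, h3, zero_add]
  refine congrArg _ (congrArg₂ (· + ·) ?_ (sum_congr rfl fun j _ => by ring))
  congr 2
  ext i
  simp [h1]

theorem main {n : ℕ} (f : MvPolynomial (Fin n) ℤ) (hdeg : f.totalDegree ≠ 0)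
    (h : ∀ a : Fin n → ℤ_[p], aeval a f = 0 → (∀ i, aeval a (pderiv i f) = 0) →
      Charts (map (Int.castRingHom ℚ) f) (fun i => (a i : ℚ_[p])))
    {b : Polynomial ℂ} (hb : IsB (map (Int.castRingHom ℂ) f) b) {l : ℝ} (hl0 : 0 < l)
    (hbl : b.eval (-(l : ℂ)) ≠ 0) : H48N.Good p l (cnt p f) := by
  have hl1 : l ≠ 1 := by
    rintro rfl
    obtain ⟨d, P, h1, h2⟩ := hb
    have h3 := H22.root_neg_one (by
      rwa [totalDegree, support_map_of_injective _ (Int.castRingHom ℂ).injective_int]) h1 h2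
    exact hbl (by simpa using h3)
  have e : map (Int.castRingHom ℂ) f = map (algebraMap ℚ ℂ) (map (Int.castRingHom ℚ) f) := by
    rw [MvPolynomial.map_map, RingHom.ext_int (RingHom.comp _ _) (Int.castRingHom ℂ)]
  obtain ⟨b', hb1, hb2⟩ := ratS _ _ b _ (e ▸ hb) hbl
  have e2 : ∀ (g : MvPolynomial (Fin n) ℤ) (x : Fin n → ℚ_[p]),
      aeval x (map (Int.castRingHom ℚ) g) = aeval x g := fun g x => by
    rw [← algebraMap_int_eq, aeval_map_algebraMap]
  have e3 : ∀ (g : MvPolynomial (Fin n) ℤ) (a : Fin n → ℤ_[p]),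
      aeval (fun i => (a i : ℚ_[p])) g = ((aeval a g : ℤ_[p]) : ℚ_[p]) :=
    fun g a => (MAx.map_aeval (PadicInt.Coe.ringHom (p := p)) a g).symm
  have := compactS mA (mB mA) _ l _ (Box.cont_aeval (map (Int.castRingHom ℚ) f)) (fun a => by
    by_cases h1 : aeval a f = 0
    · by_cases h2 : ∀ i, aeval a (pderiv i f) = 0
      · exact local_good (h a h1 h2) hb2 hl0 hl1 hb1
      · obtain ⟨i, hi⟩ := not_forall.1 h2
        obtain ⟨K, hK⟩ := smoothS (cv1 mA (mB mA)) (linS mA) polyS _ l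
          (map (Int.castRingHom ℚ) f) (fun i => (a i : ℚ_[p])) i hl1 (by
            rw [pderiv_map, e2, e3]
            exact PadicInt.coe_ne_zero.2 hi)
        exact ⟨K, hK K le_rfl _ (by simp)⟩
    · obtain ⟨K, hK⟩ := nonzeroS _ l _ (fun i => (a i : ℚ_[p]))
        (Box.cont_aeval (map (Int.castRingHom ℚ) f)) (by
          rw [e2, e3]
          exact PadicInt.coe_ne_zero.2 h1)
      exact ⟨K, hK K le_rfl _ (by simp)⟩)
  unfold GC at this
  convert this using 2 with m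
  rw [← mA.count]
  simp [e2]

end Pool.Agent.MP_5d9b3c_ag.H69
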