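import Pool.Agent.MP_5d9b3c_ag.H10N.Spec
import Pool.Agent.MP_5d9b3c_ag.H48N.BasicP

/-!
Polynomials that are locally stably equivalent to nondegenerate ones: definitions and the
statements of the steps.
-/

namespace Pool.Agent.MP_5d9b3c_ag.H69

open Finset MvPolynomial

/-! ### Functional equations -/

section D

variable {K R : Type} [Field K] [CommRing R] [Algebra K R]

/-- A module of families closed under the derivations in `𝒱` and under the parameter. -/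
structure Closed (𝒱 : Set (Derivation K R R)) (S : Submodule R (ℕ → R)) : Prop where
  der : ∀ V ∈ 𝒱, ∀ q ∈ S, (fun m => V (q m)) ∈ S
  par : ∀ q ∈ S, (fun m : ℕ => (m : R) * q m) ∈ S

/-- The closed module generated by `g`. -/
def Cl (𝒱 : Set (Derivation K R R)) (g : ℕ → R) : Submodule R (ℕ → R) :=
  sInf {S | Closed 𝒱 S ∧ g ∈ S}

/-- The functional equation `P(m) F ^ (m + 1) = b(m) h F ^ m`. -/
def LB (𝒱 : Set (Derivation K R R)) (F h : R) (b : Polynomial K) : Prop :=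
  (fun m : ℕ => b.eval (m : K) • (h * F ^ m)) ∈ Cl 𝒱 (fun m => F ^ (m + 1))

end D

/-- The functional equation with operators in the Weyl algebra. -/
def IsB {ι : Type} (g : MvPolynomial ι ℂ) (b : Polynomial ℂ) : Prop :=
  ∃ (d : ℕ) (P : ℕ → Module.End ℂ (MvPolynomial ι ℂ)), (∀ t, P t ∈ H22.WW ι) ∧
    ∀ m : ℕ, ∑ t ∈ range d, (m : ℂ) ^ t • P t (g ^ (m + 1)) = b.eval (m : ℂ) • g ^ m

/-- The shifted polynomial `(s + 1) b(s + ρ)`. -/
noncomputable def sh {K : Type} [Field K] (b : Polynomial K) (ρ : K) : Polynomial K :=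
  (Polynomial.X + 1) * b.comp (Polynomial.X + Polynomial.C ρ)

/-- The Jacobian matrix. -/
noncomputable def jacM {I : Type} (Φ : I → MvPolynomial I ℚ) : Matrix I I (MvPolynomial I ℚ) :=
  Matrix.of fun i a => pderiv a (Φ i)

/-- The variables `x`, `μ`, `y` and the free variables. -/
abbrev Idx (ι ρ κ : Type) : Type := ι ⊕ ρ ⊕ ρ ⊕ κ

/-- The variable `μ j`. -/
abbrev iμ {ι ρ κ : Type} (j : ρ) : Idx ι ρ κ := Sum.inr (Sum.inl j)

/-- The variable `y j`. -/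
abbrev iy {ι ρ κ : Type} (j : ρ) : Idx ι ρ κ := Sum.inr (Sum.inr (Sum.inl j))

/-- The polynomial `f(x) + ∑ μ j * y j`. -/
noncomputable def model {ι : Type} (ρ κ : Type) [Fintype ρ] (f : MvPolynomial ι ℚ) :
    MvPolynomial (Idx ι ρ κ) ℚ :=
  rename Sum.inl f + ∑ j : ρ, X (iμ j) * X (iy j)

/-- The polynomial `F(x) + μ (y k(x) - 1)`. -/
noncomputable def loc {I K : Type} [CommRing K] (F k : MvPolynomial I K) :
    MvPolynomial (Idx I Unit Empty) K :=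
  rename Sum.inl F + X (iμ ()) * (X (iy ()) * rename Sum.inl k - 1)

/-- Nondegeneracy along all faces with nonnegative weights. -/
def H1C {I : Type} [Fintype I] (g : MvPolynomial I ℂ) : Prop :=
  ∀ w : I → ℕ, H22.Nond (H22.fac (fun i => w i) g)

/-- Nondegeneracy of a rational polynomial. -/
def H1 {I : Type} [Fintype I] (F : MvPolynomial I ℚ) : Prop := H1C (map (algebraMap ℚ ℂ) F)

/-- From complex to rational coefficients. -/
def RatStmt : Prop :=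
  ∀ (ι : Type) [Fintype ι] (f : MvPolynomial ι ℚ) (b : Polynomial ℂ) (x : ℂ),
    IsB (map (algebraMap ℚ ℂ) f) b → b.eval x ≠ 0 →
    ∃ b' : Polynomial ℚ, Polynomial.aeval x b' ≠ 0 ∧ LB Set.univ f 1 b'

/-- From rational to complex coefficients. -/
def UpStmt : Prop :=
  ∀ (ι : Type) [Fintype ι] (G : MvPolynomial ι ℚ) (b : Polynomial ℚ), LB Set.univ G 1 b →
    IsB (map (algebraMap ℚ ℂ) G) (b.map (algebraMap ℚ ℂ))

/-- The twisted pull-back. -/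
def PBStmt : Prop :=
  ∀ (K R0 R : Type) [Field K] [CommRing R0] [CommRing R] [Algebra K R0] [Algebra K R]
    (φ : R0 →ₐ[K] R) (𝒱0 : Set (Derivation K R0 R0)) (𝒱 : Set (Derivation K R R)) (J τ : R),
    (∀ D ∈ 𝒱0, ∃ V ∈ 𝒱, ∀ g, V (φ g) = J * φ (D g)) →
    ∀ (f h : R0) (b : Polynomial K), LB 𝒱0 f h b →
    ∃ k : ℕ, LB 𝒱 (τ * φ f) ((J * τ) ^ k * τ * φ h) b

/-- Adding hyperbolic pairs. -/
def HypDStmt : Prop :=
  ∀ (K R ρ : Type) [Field K] [CommRing R] [Algebra K R] [Fintype ρ]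
    (𝒱 : Set (Derivation K R R)) (F u h J : R) (r : K) (E : Derivation K R R)
    (A B : ρ → Derivation K R R), (∀ V ∈ 𝒱, V u = 0) → E u = u → E F = 0 →
    (∀ j, A j F = 0) → (∀ j, B j F = 0) → ∑ j, A j (B j u) = r • J →
    ∑ j, A j u * B j u = J * u →
    ∀ b : Polynomial K, LB 𝒱 F h b → LB Set.univ (F + u) (h * J) (sh b r)

/-- The equation for the pulled back model. -/
def ModelStmt : Prop :=
  ∀ (ι ρ κ : Type) [Fintype ι] [Fintype ρ] [Fintype κ] [DecidableEq (Idx ι ρ κ)]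
    (f : MvPolynomial ι ℚ) (b : Polynomial ℚ), LB Set.univ f 1 b →
    ∀ (Ψ : Idx ι ρ κ → MvPolynomial (Idx ι ρ κ) ℚ) (U : MvPolynomial (Idx ι ρ κ) ℚ),
    ∃ k : ℕ, LB Set.univ (U * aeval Ψ (model ρ κ f)) (((jacM Ψ).det * U) ^ k * U)
      (sh b (Fintype.card ρ : ℚ))

/-- The equation for the localized polynomial. -/
def LocStmt : Prop :=
  ∀ (I : Type) [Fintype I] (F k : MvPolynomial I ℚ) (b : Polynomial ℚ), LB Set.univ F k b →
    LB Set.univ (loc F k) 1 (sh b 1)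

/-- Descent along a map with invertible Jacobian at a point. -/
def DescStmt : Prop :=
  ∀ (I L : Type) [Fintype I] [DecidableEq I] [Field L] [Algebra ℚ L] (Φ : I → MvPolynomial I ℚ)
    (c : I → L) (F h : MvPolynomial I ℚ) (b : Polynomial ℚ), aeval c (jacM Φ).det ≠ 0 →
    aeval c h ≠ 0 → LB Set.univ (aeval Φ F) h b →
    ∃ k : MvPolynomial I ℚ, aeval (fun i => aeval c (Φ i)) k ≠ 0 ∧ LB Set.univ F k b

/-- The localized polynomial is nondegenerate. -/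
def NondLocStmt : Prop :=
  ∀ (I : Type) [Fintype I] (F k : MvPolynomial I ℂ), H1C F →
    H1C (loc F k) ∧ (loc F k).totalDegree ≠ 0

/-- Nondegeneracy is invariant under scaling. -/
def NondScaleStmt : Prop :=
  ∀ (I : Type) [Fintype I] (F : MvPolynomial I ℂ) (r t : ℂ), r ≠ 0 → t ≠ 0 → H1C F →
    H1C (C r * aeval (fun i => C t * X i) F)

/-! ### The `p`-adic side -/

section P

variable (p : ℕ) [Fact p.Prime]

/-- The mean value of a locally constant function on `ℤ_p ^ ι`. -/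
noncomputable def MP {ι : Type} [Fintype ι] (Θ : (ι → ℤ_[p]) → ℂ) : ℂ :=
  @H22.mean ι _ (Classical.decEq ι) p _ (fun x : ι → ℤ => Θ (fun i => (x i : ℤ_[p])))

/-- The indicator of `p ^ m ℤ_p`. -/
noncomputable def ind (m : ℕ) (t : ℚ_[p]) : ℂ := if ‖t‖ ≤ (p : ℝ) ^ (-(m : ℤ)) then 1 else 0

/-- The normalized point count. -/
noncomputable def cnt {ι : Type} [Fintype ι] (f : MvPolynomial ι ℤ) (m : ℕ) : ℂ :=
  (Nat.card {x : ι → ZMod (p ^ m) // aeval x f = 0} : ℂ) * (((p : ℂ) ^ Fintype.card ι)⁻¹) ^ m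

/-- Representatives of residues. -/
noncomputable def lft {ι : Type} {k : ℕ} (b : ι → ZMod (p ^ k)) : ι → ℤ_[p] :=
  fun i => ((b i).val : ℤ_[p])

/-- The series on the coset `d + p ^ K ℤ_p ^ ι` has no pole on the circle of radius `p ^ l`. -/
def GC {ι : Type} [Fintype ι] (l : ℝ) (G : (ι → ℚ_[p]) → ℚ_[p]) (d : ι → ℚ_[p]) (K : ℕ) : Prop :=
  H48N.Good p l (fun m => MP p (fun z : ι → ℤ_[p] =>
    ind p m (G (fun i => d i + (p : ℚ_[p]) ^ K * (z i : ℚ_[p])))))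

/-- All small cosets near `c` are good. -/
def LG {ι : Type} [Fintype ι] (l : ℝ) (G : (ι → ℚ_[p]) → ℚ_[p]) (c : ι → ℚ_[p]) : Prop :=
  ∃ K0 : ℕ, ∀ K, K0 ≤ K → ∀ c' : ι → ℚ_[p], ‖c' - c‖ ≤ (p : ℝ) ^ (-(K0 : ℤ)) → GC p l G c' K

/-- Strict differentiability. -/
def SD {ι : Type} [Fintype ι] (Φ : (ι → ℚ_[p]) → ι → ℚ_[p]) (A : Matrix ι ι ℚ_[p])
    (c : ι → ℚ_[p]) : Prop :=
  ∀ ε : ℝ, 0 < ε → ∃ δ : ℝ, 0 < δ ∧ ∀ x y, ‖x - c‖ ≤ δ → ‖y - c‖ ≤ δ →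
    ‖Φ x - Φ y - A.mulVec (x - y)‖ ≤ ε * ‖x - y‖

/-- The properties of the mean value, first part. -/
structure MA : Prop where
  iso : ∀ (ι : Type) [Fintype ι] (Θ : (ι → ℤ_[p]) → ℂ) (T : (ι → ℤ_[p]) → ι → ℤ_[p]),
    IsLocallyConstant Θ → (∀ z z', ‖T z - T z'‖ = ‖z - z'‖) → MP p (fun z => Θ (T z)) = MP p Θ
  reindex : ∀ (ι κ : Type) [Fintype ι] [Fintype κ] (e : ι ≃ κ) (Θ : (ι → ℤ_[p]) → ℂ),
    IsLocallyConstant Θ → MP p (fun z : κ → ℤ_[p] => Θ (fun i => z (e i))) = MP p Θ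
  count : ∀ (ι : Type) [Fintype ι] (f : MvPolynomial ι ℤ) (m : ℕ),
    MP p (fun z : ι → ℤ_[p] => ind p m (aeval (fun i => (z i : ℚ_[p])) f)) = cnt p f m
  one : ∀ (ι : Type) [Fintype ι] (i : ι) (t a : ℚ_[p]) (e m : ℕ), ‖a‖ = (p : ℝ) ^ (-(e : ℤ)) →
    e ≤ m → MP p (fun z : ι → ℤ_[p] => ind p m (t + a * (z i : ℚ_[p]))) =
      ((p : ℂ)⁻¹) ^ (m - e) * ind p e t

/-- The properties of the mean value, second part. -/
structure MB : Prop where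
  prod : ∀ (ι κ : Type) [Fintype ι] [Fintype κ] (Θ : (ι ⊕ κ → ℤ_[p]) → ℂ), IsLocallyConstant Θ →
    MP p Θ = MP p (fun x : ι → ℤ_[p] => MP p (fun y : κ → ℤ_[p] => Θ (Sum.elim x y)))
  lc_prod : ∀ (ι κ : Type) [Fintype ι] [Fintype κ] (Θ : (ι ⊕ κ → ℤ_[p]) → ℂ),
    IsLocallyConstant Θ →
    IsLocallyConstant (fun x : ι → ℤ_[p] => MP p (fun y : κ → ℤ_[p] => Θ (Sum.elim x y)))
  lattice : ∀ (ι : Type) [Fintype ι] [DecidableEq ι] (A B : Matrix ι ι ℤ_[p]) (e : ℕ)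
    (Θ : (ι → ℤ_[p]) → ℂ), IsLocallyConstant Θ → A * B = (p : ℤ_[p]) ^ e • (1 : Matrix ι ι ℤ_[p]) →
    MP p (fun z => Θ (A.mulVec z)) = (((p : ℂ) ^ Fintype.card ι)⁻¹) ^ e *
      ∑ b : ι → ZMod (p ^ e), MP p (fun w => Θ (A.mulVec (lft p b) + (p : ℤ_[p]) ^ e • w))

/-- From small cosets to the whole space. -/
def CompactStmt : Prop :=
  ∀ (ι : Type) [Fintype ι] (l : ℝ) (G : (ι → ℚ_[p]) → ℚ_[p]), Continuous G →
    (∀ a : ι → ℤ_[p], ∃ K, GC p l G (fun i => a i) K) → GC p l G 0 0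

/-- Points where the function does not vanish. -/
def NonzeroStmt : Prop :=
  ∀ (ι : Type) [Fintype ι] (l : ℝ) (G : (ι → ℚ_[p]) → ℚ_[p]) (a : ι → ℚ_[p]), Continuous G →
    G a ≠ 0 → LG p l G a

/-- Removing a unit. -/
def UnitStmt : Prop :=
  ∀ (ι : Type) [Fintype ι] (l : ℝ) (U G : (ι → ℚ_[p]) → ℚ_[p]) (c : ι → ℚ_[p]), Continuous U →
    U c ≠ 0 → LG p l (fun x => U x * G x) c → LG p l G c

/-- Coordinate functions. -/
def LinStmt : Prop :=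
  ∀ (ι : Type) [Fintype ι] (l : ℝ) (i : ι) (c : ι → ℚ_[p]), l ≠ 1 → LG p l (fun x => x i) c

/-- Polynomial maps are strictly differentiable. -/
def PolyStmt : Prop :=
  ∀ (I : Type) [Fintype I] (Φ : I → MvPolynomial I ℚ) (c : I → ℚ_[p]),
    SD p (fun x i => aeval x (Φ i)) ((jacM Φ).map (aeval c)) c

/-- Change of variables, pulling back. -/
def CV1Stmt : Prop :=
  ∀ (ι : Type) [Fintype ι] [DecidableEq ι] (l : ℝ) (Φ : (ι → ℚ_[p]) → ι → ℚ_[p])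
    (A : Matrix ι ι ℚ_[p]) (c : ι → ℚ_[p]) (G : (ι → ℚ_[p]) → ℚ_[p]), Continuous G →
    A.det ≠ 0 → SD p Φ A c → LG p l G (Φ c) → LG p l (fun x => G (Φ x)) c

/-- Change of variables, pushing forward. -/
def CV2Stmt : Prop :=
  ∀ (ι : Type) [Fintype ι] [DecidableEq ι] (l : ℝ) (Φ : (ι → ℚ_[p]) → ι → ℚ_[p])
    (A : Matrix ι ι ℚ_[p]) (c : ι → ℚ_[p]) (G : (ι → ℚ_[p]) → ℚ_[p]), Continuous G →
    Continuous Φ → A.det ≠ 0 → SD p Φ A c → LG p l (fun x => G (Φ x)) c →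
    ∃ K, GC p l G (Φ c) K

/-- Smooth points. -/
def SmoothStmt : Prop :=
  ∀ (ι : Type) [Fintype ι] (l : ℝ) (f : MvPolynomial ι ℚ) (a : ι → ℚ_[p]) (i : ι), l ≠ 1 →
    aeval a (pderiv i f) ≠ 0 → LG p l (fun x => aeval x f) a

/-- Removing hyperbolic pairs. -/
def HypStmt : Prop :=
  ∀ (ι ρ κ : Type) [Fintype ι] [Fintype ρ] [Fintype κ] (l : ℝ) (g : (ι → ℤ_[p]) → ℚ_[p]) (e : ℕ),
    Continuous g → 0 < l → l ≠ 1 →
    H48N.Good p (l + Fintype.card ρ) (fun m => MP p (fun z : Idx ι ρ κ → ℤ_[p] =>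
      ind p m (g (fun i => z (Sum.inl i)) +
        (p : ℚ_[p]) ^ e * ∑ j : ρ, (z (iμ j) : ℚ_[p]) * (z (iy j) : ℚ_[p])))) →
    H48N.Good p l (fun m => MP p (fun z : ι → ℤ_[p] => ind p m (g z)))

/-- A polynomial that is a unit exactly on a given coset. -/
def IndStmt : Prop :=
  ∀ (ι : Type) [Fintype ι] (K : ℕ) (b : ι → ℤ), ∃ k : MvPolynomial ι ℚ, ∀ x : ι → ℚ_[p],
    ‖x‖ ≤ 1 → (‖x - fun i => (b i : ℚ_[p])‖ ≤ (p : ℝ) ^ (-(K : ℤ)) → ‖aeval x k‖ = 1) ∧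
      ((p : ℝ) ^ (-(K : ℤ)) < ‖x - fun i => (b i : ℚ_[p])‖ → ‖aeval x k‖ ≤ (p : ℝ)⁻¹)

/-- The theorem on nondegenerate polynomials, with rational coefficients. -/
def BoxStmt : Prop :=
  ∀ (ι : Type) [Fintype ι] (G : MvPolynomial ι ℚ) (b : Polynomial ℚ) (l : ℝ), H1 G →
    G.totalDegree ≠ 0 → LB Set.univ G 1 b → Polynomial.aeval (-(l : ℂ)) b ≠ 0 →
    GC p l (fun x => aeval x G) 0 0

/-- The local form of the theorem on nondegenerate polynomials. -/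
def BBStmt : Prop :=
  ∀ (I : Type) [Fintype I] (F k : MvPolynomial I ℚ) (x0 : I → ℚ_[p]) (b : Polynomial ℚ) (l : ℝ),
    H1 F → aeval x0 k ≠ 0 → ‖x0‖ ≤ 1 → LB Set.univ F k b → 0 < l → l ≠ 1 →
    Polynomial.aeval (-(l : ℂ)) b ≠ 0 → LG p l (fun x => aeval x F) x0

/-- The normalized counts tend to zero. -/
def DecayStmt : Prop :=
  ∀ (n : ℕ) (f : MvPolynomial (Fin n) ℤ), f ≠ 0 →
    Filter.Tendsto (cnt p f) Filter.atTop (nhds 0)

end P

/-- No poles in the closed unit disc. -/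
def NoPoleStmt : Prop :=
  ∀ (s : ℕ → ℂ) (A B : Polynomial ℂ) (T : ℂ), Filter.Tendsto s Filter.atTop (nhds 0) →
    IsCoprime A B → (B : PowerSeries ℂ) * PowerSeries.mk s = (A : PowerSeries ℂ) →
    B.eval T = 0 → 1 < ‖T‖

end Pool.Agent.MP_5d9b3c_ag.H69
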